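import Pool.Agent.Lib.MP_a3a416_nt.TW.Defs
import Pool.Agent.Lib.MP_a3a416_nt.LJ.Basis

/-!
# TW-Basis
Degree, independence, divisibility and size of the polynomials `PJ` (as `LJ/Basis.lean`, with `4` replaced by `K`).
-/

namespace MP_a3a416_nt.TW

open Polynomial MP_a3a416_nt.BB MP_a3a416_nt.LJ

private theorem bs_monic (N a i : ℕ) : (bs N a i).Monic :=
  ((monic_prodLin_one 0 _).pow _).mul (monic_prodLin_one 0 _)

private theorem bs_natDegree (N a i : ℕ) : (bs N a i).natDegree = a * N + i := by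
  unfold bs
  rw [Monic.natDegree_mul ((monic_prodLin_one 0 _).pow _) (monic_prodLin_one 0 _),
    (monic_prodLin_one 0 _).natDegree_pow, natDegree_prodLin_one, natDegree_prodLin_one]
  simp

theorem natDegree_PJ_lt {K N : ℕ} (hK : 1 ≤ K) (hN : 1 ≤ N) (c : ℕ × ℕ × ℕ → ℤ) (m : ℕ) :
    (PJ K N c m).natDegree < K * N := by
  have hKN : 1 ≤ K * N := Nat.one_le_iff_ne_zero.2 (by positivity)
  have h : (PJ K N c m).natDegree ≤ K * N - 1 := by
    unfold PJ
    refine natDegree_sum_le_of_forall_le _ _ fun a ha => ?_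
    refine natDegree_sum_le_of_forall_le _ _ fun i hi => ?_
    rw [Finset.mem_range] at ha hi
    refine (natDegree_C_mul_le _ _).trans ?_
    rw [bs_natDegree]
    have h1 : (a + 1) * N ≤ K * N := Nat.mul_le_mul_right N (by omega)
    rw [add_mul, one_mul] at h1
    omega
  omega

theorem dJ_dvd_FN {K N a i : ℕ} (ha : a < K) (hi : i < N) : dJ N a i ∣ FN K N := by
  unfold dJ FN
  calc N.factorial ^ a * i.factorial ∣ N.factorial ^ a * N.factorial :=
        mul_dvd_mul_left _ (Nat.factorial_dvd_factorial hi.le)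
    _ = N.factorial ^ (a + 1) := by ring
    _ ∣ N.factorial ^ K := pow_dvd_pow _ (by omega)

private theorem dJ_pos (N a i : ℕ) : 0 < dJ N a i := by
  unfold dJ; positivity

private theorem FN_div_pos {K N a i : ℕ} (ha : a < K) (hi : i < N) : 0 < FN K N / dJ N a i :=
  Nat.div_pos (Nat.le_of_dvd (FN_pos K N) (dJ_dvd_FN ha hi)) (dJ_pos N a i)

theorem exists_PJ_ne_zero {S K N : ℕ} (c : ℕ × ℕ × ℕ → ℤ) (hc : ∃ x ∈ ix S K N, c x ≠ 0) :
    ∃ m < S, PJ K N c m ≠ 0 := by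
  classical
  obtain ⟨⟨m, a, i⟩, hx, hcx⟩ := hc
  simp only [ix, Finset.mem_product, Finset.mem_range] at hx
  obtain ⟨hm, ha, hi⟩ := hx
  refine ⟨m, hm, ?_⟩
  intro hPJ
  have hN : 0 < N := by omega
  have hsum : ∑ y ∈ Finset.range K ×ˢ Finset.range N,
      C (c (m, y.1, y.2) * ((FN K N / dJ N y.1 y.2 : ℕ) : ℤ)) * bs N y.1 y.2 = 0 := by
    rw [Finset.sum_product]
    exact hPJ
  have hall := indep_of_degrees (Finset.range K ×ˢ Finset.range N)
    (fun y => bs N y.1 y.2) (fun y _ => bs_monic N y.1 y.2)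
    (by
      intro y hy z hz hyz
      simp only [bs_natDegree] at hyz
      simp only [Finset.mem_product, Finset.mem_range] at hy hz
      have h1 : y.1 = z.1 := by
        have e1 : (y.1 * N + y.2) / N = y.1 := by
          rw [mul_comm, Nat.mul_add_div hN, Nat.div_eq_of_lt hy.2, add_zero]
        have e2 : (z.1 * N + z.2) / N = z.1 := by
          rw [mul_comm, Nat.mul_add_div hN, Nat.div_eq_of_lt hz.2, add_zero]
        rw [← e1, ← e2, hyz]
      have h2 : y.2 = z.2 := by rw [h1] at hyz; omega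
      exact Prod.ext h1 h2)
    (fun y => c (m, y.1, y.2) * ((FN K N / dJ N y.1 y.2 : ℕ) : ℤ)) hsum (a, i)
    (by simp only [Finset.mem_product, Finset.mem_range]; exact ⟨ha, hi⟩)
  have hpos : 0 < FN K N / dJ N a i := FN_div_pos ha hi
  simp only [mul_eq_zero, Int.natCast_eq_zero] at hall
  rcases hall with h | h
  · exact hcx h
  · omega

theorem taylor_PJ (K N : ℕ) (c : ℕ × ℕ × ℕ → ℤ) (m n : ℕ) :
    taylor (n : ℤ) (PJ K N c m) = ∑ a ∈ Finset.range K, ∑ i ∈ Finset.range N,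
      C (c (m, a, i) * ((FN K N / dJ N a i : ℕ) : ℤ)) * bsL N n a i := by
  unfold PJ
  rw [map_sum]
  refine Finset.sum_congr rfl fun a _ => ?_
  rw [map_sum]
  refine Finset.sum_congr rfl fun i _ => ?_
  rw [taylor_mul, taylor_C, taylor_bs]

private theorem log_fact {q L : ℕ} (hq : q.Prime) {m : ℕ} (hm : m < q ^ (L + 1)) :
    (m.factorial).factorization q = ∑ l ∈ Finset.Icc 1 L, m / q ^ l := by
  have hb : Nat.log q m < L + 1 := by
    rcases Nat.eq_zero_or_pos m with rfl | hpos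
    · simp
    · exact (Nat.log_lt_iff_lt_pow hq.one_lt (by omega)).2 hm
  rw [Nat.factorization_factorial hq hb]
  rfl

private theorem pow_dvd_FN_div {q L K N a i : ℕ} (hq : q.Prime) (hL : N < q ^ (L + 1)) (ha : a < K)
    (hi : i < N) :
    q ^ (∑ l ∈ Finset.Icc 1 L, (K * (N / q ^ l) - (a * (N / q ^ l) + i / q ^ l))) ∣
      FN K N / dJ N a i := by
  rw [hq.pow_dvd_iff_le_factorization (FN_div_pos ha hi).ne',
    Nat.factorization_div (dJ_dvd_FN ha hi), Finsupp.tsub_apply]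
  have h1 : (FN K N).factorization q = ∑ l ∈ Finset.Icc 1 L, K * (N / q ^ l) := by
    unfold FN
    rw [Nat.factorization_pow, Finsupp.smul_apply, smul_eq_mul, log_fact hq hL, Finset.mul_sum]
  have h2 : (dJ N a i).factorization q =
      ∑ l ∈ Finset.Icc 1 L, (a * (N / q ^ l) + i / q ^ l) := by
    unfold dJ
    rw [Nat.factorization_mul (by positivity) (by positivity), Nat.factorization_pow,
      Finsupp.add_apply, Finsupp.smul_apply, smul_eq_mul, log_fact hq hL,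
      log_fact hq (hi.trans hL), Finset.mul_sum, Finset.sum_add_distrib]
  rw [h1, h2]
  have h3 : ∑ l ∈ Finset.Icc 1 L, (K * (N / q ^ l) - (a * (N / q ^ l) + i / q ^ l)) +
      ∑ l ∈ Finset.Icc 1 L, (a * (N / q ^ l) + i / q ^ l) =
      ∑ l ∈ Finset.Icc 1 L, K * (N / q ^ l) := by
    rw [← Finset.sum_add_distrib]
    refine Finset.sum_congr rfl fun l _ => ?_
    have h4 : i / q ^ l ≤ N / q ^ l := Nat.div_le_div_right hi.le
    have h5 : (a + 1) * (N / q ^ l) ≤ K * (N / q ^ l) := Nat.mul_le_mul_right _ (by omega)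
    rw [add_mul, one_mul] at h5
    omega
  omega

theorem PJ_adm {q L K N : ℕ} (hq : q.Prime) (hL : N < q ^ (L + 1)) (c : ℕ × ℕ × ℕ → ℤ) (m n : ℕ) :
    Adm q L (fun l => K * (N / q ^ l)) (taylor (n : ℤ) (PJ K N c m)) := by
  intro k
  rw [taylor_PJ, finsetSum_coeff]
  refine Finset.dvd_sum fun a ha => ?_
  rw [finsetSum_coeff]
  refine Finset.dvd_sum fun i hi => ?_
  rw [Finset.mem_range] at ha hi
  rw [coeff_C_mul]
  have h1 : Adm q L (fun l => a * (N / q ^ l) + i / q ^ l) (bsL N n a i) :=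
    ((Adm.blk q L hq.one_le N n 1).pow a).mul (Adm.blk q L hq.one_le i n 1)
  have h2 : (q : ℤ) ^ (∑ l ∈ Finset.Icc 1 L, (K * (N / q ^ l) - (a * (N / q ^ l) + i / q ^ l))) ∣
      ((FN K N / dJ N a i : ℕ) : ℤ) := by exact_mod_cast pow_dvd_FN_div hq hL ha hi
  have h3 := mul_dvd_mul h2 (h1 k)
  rw [← pow_add, ← Finset.sum_add_distrib] at h3
  have h4 : (q : ℤ) ^ (∑ l ∈ Finset.Icc 1 L, (K * (N / q ^ l) - k)) ∣
      ((FN K N / dJ N a i : ℕ) : ℤ) * (bsL N n a i).coeff k := by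
    refine (pow_dvd_pow _ (Finset.sum_le_sum fun l _ => ?_)).trans h3
    dsimp only
    generalize K * (N / q ^ l) = A
    generalize a * (N / q ^ l) + i / q ^ l = B
    omega
  rw [mul_assoc]
  exact h4.mul_left _

private theorem bsL_size {N n a i : ℕ} (hi : i < N) (hn : n < N) (k : ℕ) :
    |(bsL N n a i).coeff k| ≤ ((dJ N a i * 2 ^ N : ℕ) : ℤ) := by
  obtain ⟨F₁, h₁, e₁⟩ := sz_prodLin (R := 1) (e := 1) le_rfl (n : ℤ) (Finset.range N)
  obtain ⟨F₂, h₂, e₂⟩ := sz_prodLin (R := 1) (e := 1) le_rfl (n : ℤ) (Finset.range i)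
  have h := ((h₁.pow a).mul h₂) k
  unfold bsL
  refine h.trans ?_
  have hc := coeff_le_eval_one (F₁ ^ a * F₂) k
  have hev : (F₁ ^ a * F₂).eval 1 ≤ dJ N a i * 2 ^ N := by
    rw [eval_mul, eval_pow, e₁, e₂]
    have g1 : prodAbs n (Finset.range N) ≤ N.factorial := prodAbs_le_factorial hn
    have g2 : prodAbs n (Finset.range i) ≤ i.factorial * 2 ^ N := prodAbs_le_two_pow hn
    unfold dJ
    calc prodAbs n (Finset.range N) ^ a * prodAbs n (Finset.range i)
        ≤ N.factorial ^ a * (i.factorial * 2 ^ N) :=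
          Nat.mul_le_mul (Nat.pow_le_pow_left g1 a) g2
      _ = N.factorial ^ a * i.factorial * 2 ^ N := by ring
  rw [one_pow, one_mul]
  exact_mod_cast hc.trans hev

theorem PJ_size {S K N H : ℕ} (c : ℕ × ℕ × ℕ → ℤ) (hc : ∀ x ∈ ix S K N, |c x| ≤ (H : ℤ)) {m n : ℕ} (hm : m < S)
    (hn : n < N) (k : ℕ) :
    |(taylor (n : ℤ) (PJ K N c m)).coeff k| ≤ ((FN K N * (K * N * H * 2 ^ N) : ℕ) : ℤ) := by
  rw [taylor_PJ, finsetSum_coeff]
  have hterm : ∀ a ∈ Finset.range K, ∀ i ∈ Finset.range N,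
      |(C (c (m, a, i) * ((FN K N / dJ N a i : ℕ) : ℤ)) * bsL N n a i).coeff k| ≤
        ((FN K N * (H * 2 ^ N) : ℕ) : ℤ) := by
    intro a ha i hi
    have hx : |c (m, a, i)| ≤ (H : ℤ) := hc (m, a, i) (by
      simp only [ix, Finset.mem_product]
      exact ⟨Finset.mem_range.2 hm, ha, hi⟩)
    rw [Finset.mem_range] at ha hi
    rw [coeff_C_mul, abs_mul, abs_mul, Nat.abs_cast, mul_assoc]
    have h1 := bsL_size (a := a) hi hn k
    have h2 : ((FN K N / dJ N a i : ℕ) : ℤ) * |(bsL N n a i).coeff k| ≤ ((FN K N * 2 ^ N : ℕ) : ℤ) := by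
      calc ((FN K N / dJ N a i : ℕ) : ℤ) * |(bsL N n a i).coeff k|
          ≤ ((FN K N / dJ N a i : ℕ) : ℤ) * ((dJ N a i * 2 ^ N : ℕ) : ℤ) :=
            mul_le_mul_of_nonneg_left h1 (Int.natCast_nonneg _)
        _ = ((FN K N / dJ N a i * dJ N a i * 2 ^ N : ℕ) : ℤ) := by push_cast; ring
        _ = ((FN K N * 2 ^ N : ℕ) : ℤ) := by rw [Nat.div_mul_cancel (dJ_dvd_FN ha hi)]
    calc |c (m, a, i)| * (((FN K N / dJ N a i : ℕ) : ℤ) * |(bsL N n a i).coeff k|)
        ≤ (H : ℤ) * ((FN K N * 2 ^ N : ℕ) : ℤ) :=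
          mul_le_mul hx h2 (mul_nonneg (Int.natCast_nonneg _) (abs_nonneg _)) (Int.natCast_nonneg _)
      _ = ((FN K N * (H * 2 ^ N) : ℕ) : ℤ) := by push_cast; ring
  refine (Finset.abs_sum_le_sum_abs _ _).trans ?_
  have h1 : ∀ a ∈ Finset.range K,
      |(∑ i ∈ Finset.range N, C (c (m, a, i) * ((FN K N / dJ N a i : ℕ) : ℤ)) *
        bsL N n a i).coeff k| ≤ (N : ℤ) * ((FN K N * (H * 2 ^ N) : ℕ) : ℤ) := by
    intro a ha
    rw [finsetSum_coeff]
    refine (Finset.abs_sum_le_sum_abs _ _).trans ((Finset.sum_le_sum (hterm a ha)).trans ?_)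
    rw [Finset.sum_const, Finset.card_range, nsmul_eq_mul]
  refine (Finset.sum_le_sum h1).trans ?_
  rw [Finset.sum_const, Finset.card_range, nsmul_eq_mul]
  push_cast
  apply le_of_eq
  ring

theorem PJ_add (K N : ℕ) (c c' : ℕ × ℕ × ℕ → ℤ) (m : ℕ) :
    PJ K N (fun x => c x + c' x) m = PJ K N c m + PJ K N c' m := by
  unfold PJ
  rw [← Finset.sum_add_distrib]
  apply Finset.sum_congr rfl
  intro a _
  rw [← Finset.sum_add_distrib]
  apply Finset.sum_congr rfl
  intro i _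
  simp only [add_mul, C_add]

theorem PJ_zero (K N : ℕ) (m : ℕ) : PJ K N (fun _ => 0) m = 0 := by
  unfold PJ
  apply Finset.sum_eq_zero
  intro a _
  apply Finset.sum_eq_zero
  intro i _
  simp

end MP_a3a416_nt.TW
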