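import Pool.Agent.Lib.MP_a3a416_nt.TW.Basis

/-!
# TW-Den
The common denominator `DJ K N L = ∏_{u ≤ L} lcm(1..KN/u)` (as `LJ/Den.lean`), and the integers for the Taylor coefficients and the forms `regF`.
-/

namespace MP_a3a416_nt.TW

open Polynomial MP_a3a416_nt.BB

private theorem factorization_DJ (K N L : ℕ) {q : ℕ} (hq : q.Prime) :
    (DJ K N L).factorization q
      = ∑ l ∈ Finset.Icc 1 (Nat.log q (K * N)), min L (K * N / q ^ l) := by
  unfold DJ
  set A := K * N with hA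
  rw [Nat.factorization_prod (fun u _ => Nat.lcmUpto_ne_zero _), Finsupp.finsetSum_apply]
  have hq1 := hq.one_lt
  set L' := Nat.log q A with hL
  have h1 : ∀ u ∈ Finset.Icc 1 L, (Nat.lcmUpto (A / u)).factorization q
      = ∑ l ∈ Finset.Icc 1 L', if u ≤ A / q ^ l then 1 else 0 := by
    intro u hu
    rw [Nat.factorization_lcmUpto _ hq]
    have hB : A / u < q ^ (L' + 1) :=
      lt_of_le_of_lt (Nat.div_le_self _ _) (Nat.lt_pow_succ_log_self hq1 A)
    rw [log_eq_sum hq1 hB]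
    apply Finset.sum_congr rfl
    intro l hl
    rw [Finset.mem_Icc] at hl hu
    have hpos : 0 < q ^ l := by positivity
    have h3 : q ^ l ≤ A / u ↔ u ≤ A / q ^ l := by
      rw [Nat.le_div_iff_mul_le (by omega), Nat.le_div_iff_mul_le hpos, mul_comm u]
    simp only [h3]
  rw [Finset.sum_congr rfl h1, Finset.sum_comm]
  apply Finset.sum_congr rfl
  intro l _
  rw [← Finset.card_filter, card_le_min]

private theorem factorization_FN {K N : ℕ} (hK : 1 ≤ K) {q : ℕ} (hq : q.Prime) :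
    (FN K N).factorization q = ∑ l ∈ Finset.Icc 1 (Nat.log q (K * N)), K * (N / q ^ l) := by
  have hNK : N ≤ K * N := Nat.le_mul_of_pos_left _ (by omega)
  have hb : Nat.log q N < Nat.log q (K * N) + 1 :=
    Nat.lt_succ_of_le (Nat.log_mono_right hNK)
  unfold FN
  rw [Nat.factorization_pow, Finsupp.smul_apply, smul_eq_mul, Nat.factorization_factorial hq hb,
    Finset.mul_sum]
  rfl

theorem FN_dvd_of {K N L : ℕ} (hK : 1 ≤ K) (z : ℤ)
    (h : ∀ q : ℕ, q.Prime → (q : ℤ) ^ (∑ l ∈ Finset.Icc 1 (Nat.log q (K * N)), (K * (N / q ^ l) - L)) ∣ z) :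
    (FN K N : ℤ) ∣ (DJ K N L : ℤ) * z := by
  rw [Int.natCast_dvd, Nat.dvd_iff_prime_pow_dvd_dvd]
  intro q e hq he
  have he' : e ≤ (FN K N).factorization q := (hq.pow_dvd_iff_le_factorization (FN_pos K N).ne').1 he
  rw [factorization_FN hK hq] at he'
  have h2 : q ^ (∑ l ∈ Finset.Icc 1 (Nat.log q (K * N)), min L (K * N / q ^ l)) ∣ DJ K N L := by
    rw [← factorization_DJ K N L hq]
    exact Nat.ordProj_dvd _ _
  have h3 : ∑ l ∈ Finset.Icc 1 (Nat.log q (K * N)), K * (N / q ^ l)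
      ≤ ∑ l ∈ Finset.Icc 1 (Nat.log q (K * N)), min L (K * N / q ^ l)
        + ∑ l ∈ Finset.Icc 1 (Nat.log q (K * N)), (K * (N / q ^ l) - L) := by
    rw [← Finset.sum_add_distrib]
    apply Finset.sum_le_sum
    intro l _
    have hpos : 0 < q ^ l := pow_pos hq.pos l
    have h4 : K * (N / q ^ l) ≤ K * N / q ^ l := by
      rw [Nat.le_div_iff_mul_le hpos, mul_assoc]
      exact Nat.mul_le_mul_left K (Nat.div_mul_le_self N (q ^ l))
    omega
  have h4 : (q : ℤ) ^ e ∣ (DJ K N L : ℤ) * z := by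
    refine dvd_trans (pow_dvd_pow _ (he'.trans h3)) ?_
    rw [pow_add]
    exact mul_dvd_mul (by exact_mod_cast h2) (h q hq)
  rw [← Int.natCast_dvd]
  exact_mod_cast h4

theorem log_DJ_le (K N L : ℕ) :
    Real.log (DJ K N L) ≤ (Real.log 4 + 4) * (K * N) * (1 + Real.log L) := by
  unfold DJ
  push_cast
  rw [Real.log_prod (fun u _ => by exact_mod_cast Nat.lcmUpto_ne_zero _)]
  have h4 : 0 ≤ Real.log 4 := Real.log_nonneg (by norm_num)
  have h1 : ∀ u ∈ Finset.Icc 1 L, Real.log (Nat.lcmUpto (K * N / u))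
      ≤ (Real.log 4 + 4) * (K * N) * (u : ℝ)⁻¹ := by
    intro u hu
    have hu1 := (Finset.mem_Icc.1 hu).1
    have hu0 : (0 : ℝ) < u := by exact_mod_cast hu1
    rw [← Chebyshev.psi_eq_log_lcmUpto]
    refine (Chebyshev.psi_le_const_mul_self (by positivity)).trans ?_
    have h5 : ((K * N / u : ℕ) : ℝ) ≤ ((K : ℝ) * N) / u := by
      refine (Nat.cast_div_le).trans (le_of_eq ?_)
      push_cast
      ring
    calc (Real.log 4 + 4) * ((K * N / u : ℕ) : ℝ) ≤ (Real.log 4 + 4) * (((K : ℝ) * N) / u) :=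
          mul_le_mul_of_nonneg_left h5 (by linarith)
      _ = (Real.log 4 + 4) * (K * N) * (u : ℝ)⁻¹ := by
          rw [div_eq_mul_inv]; ring
  refine (Finset.sum_le_sum h1).trans ?_
  rw [← Finset.mul_sum]
  refine mul_le_mul_of_nonneg_left ?_ (by positivity)
  have h6 := harmonic_le_one_add_log L
  rw [harmonic_eq_sum_Icc] at h6
  push_cast at h6
  exact h6

theorem FN_dvd_PJ {K N L n k m : ℕ} (hK : 1 ≤ K) (c : ℕ × ℕ × ℕ → ℤ) (hk : k ≤ L) :
    (FN K N : ℤ) ∣ (DJ K N L : ℤ) * (taylor (n : ℤ) (PJ K N c m)).coeff k := by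
  have hNK : N ≤ K * N := Nat.le_mul_of_pos_left _ (by omega)
  refine FN_dvd_of hK _ fun q hq => ?_
  have hL : N < q ^ (Nat.log q (K * N) + 1) :=
    lt_of_le_of_lt hNK (Nat.lt_pow_succ_log_self hq.one_lt (K * N))
  refine dvd_trans (pow_dvd_pow _ ?_) (PJ_adm hq hL c m n k)
  exact Finset.sum_le_sum fun l _ => Nat.sub_le_sub_left hk _

private theorem sjb_int {S K N H L : ℕ} (hK : 1 ≤ K) (c : ℕ × ℕ × ℕ → ℤ) (hc : ∀ x ∈ ix S K N, |c x| ≤ (H : ℤ))
    {m n k : ℕ} (hm : m < S) (hn : n < N) (hk : k ≤ L) :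
    ∃ z : ℤ, (DJ K N L : ℤ) * (taylor (n : ℤ) (PJ K N c m)).coeff k = (FN K N : ℤ) * z ∧
      |z| ≤ (DJ K N L : ℤ) * (K * N * H * 2 ^ N) := by
  obtain ⟨z, hz⟩ := FN_dvd_PJ (N := N) (L := L) (n := n) (k := k) (m := m) hK c hk
  refine ⟨z, hz, ?_⟩
  have h1 := PJ_size c hc hm hn k
  have hF : (0 : ℤ) < (FN K N : ℤ) := by exact_mod_cast FN_pos K N
  have hD : (0 : ℤ) ≤ (DJ K N L : ℤ) := by positivity
  have h2 : (FN K N : ℤ) * |z| = (DJ K N L : ℤ) * |(taylor (n : ℤ) (PJ K N c m)).coeff k| := by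
    rw [← abs_of_pos hF, ← abs_mul, ← hz, abs_mul, abs_of_nonneg hD]
  have h3 : (FN K N : ℤ) * |z| ≤ (FN K N : ℤ) * ((DJ K N L : ℤ) * (K * N * H * 2 ^ N)) := by
    rw [h2]
    calc (DJ K N L : ℤ) * |(taylor (n : ℤ) (PJ K N c m)).coeff k|
        ≤ (DJ K N L : ℤ) * ((FN K N * (K * N * H * 2 ^ N) : ℕ) : ℤ) :=
          mul_le_mul_of_nonneg_left h1 hD
      _ = _ := by push_cast; ring
  exact le_of_mul_le_mul_left h3 hF

theorem regF_bound {e S K N H : ℕ} (hK : 1 ≤ K) (c : ℕ × ℕ × ℕ → ℤ) (hc : ∀ x ∈ ix S K N, |c x| ≤ (H : ℤ))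
    {a i : ℕ} (ha : a < N) (hi : 1 ≤ i) :
    ∃ z : ℤ, (DJ K N (e + S + 1) : ℤ) * regF e S K N c a i = (FN K N : ℤ) * z ∧
      |z| ≤ ((AJ e S K N * H : ℕ) : ℤ) := by
  have hex : ∀ m : ℕ, ∃ z : ℤ, m < S → i ≤ e + m + 2 →
      (DJ K N (e + S + 1) : ℤ) * (taylor (a : ℤ) (PJ K N c m)).coeff (e + m + 2 - i) = (FN K N : ℤ) * z ∧
      |z| ≤ (DJ K N (e + S + 1) : ℤ) * (K * N * H * 2 ^ N) := by
    intro m
    by_cases h : m < S ∧ i ≤ e + m + 2
    · obtain ⟨z, hz⟩ := sjb_int (L := e + S + 1) hK c hc h.1 ha (show e + m + 2 - i ≤ e + S + 1 by omega)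
      exact ⟨z, fun _ _ => hz⟩
    · exact ⟨0, fun h1 h2 => absurd ⟨h1, h2⟩ h⟩
  choose z hz using hex
  refine ⟨∑ m ∈ Finset.range S, if i ≤ e + m + 2 then cc (e + m) * z m else 0, ?_, ?_⟩
  · unfold regF
    rw [Finset.mul_sum, Finset.mul_sum]
    refine Finset.sum_congr rfl fun m hm => ?_
    split_ifs with h
    · have := (hz m (Finset.mem_range.1 hm) h).1
      linear_combination cc (e + m) * this
    · ring
  · obtain ⟨M, hM⟩ : ∃ M : ℤ, M = (DJ K N (e + S + 1) : ℤ) * (K * N * H * 2 ^ N) := ⟨_, rfl⟩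
    have hM0 : 0 ≤ M := by
      rw [hM]
      refine mul_nonneg (Int.natCast_nonneg _) ?_
      positivity
    have hterm : ∀ m ∈ Finset.range S,
        |if i ≤ e + m + 2 then cc (e + m) * z m else 0| ≤ ((e : ℤ) + S) * M := by
      intro m hm
      rw [Finset.mem_range] at hm
      split_ifs with h
      · have h1 : |z m| ≤ M := by
          rw [hM]
          exact (hz m hm h).2
        rw [abs_mul, abs_cc]
        have h2 : ((e + m : ℕ) : ℤ) + 1 ≤ (e : ℤ) + S := by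
          push_cast
          have : (m : ℤ) + 1 ≤ S := by exact_mod_cast hm
          linarith
        exact mul_le_mul h2 h1 (abs_nonneg _) (by positivity)
      · rw [abs_zero]
        exact mul_nonneg (by positivity) hM0
    calc |∑ m ∈ Finset.range S, if i ≤ e + m + 2 then cc (e + m) * z m else 0|
        ≤ ∑ m ∈ Finset.range S, |if i ≤ e + m + 2 then cc (e + m) * z m else 0| :=
          Finset.abs_sum_le_sum_abs _ _
      _ ≤ ∑ _m ∈ Finset.range S, ((e : ℤ) + S) * M :=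
          Finset.sum_le_sum hterm
      _ = ((AJ e S K N * H : ℕ) : ℤ) := by
          rw [Finset.sum_const, Finset.card_range, nsmul_eq_mul, hM]
          unfold AJ
          push_cast
          ring

end MP_a3a416_nt.TW
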