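import Pool.Agent.Lib.MP_a3a416_nt.TW.Poles
import Pool.Agent.Lib.MP_a3a416_nt.LJ.Series

/-!
# TW-Series
`r_n` as a power series over `ℚ` (as `LJ/Series.lean`).
-/

namespace MP_a3a416_nt.TW

open Polynomial MP_a3a416_nt.BB MP_a3a416_nt.LJ

private theorem hD_sum {ι : Type} (m : ℕ) (s : Finset ι) (f : ι → PowerSeries ℚ) :
    hD m (∑ i ∈ s, f i) = ∑ i ∈ s, hD m (f i) := by
  ext k
  simp only [hD, PowerSeries.coeff_mk, map_sum, Finset.mul_sum]

private theorem toPS_taylor (n : ℕ) (P : ℤ[X]) :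
    ((taylor (n : ℚ) (P.map (Int.castRingHom ℚ)) : ℚ[X]) : PowerSeries ℚ)
      = toPS (taylor (n : ℤ) P) := by
  rw [toPS_apply, Polynomial.map_taylor]
  simp

private theorem key {e S K N n : ℕ} (c : ℕ × ℕ × ℕ → ℤ) (hreg : REG e S K N c) (hn : n ≤ N) {a : ℕ}
    (ha : a < n) :
    toPS (C ((n : ℤ) - a)) * toPS (taylor (n : ℤ) (QJ e S K N c a)) =
      ∑ m ∈ Finset.range S, toPS (taylor (n : ℤ) (PJ K N c m)) * hD (e + m) (jet 1 (n - a)) := by
  have hb : 1 ≤ n - a := by omega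
  have hcast : ((n - a : ℕ) : ℚ) = (n : ℚ) - a := by push_cast [Nat.cast_sub ha.le]; ring
  have hY : (PowerSeries.X + PowerSeries.C ((n - a : ℕ) : ℚ) : PowerSeries ℚ) ≠ 0 := by
    intro h0
    have h1 := congrArg (PowerSeries.coeff 1) h0
    rw [map_add, PowerSeries.coeff_one_X, PowerSeries.coeff_C, if_neg one_ne_zero, add_zero,
      map_zero] at h1
    exact one_ne_zero h1
  have htay : toPS (taylor (n : ℤ) (X - C (a : ℤ))) =
      PowerSeries.X + PowerSeries.C ((n - a : ℕ) : ℚ) := by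
    rw [map_sub, taylor_X, taylor_C, add_sub_assoc, ← C_sub, map_add, toPS_X, toPS_C, hcast]
    push_cast
    rfl
  apply mul_left_cancel₀ (pow_ne_zero (e + S + 1) hY)
  have hq := congrArg (fun P => toPS (taylor (n : ℤ) P)) (QJ_mul c hreg (lt_of_lt_of_le ha hn))
  simp only [taylor_mul, map_mul, taylor_pow, map_pow, htay, map_sum] at hq
  calc _ = toPS (C ((n : ℤ) - a)) * ((PowerSeries.X + PowerSeries.C ((n - a : ℕ) : ℚ)) ^ (e + S + 1) *
        toPS (taylor (n : ℤ) (QJ e S K N c a))) := by ring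
    _ = _ := by
      rw [hq, Finset.mul_sum, Finset.mul_sum]
      refine Finset.sum_congr rfl (fun m hm => ?_)
      rw [Finset.mem_range] at hm
      have he : e + S + 1 = (S - 1 - m) + (e + m + 2) := by omega
      have hj := hD_jet (e + m) hb
      rw [he, pow_add]
      rw [show (PowerSeries.X + PowerSeries.C ((n - a : ℕ) : ℚ)) ^ (S - 1 - m) *
          (PowerSeries.X + PowerSeries.C ((n - a : ℕ) : ℚ)) ^ (e + m + 2) *
          (toPS (taylor (n : ℤ) (PJ K N c m)) * hD (e + m) (jet 1 (n - a))) =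
          (PowerSeries.X + PowerSeries.C ((n - a : ℕ) : ℚ)) ^ (S - 1 - m) *
          toPS (taylor (n : ℤ) (PJ K N c m)) *
          ((PowerSeries.X + PowerSeries.C ((n - a : ℕ) : ℚ)) ^ (e + m + 2) * hD (e + m) (jet 1 (n - a))) by
          ring, hj]
      have hcc : ((cc (e + m) : ℤ) : ℚ) = (-1) ^ (e + m) * (((e + m : ℕ) : ℚ) + 1) := by
        unfold cc
        push_cast
        ring
      simp only [taylor_C, toPS_C, hcast, hcc, map_mul]
      push_cast
      ring

theorem rJ_series {e S K N n : ℕ} (c : ℕ × ℕ × ℕ → ℤ) (hreg : REG e S K N c) (hn : n ≤ N) :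
    (((rJ e S K N c n).map (Int.castRingHom ℚ) : ℚ[X]) : PowerSeries ℚ) =
      ∑ m ∈ Finset.range S,
        ((taylor (n : ℚ) ((PJ K N c m).map (Int.castRingHom ℚ)) : ℚ[X]) : PowerSeries ℚ) *
          LJ.hD (e + m) (vser 1 n) := by
  simp only [toPS_taylor]
  rw [← toPS_apply]
  unfold rJ vser
  simp only [hD_sum, Finset.mul_sum, one_mul]
  rw [map_sum, Finset.sum_comm]
  simp only [map_mul]
  rw [Finset.sum_congr rfl (fun a ha => key c hreg hn (Finset.mem_range.1 ha))]
  refine Finset.sum_bij' (fun a _ => n - a) (fun b _ => n - b) ?_ ?_ ?_ ?_ ?_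
  · intro a ha
    rw [Finset.mem_range] at ha
    rw [Finset.mem_Icc]
    omega
  · intro b hb
    rw [Finset.mem_Icc] at hb
    rw [Finset.mem_range]
    omega
  · intro a ha
    rw [Finset.mem_range] at ha
    omega
  · intro b hb
    rw [Finset.mem_Icc] at hb
    omega
  · intro a ha
    rfl

end MP_a3a416_nt.TW
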