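import Pool.Agent.Lib.MP_a3a416_nt.LJ.Defs

/-!
# TW-Defs
Theorem T (short windows; paper /team-store/TW_proof.md): auxiliary polynomials `P_m`, `m < S`, of degree `< K N`, paired with the
Hasse derivatives `E^[e+m]`; everything scaled by `FN K N = N!^K`.
-/

namespace MP_a3a416_nt.TW

open Polynomial MP_a3a416_nt.BB

/-- Index set of the unknown coefficients `(m, a, i)`: `m < S`, `a < K`, `i < N`. -/
def ix (S K N : ℕ) : Finset (ℕ × ℕ × ℕ) :=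
  Finset.range S ×ˢ (Finset.range K ×ˢ Finset.range N)

/-- the sign and size factor `(-1)^j (j+1) = binom(-2, j)`. -/
def cc (j : ℕ) : ℤ := (-1) ^ j * ((j : ℤ) + 1)

/-- a common multiple of all `LJ.dJ N a i`, `a < K`, `i < N`. -/
def FN (K N : ℕ) : ℕ := Nat.factorial N ^ K

/-- `P_m` times `FN K N`. -/
noncomputable def PJ (K N : ℕ) (c : ℕ × ℕ × ℕ → ℤ) (m : ℕ) : ℤ[X] :=
  ∑ a ∈ Finset.range K, ∑ i ∈ Finset.range N,
    C (c (m, a, i) * ((FN K N / LJ.dJ N a i : ℕ) : ℤ)) * LJ.bs N a i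

/-- `Q_b` times `FN K N`: the sum of the divided differences `cc (e+m) (P_m)_{(e+m+2)}` at the point `b`. -/
noncomputable def QJ (e S K N : ℕ) (c : ℕ × ℕ × ℕ → ℤ) (b : ℤ) : ℤ[X] :=
  ∑ m ∈ Finset.range S, C (cc (e + m)) * LI.dq b (e + m + 2) (PJ K N c m)

/-- `r_n(t)` times `FN K N`: `∑_{b<n} (n-b) Q_b(n+t)`. -/
noncomputable def rJ (e S K N : ℕ) (c : ℕ × ℕ × ℕ → ℤ) (n : ℕ) : ℤ[X] :=
  ∑ b ∈ Finset.range n, C ((n : ℤ) - b) * taylor (n : ℤ) (QJ e S K N c b)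

/-- the linear form `(b,i)` of the joint pole cancellation. -/
noncomputable def regF (e S K N : ℕ) (c : ℕ × ℕ × ℕ → ℤ) (b i : ℕ) : ℤ :=
  ∑ m ∈ Finset.range S, if i ≤ e + m + 2 then
    cc (e + m) * (taylor (b : ℤ) (PJ K N c m)).coeff (e + m + 2 - i) else 0

/-- joint pole cancellation: `∑_m cc (e+m) P_m (X-b)^(-2-e-m)` is a polynomial for all `b < N`. -/
def REG (e S K N : ℕ) (c : ℕ × ℕ × ℕ → ℤ) : Prop :=
  ∀ b < N, ∀ i, 1 ≤ i → i ≤ e + S + 1 → regF e S K N c b i = 0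

/-- common denominator. -/
def DJ (K N L : ℕ) : ℕ := ∏ u ∈ Finset.Icc 1 L, Nat.lcmUpto (K * N / u)

/-- size of the linear forms `regF`. -/
def AJ (e S K N : ℕ) : ℕ := DJ K N (e + S + 1) * (S * (e + S) * (K * N) * 2 ^ N)

/-- size of the jets. -/
def EJ (e S K N T : ℕ) : ℕ := DJ K N (T + e + S) * (S * T * (K * N ^ 2) * 2 ^ N * 4 ^ (T + e + S))

/-- `p` divides (the numerator of) `B_{p-1-2g}` for all `g ≥ 1` with `e ≤ 2g < e + z`. -/
def Bad (e z p : ℕ) : Prop :=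
  ∀ g : ℕ, 1 ≤ g → e ≤ 2 * g → 2 * g + 1 ≤ e + z → (p : ℤ) ∣ (_root_.bernoulli (p - 1 - 2 * g)).num

theorem FN_pos (K N : ℕ) : 0 < FN K N := by
  unfold FN; positivity

theorem DJ_pos (K N L : ℕ) : 0 < DJ K N L := by
  unfold DJ
  exact Finset.prod_pos fun _ _ => Nat.lcmUpto_pos _

theorem cc_ne (j : ℕ) : cc j ≠ 0 := by
  unfold cc
  refine mul_ne_zero (pow_ne_zero _ (by norm_num)) ?_
  positivity

theorem abs_cc (j : ℕ) : |cc j| = (j : ℤ) + 1 := by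
  unfold cc
  rw [abs_mul, abs_pow, abs_neg, abs_one, one_pow, one_mul, abs_of_nonneg (by positivity)]

end MP_a3a416_nt.TW
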