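import Pool.Agent.Lib.MP_a3a416_nt.TW.ZDefs

/-!
# TW-ZPole
The pole lemma: a rational function with its only pole at `-1` is not a difference `f(x+1) - f(x)`.
-/

namespace MP_a3a416_nt.TW

open Polynomial

theorem pole_lemma (M : ℕ) (p : ℚ[X]) (f : RatFunc ℚ)
    (h : BBZ.sh f - f = algebraMap ℚ[X] (RatFunc ℚ) p / algebraMap ℚ[X] (RatFunc ℚ) ((X + C 1) ^ M)) :
    (X + C 1) ^ M ∣ p := by
  -- far away point
  obtain ⟨M0, hM⟩ := BBZ.Reg.eventually (-1 : ℚ) f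
  obtain ⟨L, hML⟩ : ∃ L, L = M0 + 1 := ⟨_, rfl⟩
  obtain ⟨hM1, hM2⟩ := hM L (by omega)
  obtain ⟨x0, hx0⟩ : ∃ x0 : ℚ, x0 = -1 - L := ⟨_, rfl⟩
  have hleft : BBZ.Reg x0 (BBZ.sh^[2 * L] f - f) := by
    rw [sub_eq_add_neg]
    refine BBZ.Reg.add (BBZ.Reg.iterate _ ?_) (BBZ.Reg.neg (hx0 ▸ hM2))
    have h1 : x0 + ((2 * L : ℕ) : ℚ) = -1 + L := by
      rw [hx0]; push_cast; ring
    rw [h1]
    exact hM1
  rw [LJ.tel_sh f _ h (2 * L)] at hleft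
  have hterm : ∀ j : ℕ, BBZ.sh^[j] (algebraMap ℚ[X] (RatFunc ℚ) p /
        algebraMap ℚ[X] (RatFunc ℚ) ((X + C 1) ^ M))
      = algebraMap ℚ[X] (RatFunc ℚ) (taylor (j : ℚ) p) /
        (algebraMap ℚ[X] (RatFunc ℚ) (X - C (-1 - (j : ℚ)))) ^ M := by
    intro j
    rw [← RingHom.coe_pow, map_div₀]
    simp only [RingHom.coe_pow, BBZ.sh_iterate]
    congr 1
    rw [← map_pow]
    congr 1
    rw [taylor_pow, map_add, taylor_X, taylor_C]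
    congr 1
    rw [C_sub, C_neg, C_1]
    ring
  have hother : ∀ j : ℕ, j ≠ L → BBZ.Reg x0 (BBZ.sh^[j]
      (algebraMap ℚ[X] (RatFunc ℚ) p / algebraMap ℚ[X] (RatFunc ℚ) ((X + C 1) ^ M))) := by
    intro j hj
    rw [hterm, div_eq_mul_inv, ← map_pow]
    refine BBZ.Reg.mul (BBZ.Reg.poly _ _) (BBZ.Reg.inv ?_)
    rw [eval_pow, eval_sub, eval_X, eval_C, hx0]
    refine pow_ne_zero _ ?_
    have : (-1 - (L : ℚ) - (-1 - (j : ℚ))) = (j : ℚ) - L := by ring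
    rw [this, sub_ne_zero]
    exact_mod_cast hj
  have hmain : BBZ.Reg x0 (BBZ.sh^[L]
      (algebraMap ℚ[X] (RatFunc ℚ) p / algebraMap ℚ[X] (RatFunc ℚ) ((X + C 1) ^ M))) := by
    have h1 : BBZ.sh^[L] (algebraMap ℚ[X] (RatFunc ℚ) p / algebraMap ℚ[X] (RatFunc ℚ) ((X + C 1) ^ M))
        = (∑ j ∈ Finset.range (2 * L), BBZ.sh^[j]
            (algebraMap ℚ[X] (RatFunc ℚ) p / algebraMap ℚ[X] (RatFunc ℚ) ((X + C 1) ^ M)))
          + -(∑ j ∈ (Finset.range (2 * L)).erase L, BBZ.sh^[j]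
            (algebraMap ℚ[X] (RatFunc ℚ) p / algebraMap ℚ[X] (RatFunc ℚ) ((X + C 1) ^ M))) := by
      rw [← Finset.add_sum_erase _ _ (Finset.mem_range.2 (by omega : L < 2 * L))]
      ring
    rw [h1]
    refine BBZ.Reg.add hleft (BBZ.Reg.neg (BBZ.Reg.sum _ _ (fun j hj => ?_)))
    exact hother j (Finset.ne_of_mem_erase hj)
  rw [hterm L, ← hx0] at hmain
  obtain ⟨r, hr⟩ := LJ.pole_dvd hmain
  refine ⟨taylor (-(L : ℚ)) r, ?_⟩
  have h1 := congrArg (taylor (-(L : ℚ))) hr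
  rw [taylor_taylor, taylor_mul, taylor_pow, map_sub, taylor_X, taylor_C] at h1
  have h2 : (-(L : ℚ)) + (L : ℚ) = 0 := by ring
  rw [h2, taylor_zero] at h1
  rw [h1]
  congr 2
  rw [hx0, C_sub, C_neg, C_neg]
  ring

end MP_a3a416_nt.TW
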