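import Pool.Agent.Lib.MP_a3a416_nt.TW.Den
import Pool.Agent.Lib.MP_a3a416_nt.TW.Jets
import Pool.Agent.Lib.MP_a3a416_nt.LJ.Siegel
import Pool.Agent.Lib.MP_a3a416_nt.LI.EPolyW
import Pool.Agent.Lib.MP_a3a416_nt.BB.Auxi

/-!
# TW-Auxi
The auxiliary polynomials (as `LJ/AuxiJ.lean`).
-/

namespace MP_a3a416_nt.TW

open Polynomial MP_a3a416_nt.BB

/-- extension by zero of a function on `ix S K N`. -/
noncomputable def extT (S K N : ℕ) (c : ix S K N → ℤ) : ℕ × ℕ × ℕ → ℤ := by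
  classical
  exact fun x => if h : x ∈ ix S K N then c ⟨x, h⟩ else 0

theorem extT_add (S K N : ℕ) (c c' : ix S K N → ℤ) :
    extT S K N (c + c') = fun x => extT S K N c x + extT S K N c' x := by
  classical
  funext x
  unfold extT
  by_cases h : x ∈ ix S K N
  · simp [h]
  · simp [h]

theorem extT_zero (S K N : ℕ) : extT S K N 0 = fun _ => 0 := by
  classical
  funext x
  unfold extT
  by_cases h : x ∈ ix S K N
  · simp [h]
  · simp [h]

theorem extT_apply (S K N : ℕ) (c : ix S K N → ℤ) (x : ix S K N) : extT S K N c x = c x := by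
  classical
  unfold extT
  simp

theorem regF_add (e S K N : ℕ) (c c' : ℕ × ℕ × ℕ → ℤ) (a i : ℕ) :
    regF e S K N (fun x => c x + c' x) a i = regF e S K N c a i + regF e S K N c' a i := by
  unfold regF
  rw [← Finset.sum_add_distrib]
  apply Finset.sum_congr rfl
  intro m _
  by_cases h : i ≤ e + m + 2
  · rw [if_pos h, if_pos h, if_pos h, PJ_add, map_add, coeff_add, mul_add]
  · rw [if_neg h, if_neg h, if_neg h, add_zero]

theorem regF_zero (e S K N : ℕ) (a i : ℕ) : regF e S K N (fun _ => 0) a i = 0 := by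
  unfold regF
  apply Finset.sum_eq_zero
  intro m _
  by_cases h : i ≤ e + m + 2
  · rw [if_pos h, PJ_zero, map_zero, coeff_zero, mul_zero]
  · rw [if_neg h]

theorem regF_dvd {e S K N : ℕ} (hK : 1 ≤ K) (c : ℕ × ℕ × ℕ → ℤ) {a i : ℕ} (ha : a < N) (hi : 1 ≤ i) :
    (FN K N : ℤ) ∣ (DJ K N (e + S + 1) : ℤ) * regF e S K N c a i := by
  obtain ⟨z, hz, _⟩ := regF_bound (e := e) (S := S) (N := N) (H := ∑ x ∈ ix S K N, (c x).natAbs) hK c (by
    intro x hx
    have h1 : (c x).natAbs ≤ ∑ x ∈ ix S K N, (c x).natAbs :=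
      Finset.single_le_sum (f := fun x => (c x).natAbs) (fun _ _ => Nat.zero_le _) hx
    have h2 : |c x| = ((c x).natAbs : ℤ) := Int.abs_eq_natAbs _
    rw [h2]
    exact_mod_cast h1) ha hi
  exact ⟨z, hz⟩

/-- the counting inequality. -/
theorem card_ineq {e S K N x A P H : ℕ} (hS1 : 1 ≤ S) (h8 : 8 * K ≤ S) (hK : 2 ≤ K)
    (hK1 : e + 2 * S + 1 ≤ K * S) (hN : 1 ≤ N) (hx : 4 * x ≤ S * N) (hA : 1 ≤ A) (hP : 1 ≤ P)
    (hH : (3 * A) ^ (3 * (K - 1)) * P < (H + 1) ^ 2) :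
    (2 * (A * H) + 1) ^ (N * (e + S + 1)) * P ^ (K * N + x) < (H + 1) ^ (S * K * N) := by
  have h1 : 2 * (A * H) + 1 ≤ (3 * A) * (H + 1) := by nlinarith
  obtain ⟨U, hU⟩ : ∃ U, U = S * N := ⟨_, rfl⟩
  have hKN8 : 8 * (K * N) ≤ U := by
    rw [hU, ← mul_assoc]
    exact Nat.mul_le_mul_right _ h8
  have hU16 : 16 ≤ U := by
    have : 1 * 2 ≤ N * K := Nat.mul_le_mul hN hK
    have h2 : K * N = N * K := mul_comm _ _
    omega
  obtain ⟨Q, hQ⟩ : ∃ Q, Q = U / 2 := ⟨_, rfl⟩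
  have hQb : K * N + x ≤ Q := by
    rw [hQ]
    have h2 : 4 * x ≤ U := by rw [hU]; exact hx
    omega
  have hQc : Q ≠ 0 := by omega
  have hq : e + S + 1 ≤ (K - 1) * S := by
    rw [Nat.sub_mul, one_mul]
    omega
  have hQa : N * (e + S + 1) ≤ 3 * (K - 1) * Q := by
    have e1 : N * (e + S + 1) ≤ (K - 1) * U := by
      rw [hU]
      calc N * (e + S + 1) ≤ N * ((K - 1) * S) := Nat.mul_le_mul_left _ hq
        _ = (K - 1) * (S * N) := by ring
    have e2 : U ≤ 3 * Q := by omega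
    calc N * (e + S + 1) ≤ (K - 1) * U := e1
      _ ≤ (K - 1) * (3 * Q) := Nat.mul_le_mul_left _ e2
      _ = 3 * (K - 1) * Q := by ring
  have hA3 : 1 ≤ 3 * A := by omega
  have k1 : (2 * (A * H) + 1) ^ (N * (e + S + 1)) ≤
      (3 * A) ^ (N * (e + S + 1)) * (H + 1) ^ (N * (e + S + 1)) := by
    rw [← Nat.mul_pow]
    exact Nat.pow_le_pow_left h1 _
  have k2 : (3 * A) ^ (N * (e + S + 1)) * P ^ (K * N + x) < (H + 1) ^ U := by
    calc (3 * A) ^ (N * (e + S + 1)) * P ^ (K * N + x) ≤ (3 * A) ^ (3 * (K - 1) * Q) * P ^ Q :=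
          Nat.mul_le_mul (Nat.pow_le_pow_right hA3 hQa) (Nat.pow_le_pow_right hP hQb)
      _ = ((3 * A) ^ (3 * (K - 1)) * P) ^ Q := by
          rw [Nat.mul_pow ((3 * A) ^ (3 * (K - 1))) P Q, ← Nat.pow_mul]
      _ < ((H + 1) ^ 2) ^ Q := Nat.pow_lt_pow_left hH hQc
      _ = (H + 1) ^ (2 * Q) := by rw [← Nat.pow_mul]
      _ ≤ (H + 1) ^ U := Nat.pow_le_pow_right (by omega) (by omega)
  have k3 : N * (e + S + 1) + U ≤ S * K * N := by
    rw [hU]
    calc N * (e + S + 1) + S * N = N * (e + 2 * S + 1) := by ring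
      _ ≤ N * (K * S) := Nat.mul_le_mul_left _ hK1
      _ = S * K * N := by ring
  refine lt_of_lt_of_le ?_ (Nat.pow_le_pow_right (by omega) k3)
  rw [Nat.pow_add (H + 1)]
  calc (2 * (A * H) + 1) ^ (N * (e + S + 1)) * P ^ (K * N + x)
      ≤ ((3 * A) ^ (N * (e + S + 1)) * (H + 1) ^ (N * (e + S + 1))) * P ^ (K * N + x) :=
        Nat.mul_le_mul_right _ k1
    _ = (H + 1) ^ (N * (e + S + 1)) * ((3 * A) ^ (N * (e + S + 1)) * P ^ (K * N + x)) := by ring
    _ < (H + 1) ^ (N * (e + S + 1)) * (H + 1) ^ U :=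
      Nat.mul_lt_mul_of_pos_left k2 (by positivity)

theorem exists_aux {e z S K N T x : ℕ} (hS1 : 1 ≤ S) (h8 : 8 * K ≤ S) (hK : 2 ≤ K)
    (hK1 : e + 2 * S + 1 ≤ K * S) (hz : S + T ≤ z + 1) (hx : 4 * x ≤ S * N) (hN : e + S + T + 10 ≤ N)
    (Ps : Finset ℕ) (hP : ∀ p ∈ Ps, p.Prime ∧ N < p ∧ p ≤ x ∧ Bad e z p)
    (H : ℕ) (hH1 : 1 ≤ H) (hH : (3 * AJ e S K N) ^ (3 * (K - 1)) * ∏ p ∈ Ps, p < (H + 1) ^ 2) :
    ∃ c : ℕ × ℕ × ℕ → ℤ, (∃ x ∈ ix S K N, c x ≠ 0) ∧ (∀ x ∈ ix S K N, |c x| ≤ (H : ℤ)) ∧ REG e S K N c ∧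
      ∀ p ∈ Ps, ∀ n < N, ∀ k < T, (p : ℤ) ∣ (rJ e S K N c n).coeff k := by
  classical
  have _ := hH1
  have hN1 : 1 ≤ N := by omega
  have hK0 : 1 ≤ K := by omega
  have hfact : ∀ p : Ps, Fact (p : ℕ).Prime := fun p => ⟨(hP p p.2).1⟩
  have hneZ : ∀ p : Ps, NeZero (p : ℕ) := fun p => ⟨(hP p p.2).1.ne_zero⟩
  have hNp : ∀ p : Ps, N < (p : ℕ) := fun p => (hP p p.2).2.1
  have hex : ∀ p : Ps, ∃ E : (ZMod (p : ℕ))[X], E.natDegree < p ∧ E.coeff 0 = 0 ∧
      E.comp (X + 1) - E = (X + 1) ^ ((p : ℕ) - 2) ∧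
      (∀ k, Odd k → k + 4 ≤ (p : ℕ) → E.coeff k = 0) ∧
      (∀ g, 1 ≤ g → 2 * g + 3 ≤ (p : ℕ) → ∀ a : ℤ,
        ((p : ℕ) : ℤ) ∣ (_root_.bernoulli ((p : ℕ) - 1 - 2 * g) - (a : ℚ)).num →
        E.coeff (2 * g) = -(a : ZMod (p : ℕ))) := fun p => by
    have := hfact p
    exact LI.exists_E_w (p : ℕ) (by have := hNp p; omega)
  choose E hE using hex
  let V : Ps → Type := fun p => Fin (K * N + (p : ℕ)) → ZMod (p : ℕ)
  have hVfin : ∀ p : Ps, Finite (V p) := fun p => by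
    have := hneZ p
    infer_instance
  let P2 : ∀ p : Ps, (ix S K N → ℤ) → (ZMod (p : ℕ))[X] := fun p c =>
    ∑ m ∈ Finset.range S, (PJ K N (extT S K N c) m).map (Int.castRingHom (ZMod (p : ℕ))) *
      hasseDeriv (e + m) (E p)
  have hP2add : ∀ p c c', P2 p (c + c') = P2 p c + P2 p c' := by
    intro p c c'
    simp only [P2, extT_add, PJ_add, Polynomial.map_add, add_mul, Finset.sum_add_distrib]
  have hP2zero : ∀ p, P2 p 0 = 0 := by
    intro p
    simp only [P2, extT_zero, PJ_zero, Polynomial.map_zero, zero_mul, Finset.sum_const_zero]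
  let φ : ∀ p : Ps, (ix S K N → ℤ) →+ V p := fun p =>
    { toFun := fun c => fun l => (P2 p c).coeff l
      map_zero' := by
        simp only [hP2zero, coeff_zero]
        rfl
      map_add' := by
        intro c c'
        simp only [hP2add, coeff_add]
        rfl }
  let ψ : (ix S K N → ℤ) →+ (Fin N × Fin (e + S + 1) → ℤ) :=
    { toFun := fun c => fun k =>
        ((DJ K N (e + S + 1) : ℤ) * regF e S K N (extT S K N c) (k.1 : ℕ) ((k.2 : ℕ) + 1)) / (FN K N : ℤ)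
      map_zero' := by
        funext k
        show ((DJ K N (e + S + 1) : ℤ) * regF e S K N (extT S K N 0) (k.1 : ℕ) ((k.2 : ℕ) + 1)) / (FN K N : ℤ) = 0
        rw [extT_zero, regF_zero, mul_zero, Int.zero_ediv]
      map_add' := by
        intro c c'
        funext k
        show ((DJ K N (e + S + 1) : ℤ) * regF e S K N (extT S K N (c + c')) (k.1 : ℕ) ((k.2 : ℕ) + 1)) / (FN K N : ℤ) =
          ((DJ K N (e + S + 1) : ℤ) * regF e S K N (extT S K N c) (k.1 : ℕ) ((k.2 : ℕ) + 1)) / (FN K N : ℤ) +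
          ((DJ K N (e + S + 1) : ℤ) * regF e S K N (extT S K N c') (k.1 : ℕ) ((k.2 : ℕ) + 1)) / (FN K N : ℤ)
        rw [extT_add, regF_add, mul_add]
        exact Int.add_ediv_of_dvd_left (regF_dvd hK0 _ k.1.2 (by omega)) }
  have hcardι : Fintype.card (ix S K N) = S * K * N := by
    rw [Fintype.card_coe]
    unfold ix
    rw [Finset.card_product, Finset.card_product, Finset.card_range, Finset.card_range, Finset.card_range]
    ring
  have hψ : ∀ c : ix S K N → ℤ, (∀ i, |c i| ≤ (H : ℤ)) → ∀ k, |ψ c k| ≤ ((AJ e S K N * H : ℕ) : ℤ) := by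
    intro c hc k
    obtain ⟨z, hz1, hz2⟩ := regF_bound (e := e) (S := S) (N := N) (H := H) hK0 (extT S K N c) (by
      intro x hx
      have := hc ⟨x, hx⟩
      rw [← extT_apply S K N c ⟨x, hx⟩] at this
      exact this) (a := (k.1 : ℕ)) (i := (k.2 : ℕ) + 1) k.1.2 (by omega)
    have h1 : ψ c k = z := by
      show ((DJ K N (e + S + 1) : ℤ) * regF e S K N (extT S K N c) (k.1 : ℕ) ((k.2 : ℕ) + 1)) / (FN K N : ℤ) = z
      rw [hz1]
      exact Int.mul_ediv_cancel_left _ (by have := FN_pos K N; positivity)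
    rw [h1]
    exact hz2
  have hV : ∏ p : Ps, Nat.card (V p) ≤ (∏ p ∈ Ps, p) ^ (K * N + x) := by
    rw [← Finset.prod_pow]
    rw [← Finset.prod_coe_sort Ps (fun p => p ^ (K * N + x))]
    apply Finset.prod_le_prod'
    intro p _
    have := hneZ p
    have h1 : Nat.card (V p) = (p : ℕ) ^ (K * N + (p : ℕ)) := by
      simp only [V]
      rw [Nat.card_fun]
      simp only [Nat.card_eq_fintype_card, ZMod.card, Fintype.card_fin]
    rw [h1]
    exact Nat.pow_le_pow_right (by have := hNp p; omega) (by have := (hP p p.2).2.2.1; omega)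
  have hPpos : 1 ≤ ∏ p ∈ Ps, p := Finset.one_le_prod' (fun p hp => (hP p hp).1.one_le)
  have hApos : 1 ≤ AJ e S K N := by
    unfold AJ
    have := DJ_pos K N (e + S + 1)
    exact Nat.mul_pos this (by positivity)
  have hcard : (2 * (AJ e S K N * H) + 1) ^ Fintype.card (Fin N × Fin (e + S + 1)) * ∏ p : Ps, Nat.card (V p) <
      (H + 1) ^ Fintype.card (ix S K N) := by
    rw [hcardι, Fintype.card_prod, Fintype.card_fin, Fintype.card_fin]
    exact lt_of_le_of_lt (Nat.mul_le_mul_left _ hV) (card_ineq hS1 h8 hK hK1 hN1 hx hApos hPpos hH)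
  obtain ⟨c, hc0, hcH, hc, hψc⟩ := LJ.siegel_mixed (ι := ix S K N) (κ := Fin N × Fin (e + S + 1)) Ps H
    (AJ e S K N * H) V φ ψ hψ hcard
  have hREG : REG e S K N (extT S K N c) := by
    intro a ha i hi1 hi2
    have h1 := congrFun hψc (⟨a, ha⟩, ⟨i - 1, by omega⟩)
    have h2 : ((DJ K N (e + S + 1) : ℤ) * regF e S K N (extT S K N c) a (i - 1 + 1)) / (FN K N : ℤ) = 0 := h1
    have h3 : i - 1 + 1 = i := by omega
    rw [h3] at h2
    have h4 := Int.ediv_mul_cancel (regF_dvd (e := e) (S := S) hK0 (extT S K N c) ha hi1)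
    rw [h2, zero_mul] at h4
    have h5 : (DJ K N (e + S + 1) : ℤ) ≠ 0 := by have := DJ_pos K N (e + S + 1); positivity
    exact (mul_eq_zero.mp h4.symm).resolve_left h5
  refine ⟨extT S K N c, ?_, ?_, hREG, ?_⟩
  · by_contra hcon
    push Not at hcon
    apply hc0
    funext x
    rw [← extT_apply S K N c x]
    exact hcon x x.2
  · intro x hx
    have := hcH ⟨x, hx⟩
    rw [← extT_apply S K N c ⟨x, hx⟩] at this
    exact this
  · intro p hp n hn k hk
    have hφ := hc ⟨p, hp⟩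
    have : Fact p.Prime := ⟨(hP p hp).1⟩
    have hpN : N < p := (hP p hp).2.1
    have hbad : Bad e z p := (hP p hp).2.2.2
    obtain ⟨hE1, hE2, hE3, hE4, hE5⟩ := hE ⟨p, hp⟩
    have hφ2 : ∀ l, l < K * N + p → (P2 ⟨p, hp⟩ c).coeff l = 0 := by
      intro l hl
      exact congrFun hφ ⟨l, hl⟩
    have hKN : 1 ≤ K * N := Nat.one_le_iff_ne_zero.2 (by positivity)
    have hd2 : (P2 ⟨p, hp⟩ c).natDegree < K * N + p := by
      have h7 : (P2 ⟨p, hp⟩ c).natDegree ≤ K * N + p - 1 := by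
        apply natDegree_sum_le_of_forall_le
        intro m hm
        refine natDegree_mul_le.trans ?_
        have h8 := natDegree_PJ_lt hK0 hN1 (extT S K N c) m
        have h9 : ((PJ K N (extT S K N c) m).map (Int.castRingHom (ZMod p))).natDegree ≤
          (PJ K N (extT S K N c) m).natDegree := natDegree_map_le
        have h10 : (hasseDeriv (e + m) (E ⟨p, hp⟩)).natDegree ≤ (E ⟨p, hp⟩).natDegree :=
          (natDegree_hasseDeriv_le _ _).trans (Nat.sub_le _ _)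
        have h11 : (E ⟨p, hp⟩).natDegree < p := hE1
        have h12 : (((PJ K N (extT S K N c) m).map (Int.castRingHom (ZMod p))).natDegree +
          (hasseDeriv (e + m) (E ⟨p, hp⟩)).natDegree) ≤ K * N + p - 1 := by omega
        exact h12
      omega
    have hM : P2 ⟨p, hp⟩ c = 0 := by
      ext l
      rw [coeff_zero]
      rcases Nat.lt_or_ge l (K * N + p) with hl | hl
      · exact hφ2 l hl
      · exact coeff_eq_zero_of_natDegree_lt (lt_of_lt_of_le hd2 hl)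
    have hvan : ∀ l, e ≤ l → l + 2 ≤ e + S + T → (E ⟨p, hp⟩).coeff l = 0 := by
      intro l hl1 hl2
      rcases Nat.even_or_odd l with he | ho
      · obtain ⟨g, hg⟩ := he
        have hg2 : l = 2 * g := by omega
        rcases Nat.eq_zero_or_pos g with hg0 | hg0
        · have hl0 : l = 0 := by omega
          rw [hl0]
          exact hE2
        · have h1 := hE5 g hg0 (by
            have h2 : 2 * g + 3 ≤ p := by omega
            exact h2) 0 (by
            rw [Int.cast_zero, sub_zero]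
            exact hbad g hg0 (by omega) (by omega))
          rw [hg2, h1]
          simp
      · exact hE4 l ho (by
          have h2 : l + 4 ≤ p := by omega
          exact h2)
    exact jets_modp p e S K N T (extT S K N c) hS1 hpN (by omega) (E ⟨p, hp⟩) hE3 hvan hREG hM hn hk

end MP_a3a416_nt.TW
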