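import Pool.Agent.Lib.MP_a3a416_nt.TW.ZEst

/-!
# TW-ZRed
The zero estimate in the form used by `NotZero`: see the header of ZEst.lean (`zeroEst` PROOF).
-/

namespace MP_a3a416_nt.TW

open Polynomial

private theorem zr_basis {V : Type*} [AddCommGroup V] [Module ℚ V] {n : ℕ} (p : Fin n → V) :
    ∃ (R : ℕ) (a : Fin R → Fin n) (lam : Fin n → Fin R → ℚ), R ≤ n ∧
      LinearIndependent ℚ (p ∘ a) ∧ (∀ m, p m = ∑ i, lam m i • p (a i)) ∧
      ∀ i i', lam (a i) i' = if i = i' then 1 else 0 := by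
  classical
  obtain ⟨κ, a, ha, hspan, hli⟩ := exists_linearIndependent' ℚ p
  have : Finite κ := Finite.of_injective a ha
  have := Fintype.ofFinite κ
  have hli' : LinearIndependent ℚ (p ∘ (a ∘ (Fintype.equivFin κ).symm)) := by
    have := hli.comp _ (Fintype.equivFin κ).symm.injective
    exact this
  have hspan' : ∀ m, ∃ c : Fin (Fintype.card κ) → ℚ,
      ∑ i, c i • p (a ((Fintype.equivFin κ).symm i)) = p m := by
    intro m
    have h1 : p m ∈ Submodule.span ℚ (Set.range (p ∘ a)) := by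
      rw [hspan]
      exact Submodule.subset_span ⟨m, rfl⟩
    obtain ⟨c, hc⟩ := (Submodule.mem_span_range_iff_exists_fun ℚ).1 h1
    refine ⟨fun i => c ((Fintype.equivFin κ).symm i), ?_⟩
    rw [← hc]
    exact Fintype.sum_equiv (Fintype.equivFin κ).symm _ _ fun i => rfl
  choose lam hlam using hspan'
  refine ⟨Fintype.card κ, a ∘ (Fintype.equivFin κ).symm, lam, ?_, hli', fun m => (hlam m).symm, ?_⟩
  · simpa using Fintype.card_le_of_injective a ha
  · intro i i'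
    have h2 : ∑ j, (lam ((a ∘ (Fintype.equivFin κ).symm) i) j - if i = j then 1 else 0) •
        (p ∘ (a ∘ (Fintype.equivFin κ).symm)) j = 0 := by
      simp_rw [sub_smul, Finset.sum_sub_distrib, ite_smul, one_smul, zero_smul]
      rw [Finset.sum_ite_eq Finset.univ i, if_pos (Finset.mem_univ _), sub_eq_zero]
      exact hlam _
    have h3 := Fintype.linearIndependent_iff.1 hli' _ h2 i'
    exact sub_eq_zero.1 h3

/-- the polynomial `G` of a coefficient function. -/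
private noncomputable def zrG (e ms : ℕ) (l : Fin (ms + 1) → ℚ) : ℚ[X] :=
  ∑ m : Fin (ms + 1), C (((cc (e + m) : ℤ) : ℚ) * l m) * X ^ (ms - (m : ℕ))

private theorem zrG_coeff (e ms : ℕ) (l : Fin (ms + 1) → ℚ) (m : Fin (ms + 1)) :
    (zrG e ms l).coeff (ms - (m : ℕ)) = ((cc (e + m) : ℤ) : ℚ) * l m := by
  unfold zrG
  rw [finsetSum_coeff, Finset.sum_eq_single m]
  · rw [coeff_C_mul_X_pow, if_pos rfl]
  · intro m' _ hm'
    rw [coeff_C_mul_X_pow, if_neg]
    intro h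
    apply hm'
    have h1 := m.isLt
    have h2 := m'.isLt
    apply Fin.ext
    omega
  · intro h
    exact absurd (Finset.mem_univ m) h

private theorem zrG_natDegree (e ms : ℕ) (l : Fin (ms + 1) → ℚ) : (zrG e ms l).natDegree ≤ ms := by
  unfold zrG
  refine natDegree_sum_le_of_forall_le _ _ fun m _ => ?_
  exact (natDegree_C_mul_X_pow_le _ _).trans (Nat.sub_le _ _)

private theorem zrG_taylor (e ms : ℕ) (l : Fin (ms + 1) → ℚ) (x : ℚ) :
    taylor x (zrG e ms l) =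
      ∑ m : Fin (ms + 1), C (((cc (e + m) : ℤ) : ℚ) * l m) * (X + C x) ^ (ms - (m : ℕ)) := by
  unfold zrG
  rw [map_sum]
  refine Finset.sum_congr rfl fun m _ => ?_
  rw [taylor_mul, taylor_C, taylor_pow, taylor_X]

private theorem zr_sum {R n : ℕ} (p : Fin n → ℚ[X]) (a : Fin R → Fin n) (lam : Fin n → Fin R → ℚ)
    (hlam : ∀ m, p m = ∑ i, lam m i • p (a i)) (c : Fin n → ℚ) (w : Fin n → ℚ[X]) :
    ∑ d, p (a d) * ∑ m, C (c m * lam m d) * w m = ∑ m, C (c m) * p m * w m := by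
  simp_rw [Finset.mul_sum]
  rw [Finset.sum_comm]
  refine Finset.sum_congr rfl fun m _ => ?_
  conv_rhs => rw [hlam m, Finset.mul_sum, Finset.sum_mul]
  refine Finset.sum_congr rfl fun d _ => ?_
  rw [smul_eq_C_mul, C_mul]
  ring

private theorem zr_sum_range {A : Type*} [AddCommMonoid A] {S ms : ℕ} (hms : ms < S) (f : ℕ → A)
    (h0 : ∀ m, ms < m → m < S → f m = 0) :
    ∑ m ∈ Finset.range S, f m = ∑ m : Fin (ms + 1), f m := by
  rw [Fin.sum_univ_eq_sum_range (fun m => f m) (ms + 1)]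
  symm
  refine Finset.sum_subset (fun m hm => ?_) fun m hm hm' => ?_
  · rw [Finset.mem_range] at hm ⊢
    omega
  · rw [Finset.mem_range] at hm hm'
    exact h0 m (by omega) hm

private theorem zr_hQ {e S ms : ℕ} (hms : ms < S) (P : ℕ → ℚ[X])
    (h0 : ∀ m, ms < m → m < S → P m = 0) (Q x : ℚ[X]) (hx : x ≠ 0)
    (hQ : x ^ (e + S + 1) * Q =
      ∑ m ∈ Finset.range S, C ((cc (e + m) : ℤ) : ℚ) * P m * x ^ (S - 1 - m)) :
    x ^ (e + ms + 2) * Q =
      ∑ m : Fin (ms + 1), C ((cc (e + m) : ℤ) : ℚ) * P m * x ^ (ms - (m : ℕ)) := by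
  rw [zr_sum_range hms (fun m => C ((cc (e + m) : ℤ) : ℚ) * P m * x ^ (S - 1 - m))
    (fun m h1 h2 => by rw [h0 m h1 h2, mul_zero, zero_mul])] at hQ
  refine mul_left_cancel₀ (pow_ne_zero (S - 1 - ms) hx) ?_
  rw [← mul_assoc, ← pow_add, Finset.mul_sum]
  have e1 : S - 1 - ms + (e + ms + 2) = e + S + 1 := by omega
  rw [e1, hQ]
  refine Finset.sum_congr rfl fun m _ => ?_
  have e2 : S - 1 - (m : ℕ) = (S - 1 - ms) + (ms - (m : ℕ)) := by
    have := m.isLt
    omega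
  rw [e2, pow_add]
  ring

private theorem zr_hh {e ms : ℕ} (l : Fin (ms + 1) → ℚ) (h : ℕ → ℕ → PowerSeries ℚ) (n : ℕ)
    (hh : ∀ m < ms + 1, (PowerSeries.X + PowerSeries.C ((n : ℚ) + 1)) ^ (e + m + 2) *
      (h m (n + 1) - h m n) = PowerSeries.C (((n : ℚ) + 1) * ((cc (e + m) : ℤ) : ℚ))) :
    (PowerSeries.X + PowerSeries.C ((n : ℚ) + 1)) ^ (e + ms + 2) *
      (∑ m : Fin (ms + 1), PowerSeries.C (l m) * h m (n + 1) -
        ∑ m : Fin (ms + 1), PowerSeries.C (l m) * h m n) =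
      ((C ((n : ℚ) + 1) * taylor ((n : ℚ) + 1) (zrG e ms l) : ℚ[X]) : PowerSeries ℚ) := by
  rw [zrG_taylor, Polynomial.coe_mul, Polynomial.coe_C, ← Finset.sum_sub_distrib, Finset.mul_sum]
  have hc : ((∑ m : Fin (ms + 1), C (((cc (e + m) : ℤ) : ℚ) * l m) *
      (X + C ((n : ℚ) + 1)) ^ (ms - (m : ℕ)) : ℚ[X]) : PowerSeries ℚ) =
      ∑ m : Fin (ms + 1), PowerSeries.C (((cc (e + m) : ℤ) : ℚ) * l m) *
        (PowerSeries.X + PowerSeries.C ((n : ℚ) + 1)) ^ (ms - (m : ℕ)) := by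
    rw [← Polynomial.coeToPowerSeries.ringHom_apply, map_sum]
    refine Finset.sum_congr rfl fun m _ => ?_
    rw [Polynomial.coeToPowerSeries.ringHom_apply, Polynomial.coe_mul, Polynomial.coe_pow,
      Polynomial.coe_add, Polynomial.coe_X, Polynomial.coe_C, Polynomial.coe_C]
  rw [hc, Finset.mul_sum]
  refine Finset.sum_congr rfl fun m _ => ?_
  have h1 := hh m m.isLt
  have e1 : e + ms + 2 = (ms - (m : ℕ)) + (e + m + 2) := by
    have := m.isLt
    omega
  rw [← mul_sub, e1, pow_add]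
  calc (PowerSeries.X + PowerSeries.C ((n : ℚ) + 1)) ^ (ms - (m : ℕ)) *
        (PowerSeries.X + PowerSeries.C ((n : ℚ) + 1)) ^ (e + m + 2) *
        (PowerSeries.C (l m) * (h m (n + 1) - h m n))
      = (PowerSeries.X + PowerSeries.C ((n : ℚ) + 1)) ^ (ms - (m : ℕ)) * PowerSeries.C (l m) *
        ((PowerSeries.X + PowerSeries.C ((n : ℚ) + 1)) ^ (e + m + 2) *
        (h m (n + 1) - h m n)) := by ring
    _ = _ := by
        rw [h1, map_mul, map_mul]
        ring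

private theorem zr_hz {S ms R : ℕ} (hms : ms < S) (P : ℕ → ℚ[X])
    (h0 : ∀ m, ms < m → m < S → P m = 0) (a : Fin R → Fin (ms + 1))
    (lam : Fin (ms + 1) → Fin R → ℚ)
    (hlam : ∀ m : Fin (ms + 1), P m = ∑ i, lam m i • P (a i)) (h : ℕ → ℕ → PowerSeries ℚ) (n : ℕ) :
    ∑ d, ((taylor (n : ℚ) (P (a d)) : ℚ[X]) : PowerSeries ℚ) *
      (∑ m : Fin (ms + 1), PowerSeries.C (lam m d) * h m n) =
      ∑ m ∈ Finset.range S, ((taylor (n : ℚ) (P m) : ℚ[X]) : PowerSeries ℚ) * h m n := by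
  rw [zr_sum_range hms (fun m => ((taylor (n : ℚ) (P m) : ℚ[X]) : PowerSeries ℚ) * h m n)
    (fun m h1 h2 => by rw [h0 m h1 h2, map_zero, Polynomial.coe_zero, zero_mul])]
  simp_rw [Finset.mul_sum]
  rw [Finset.sum_comm]
  refine Finset.sum_congr rfl fun m _ => ?_
  have h1 : ((taylor (n : ℚ) (P m) : ℚ[X]) : PowerSeries ℚ) =
      ∑ d, PowerSeries.C (lam m d) * ((taylor (n : ℚ) (P (a d)) : ℚ[X]) : PowerSeries ℚ) := by
    conv_lhs => rw [hlam m, map_sum, ← Polynomial.coeToPowerSeries.ringHom_apply, map_sum]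
    refine Finset.sum_congr rfl fun d _ => ?_
    rw [smul_eq_C_mul, taylor_mul, taylor_C, Polynomial.coeToPowerSeries.ringHom_apply,
      Polynomial.coe_mul, Polynomial.coe_C]
  rw [h1, Finset.sum_mul]
  refine Finset.sum_congr rfl fun d _ => ?_
  ring

theorem zeroEst (e S N T D : ℕ) (h : ℕ → ℕ → PowerSeries ℚ)
    (hh : ∀ m < S, ∀ n : ℕ, (PowerSeries.X + PowerSeries.C ((n : ℚ) + 1)) ^ (e + m + 2) * (h m (n + 1) - h m n) =
      PowerSeries.C (((n : ℚ) + 1) * ((cc (e + m) : ℤ) : ℚ)))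
    (P : ℕ → ℚ[X]) (hdeg : ∀ m < S, (P m).natDegree < D) (hne : ∃ m < S, P m ≠ 0) (Q : ℕ → ℚ[X])
    (hQ : ∀ b < N, (X - C (b : ℚ)) ^ (e + S + 1) * Q b =
      ∑ m ∈ Finset.range S, C ((cc (e + m) : ℤ) : ℚ) * P m * (X - C (b : ℚ)) ^ (S - 1 - m))
    (hz : ∀ n < N, (PowerSeries.X : PowerSeries ℚ) ^ T ∣
      ∑ m ∈ Finset.range S, ((taylor (n : ℚ) (P m) : ℚ[X]) : PowerSeries ℚ) * h m n) :
    ∃ R, 1 ≤ R ∧ R ≤ S ∧ (N - R - 1) * (T + e + R + 1) ≤ (R + 2) * (D - 1) := by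
  classical
  -- the largest index
  obtain ⟨ms, hmsS, hPms, h0⟩ : ∃ ms < S, P ms ≠ 0 ∧ ∀ m, ms < m → m < S → P m = 0 := by
    obtain ⟨m₁, hm₁, hP₁⟩ := hne
    have hsp : (fun m => m < S ∧ P m ≠ 0) (Nat.findGreatest (fun m => m < S ∧ P m ≠ 0) S) :=
      Nat.findGreatest_spec (P := fun m => m < S ∧ P m ≠ 0) hm₁.le ⟨hm₁, hP₁⟩
    refine ⟨_, hsp.1, hsp.2, fun m h1 h2 => ?_⟩
    have h3 := Nat.findGreatest_is_greatest (P := fun m => m < S ∧ P m ≠ 0) h1 h2.le
    by_contra h4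
    exact h3 ⟨h2, h4⟩
  obtain ⟨R, a, lam, hRn, hli, hlam, hdelta⟩ := zr_basis (fun m : Fin (ms + 1) => P m)
  have hcc : ∀ j : ℕ, ((cc j : ℤ) : ℚ) ≠ 0 := fun j => by exact_mod_cast cc_ne j
  have hlast : ∃ i, lam (Fin.last ms) i ≠ 0 := by
    by_contra hcon
    push Not at hcon
    apply hPms
    have h1 := hlam (Fin.last ms)
    simp only [Fin.val_last] at h1
    rw [h1]
    refine Finset.sum_eq_zero fun i _ => ?_
    rw [hcon i, zero_smul]
  have hR : 1 ≤ R := by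
    obtain ⟨i, _⟩ := hlast
    have := i.isLt
    omega
  have key := zeroR (R := R) (N := N) (T := T) (D := D) (e + ms + 2)
    (fun i => P (a i)) (fun i => zrG e ms (fun m => lam m i)) Q
    (fun i n => ∑ m : Fin (ms + 1), PowerSeries.C (lam m i) * h m n) hR hli
    (fun d => hdeg _ (by have := (a d).isLt; omega))
    (fun d hd => by
      have h1 := zrG_coeff e ms (fun m => lam m d) (a d)
      rw [hd, coeff_zero, hdelta d d, if_pos rfl, mul_one] at h1
      exact hcc _ h1.symm)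
    (fun d => by have := zrG_natDegree e ms (fun m => lam m d); omega)
    (by
      obtain ⟨i, hi⟩ := hlast
      refine ⟨i, ?_⟩
      have h1 := zrG_coeff e ms (fun m => lam m i) (Fin.last ms)
      rw [Fin.val_last, Nat.sub_self] at h1
      rw [h1]
      exact mul_ne_zero (hcc _) hi)
    (fun b hb => by
      rw [zr_hQ hmsS P h0 (Q b) _ (X_sub_C_ne_zero _) (hQ b hb)]
      simp_rw [zrG_taylor, C_neg, ← sub_eq_add_neg]
      exact (zr_sum (fun m : Fin (ms + 1) => P m) a lam hlam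
        (fun m => ((cc (e + m) : ℤ) : ℚ)) (fun m => (X - C (b : ℚ)) ^ (ms - (m : ℕ)))).symm)
    (fun d n => zr_hh (fun m => lam m d) h n fun m hm => hh m (by omega) n)
    (fun n hn => by
      rw [zr_hz hmsS P h0 a lam hlam h n]
      exact hz n hn)
  refine ⟨R, hR, by omega, le_trans (Nat.mul_le_mul_left _ ?_) key⟩
  omega

end MP_a3a416_nt.TW
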