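import Pool.Agent.Lib.MP_a3a416_nt.TW.Basis
import Pool.Agent.Lib.MP_a3a416_nt.TW.Series
import Pool.Agent.Lib.MP_a3a416_nt.TW.ZRed

/-!
# TW-NotZero
Not all jets vanish.
PROOF (as LJ/NotSpan.lean, without `v`, `μ`).  Suppose `X^T ∣ rJ n` for all `n < N`.  `h m n = hD (e+m) (vser 1 n)`; `h m (n+1) - h m n = hD (e+m) (jet 1 (n+1))` (`vser_succ_sub`), `hD_jet (e+m)` gives `hh` of `zeroEst`.
`rJ_series`: `rJ n = ∑_m taylor n P_m * hD (e+m) (vser 1 n)` over `ℚ`.  `P m = (PJ K N c m).map (Int.castRingHom ℚ)`, `Q b = (QJ e S K N c b).map ..`, `hQ` from `QJ_mul`.  `zeroEst` with `D = K N`: `1 ≤ R ≤ S` and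
`(N-R-1)(T+e+R+1) ≤ (R+2)(KN-1)`.  But `(R+2) K ≤ T + e + R + 1 - S`: indeed `T+e+R+1 - (R+2)K = (T+e+1-2K) - R(K-1)` decreases in `R` (`K ≥ 1`), at `R = S` it is `T+e+S+1-2K-SK ≥ 3S + e + S + 1 - (e+3S+1) = S`.
So `(N-R-1)(T+e+R+1) ≥ N ((R+2)K + S) - (R+1)(T+e+R+1) ≥ N(R+2)K + N S - (S+1)(T+e+S+1) > (R+2) K N` because `N ≥ 2(T+e+S+1) + 10` and `S ≥ 1`.
-/

namespace MP_a3a416_nt.TW

open Polynomial MP_a3a416_nt.BB

private theorem coeff_hDnz (m : ℕ) (f : PowerSeries ℚ) (k : ℕ) :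
    PowerSeries.coeff k (LJ.hD m f) = ((k + m).choose m : ℚ) * PowerSeries.coeff (k + m) f := by
  unfold LJ.hD
  rw [PowerSeries.coeff_mk]

private theorem hD_subnz (m : ℕ) (f g : PowerSeries ℚ) : LJ.hD m (f - g) = LJ.hD m f - LJ.hD m g := by
  ext k
  rw [map_sub, coeff_hDnz, coeff_hDnz, coeff_hDnz, map_sub, mul_sub]

private theorem numeric_nz {e S K N T R : ℕ} (hK : 1 ≤ K) (hK2 : K * S ≤ e + 3 * S + 1)
    (hT : T = 3 * S + 2 * K) (hN : 2 * (T + e + S + 1) + 10 ≤ N) (hR1 : 1 ≤ R) (hRS : R ≤ S)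
    (h : (N - R - 1) * (T + e + R + 1) ≤ (R + 2) * (K * N - 1)) : False := by
  obtain ⟨s, rfl⟩ : ∃ s, S = R + s := ⟨S - R, by omega⟩
  obtain ⟨M, hM⟩ : ∃ M, N = M + R + 1 := ⟨N - R - 1, by omega⟩
  have e1 : N - R - 1 = M := by omega
  rw [e1] at h
  have hsk : s ≤ K * s := Nat.le_mul_of_pos_left s hK
  have hRK : K * R + 2 * K + (R + s) ≤ T + e + R + 1 := by
    rw [mul_add] at hK2
    omega
  set V := T + e + R + 1 with hV
  have h1 : (R + 2) * (K * N - 1) ≤ (R + 2) * (K * N) := Nat.mul_le_mul_left _ (Nat.sub_le _ _)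
  have h2 : M * V ≤ (K * R + 2 * K) * N := by
    calc M * V ≤ (R + 2) * (K * N - 1) := h
      _ ≤ (R + 2) * (K * N) := h1
      _ = (K * R + 2 * K) * N := by ring
  have h3 : N * (K * R + 2 * K + (R + s)) ≤ N * V := Nat.mul_le_mul_left _ hRK
  have h4 : N * V = M * V + (R + 1) * V := by rw [hM]; ring
  have h5 : N * (R + s) ≤ (R + 1) * V := by
    have h6 : N * (K * R + 2 * K + (R + s)) = (K * R + 2 * K) * N + N * (R + s) := by ring
    omega
  have h7 : (2 * V + 10) * (R + s) ≤ N * (R + s) := Nat.mul_le_mul_right _ (by omega)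
  have h8 : (R + 1) * V ≤ 2 * V * (R + s) := by
    calc (R + 1) * V ≤ (2 * (R + s)) * V := Nat.mul_le_mul_right _ (by omega)
      _ = 2 * V * (R + s) := by ring
  have h9 : (2 * V + 10) * (R + s) = 2 * V * (R + s) + 10 * (R + s) := by ring
  omega

theorem not_zero {e S K N T : ℕ} (hS : 1 ≤ S) (hK : 1 ≤ K) (hK2 : K * S ≤ e + 3 * S + 1) (hT : T = 3 * S + 2 * K)
    (hN : 2 * (T + e + S + 1) + 10 ≤ N) (c : ℕ × ℕ × ℕ → ℤ) (hc : ∃ x ∈ ix S K N, c x ≠ 0)
    (hreg : REG e S K N c) :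
    ∃ n < N, ∃ k < T, (rJ e S K N c n).coeff k ≠ 0 := by
  by_contra hcon
  push Not at hcon
  have hN1 : 1 ≤ N := by omega
  have hinj : Function.Injective (Int.castRingHom ℚ) := Int.cast_injective
  obtain ⟨R, hR1, hRS, hR⟩ := zeroEst e S N T (K * N) (fun m n => LJ.hD (e + m) (vser 1 n))
    (by
      intro m _ n
      show (PowerSeries.X + PowerSeries.C ((n : ℚ) + 1)) ^ (e + m + 2) *
        (LJ.hD (e + m) (vser 1 (n + 1)) - LJ.hD (e + m) (vser 1 n)) = _
      have h1 := vser_succ_sub 1 n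
      rw [Finset.Icc_self, Finset.sum_singleton, one_mul] at h1
      rw [← hD_subnz, h1]
      have h2 := LJ.hD_jet (e + m) (b := n + 1) (by omega)
      unfold cc
      push_cast at h2 ⊢
      exact h2)
    (fun m => (PJ K N c m).map (Int.castRingHom ℚ))
    (fun m _ => lt_of_le_of_lt natDegree_map_le (natDegree_PJ_lt hK hN1 c m))
    (by
      obtain ⟨m, hm, hne⟩ := exists_PJ_ne_zero c hc
      exact ⟨m, hm, (Polynomial.map_ne_zero_iff hinj).2 hne⟩)
    (fun b => (QJ e S K N c (b : ℤ)).map (Int.castRingHom ℚ))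
    (by
      intro b hb
      have h1 := congrArg (Polynomial.map (Int.castRingHom ℚ)) (QJ_mul c hreg hb)
      rw [Polynomial.map_mul, Polynomial.map_pow, Polynomial.map_sub, Polynomial.map_X,
        Polynomial.map_C, Polynomial.map_sum] at h1
      have e1 : (Int.castRingHom ℚ) ((b : ℕ) : ℤ) = (b : ℚ) := by simp
      rw [e1] at h1
      rw [h1]
      refine Finset.sum_congr rfl fun m _ => ?_
      rw [Polynomial.map_mul, Polynomial.map_mul, Polynomial.map_pow, Polynomial.map_sub,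
        Polynomial.map_X, Polynomial.map_C, Polynomial.map_C, e1]
      rfl)
    (by
      intro n hn
      have h1 := rJ_series c hreg hn.le
      show (PowerSeries.X : PowerSeries ℚ) ^ T ∣ ∑ m ∈ Finset.range S,
          ((taylor (n : ℚ) ((PJ K N c m).map (Int.castRingHom ℚ)) : ℚ[X]) : PowerSeries ℚ) *
            LJ.hD (e + m) (vser 1 n)
      rw [← h1, PowerSeries.X_pow_dvd_iff]
      intro k hk
      rw [Polynomial.coeff_coe, coeff_map, hcon n hn k hk, map_zero])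
  exact numeric_nz hK hK2 hT hN hR1 hRS hR

end MP_a3a416_nt.TW
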