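import Pool.Agent.Lib.MP_a3a416_nt.TW.Series
import Pool.Agent.Lib.MP_a3a416_nt.TW.Den
import Pool.Agent.Lib.MP_a3a416_nt.LI.DivDiffZ

/-!
# TW-RrBound
Denominators and size of the integer `DJ * coeff / FN` of `r_n` (as `LJ/RrDen.lean`, `LJ/RrBound.lean`).
-/

namespace MP_a3a416_nt.TW

open Polynomial MP_a3a416_nt.BB MP_a3a416_nt.LJ

theorem FN_dvd_rJ {e S K N L n k : ℕ} (hK : 1 ≤ K) (c : ℕ × ℕ × ℕ → ℤ) (hn : n < N) (hk : k + e + S + 1 ≤ L) :
    (FN K N : ℤ) ∣ (DJ K N L : ℤ) * (rJ e S K N c n).coeff k := by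
  have hNK : N ≤ K * N := Nat.le_mul_of_pos_left _ (by omega)
  refine FN_dvd_of hK _ fun q hq => ?_
  set L' := Nat.log q (K * N) with hL
  have hq1 := hq.one_lt
  have hN4 : N < q ^ (L' + 1) := lt_of_le_of_lt hNK (Nat.lt_pow_succ_log_self hq1 (K * N))
  unfold rJ
  rw [finsetSum_coeff]
  refine Finset.dvd_sum fun a ha => ?_
  rw [Finset.mem_range] at ha
  rw [coeff_C_mul]
  refine Dvd.dvd.mul_left ?_ _
  unfold QJ
  rw [map_sum, finsetSum_coeff]
  refine Finset.dvd_sum fun m hm => ?_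
  rw [Finset.mem_range] at hm
  rw [taylor_mul, taylor_C, coeff_C_mul]
  refine Dvd.dvd.mul_left ?_ _
  have hanti : ∀ l l', 1 ≤ l → l ≤ l' → l' ≤ L' →
      (fun l => K * (N / q ^ l)) l' ≤ (fun l => K * (N / q ^ l)) l := by
    intro l l' _ hl _
    exact Nat.mul_le_mul_left K (Nat.div_le_div_left (Nat.pow_le_pow_right hq.pos hl)
      (pow_pos hq.pos l))
  have hna : ((n : ℕ) : ℤ) ≠ ((a : ℕ) : ℤ) := by
    have : n ≠ a := by omega
    exact_mod_cast this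
  have hLv : ∀ v, (q : ℤ) ^ v ∣ ((n : ℕ) : ℤ) - ((a : ℕ) : ℤ) → v ≤ L' := by
    intro v hv
    have h1 : ((n : ℕ) : ℤ) - ((a : ℕ) : ℤ) = ((n - a : ℕ) : ℤ) := by
      rw [Nat.cast_sub ha.le]
    rw [h1] at hv
    have h2 : q ^ v ∣ n - a := by exact_mod_cast hv
    have h3 : q ^ v ≤ n - a := Nat.le_of_dvd (by omega) h2
    exact Nat.le_log_of_pow_le hq1 (by omega)
  have h5 := LI.dq_adm hq hanti (PJ K N c m) hna hLv (PJ_adm hq hN4 c m n) (PJ_adm hq hN4 c m a)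
    (e + m + 2) k
  refine dvd_trans (pow_dvd_pow _ ?_) h5
  refine Finset.sum_le_sum fun l _ => ?_
  generalize K * (N / q ^ l) = W
  omega

private theorem rrb_vser {n N l : ℕ} (hn : n < N) :
    |PowerSeries.coeff l (vser 1 n)| ≤ (N : ℚ) * 2 ^ l := by
  unfold vser jet
  rw [map_sum]
  have h1 : ∀ b ∈ Finset.Icc 1 (1 * n), |PowerSeries.coeff l (PowerSeries.mk (fun k =>
      (-1 : ℚ) ^ k * ((k : ℚ) + 1) * ((1 : ℕ) : ℚ) ^ k / (b : ℚ) ^ (k + 1)))| ≤ 2 ^ l := by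
    intro b hb
    rw [Finset.mem_Icc] at hb
    rw [PowerSeries.coeff_mk, abs_div, abs_mul, abs_mul, abs_pow, abs_neg, abs_one, one_pow, one_mul,
      Nat.cast_one, one_pow, abs_one, mul_one]
    have h2 : (1 : ℚ) ≤ |(b : ℚ) ^ (l + 1)| := by
      rw [abs_of_nonneg (by positivity)]
      exact one_le_pow₀ (by exact_mod_cast hb.1)
    have h3 : |(l : ℚ) + 1| ≤ 2 ^ l := by
      rw [abs_of_nonneg (by positivity)]
      have : l + 1 ≤ 2 ^ l := Nat.lt_two_pow_self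
      exact_mod_cast this
    rw [div_le_iff₀ (by linarith)]
    nlinarith [h2, h3, abs_nonneg ((l : ℚ) + 1)]
  calc |∑ b ∈ Finset.Icc 1 (1 * n), PowerSeries.coeff l (PowerSeries.mk (fun k =>
      (-1 : ℚ) ^ k * ((k : ℚ) + 1) * ((1 : ℕ) : ℚ) ^ k / (b : ℚ) ^ (k + 1)))|
      ≤ ∑ b ∈ Finset.Icc 1 (1 * n), |PowerSeries.coeff l (PowerSeries.mk (fun k =>
      (-1 : ℚ) ^ k * ((k : ℚ) + 1) * ((1 : ℕ) : ℚ) ^ k / (b : ℚ) ^ (k + 1)))| :=
        Finset.abs_sum_le_sum_abs _ _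
    _ ≤ ∑ _b ∈ Finset.Icc 1 (1 * n), (2 : ℚ) ^ l := Finset.sum_le_sum h1
    _ = (n : ℚ) * 2 ^ l := by
        rw [Finset.sum_const, Nat.card_Icc, nsmul_eq_mul]
        simp
    _ ≤ (N : ℚ) * 2 ^ l := by
        refine mul_le_mul_of_nonneg_right ?_ (by positivity)
        exact_mod_cast hn.le

private theorem rrb_hD {n N m j L : ℕ} (hn : n < N) (hL : j + m ≤ L) :
    |PowerSeries.coeff j (hD m (vser 1 n))| ≤ (N : ℚ) * 4 ^ L := by
  unfold hD
  rw [PowerSeries.coeff_mk, abs_mul]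
  have h1 := rrb_vser (l := j + m) hn
  have h2 : |(((j + m).choose m : ℕ) : ℚ)| ≤ 2 ^ (j + m) := by
    rw [Nat.abs_cast]
    exact_mod_cast Nat.choose_le_two_pow _ _
  calc |(((j + m).choose m : ℕ) : ℚ)| * |PowerSeries.coeff (j + m) (vser 1 n)|
      ≤ 2 ^ (j + m) * ((N : ℚ) * 2 ^ (j + m)) :=
        mul_le_mul h2 h1 (abs_nonneg _) (by positivity)
    _ = (N : ℚ) * 4 ^ (j + m) := by
        have : (4 : ℚ) ^ (j + m) = 2 ^ (j + m) * 2 ^ (j + m) := by
          rw [← mul_pow]; norm_num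
        rw [this]; ring
    _ ≤ (N : ℚ) * 4 ^ L := by
        refine mul_le_mul_of_nonneg_left ?_ (by positivity)
        exact pow_le_pow_right₀ (by norm_num) hL

private theorem rrb_arith {K N : ℕ} {S k F H T B : ℚ} (hk : k ≤ T) (hS : 0 ≤ S) (hF : 0 ≤ F)
    (hH : 0 ≤ H) (hB : 0 ≤ B) : S * k * (F * (K * N * H * 2 ^ N) * (N * B)) ≤
      F * (S * T * (K * (N : ℚ) ^ 2) * 2 ^ N * B * H) := by
  have h1 : 0 ≤ S * (F * (K * N * H * 2 ^ N) * (N * B)) := by positivity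
  have h2 := mul_le_mul_of_nonneg_left hk h1
  nlinarith [h2]

theorem rJ_bound {e S K N T H : ℕ} (hK : 1 ≤ K) (c : ℕ × ℕ × ℕ → ℤ) (hc : ∀ x ∈ ix S K N, |c x| ≤ (H : ℤ))
    (hreg : REG e S K N c) {n k : ℕ} (hn : n < N) (hk : k < T) :
    ∃ z : ℤ, (DJ K N (T + e + S) : ℤ) * (rJ e S K N c n).coeff k = (FN K N : ℤ) * z ∧
      |z| ≤ ((EJ e S K N T * H : ℕ) : ℤ) := by
  obtain ⟨z, hz⟩ := FN_dvd_rJ (e := e) (S := S) (L := T + e + S) (k := k) hK c hn (by omega)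
  refine ⟨z, hz, ?_⟩
  have hser := congrArg (PowerSeries.coeff k) (rJ_series c hreg hn.le)
  rw [Polynomial.coeff_coe, coeff_map, map_sum] at hser
  obtain ⟨B, hB⟩ : ∃ B : ℚ, B = 4 ^ (T + e + S) := ⟨_, rfl⟩
  have hB0 : 0 ≤ B := by rw [hB]; positivity
  obtain ⟨M, hM⟩ : ∃ M : ℚ, M = (FN K N : ℚ) * (K * N * H * 2 ^ N) := ⟨_, rfl⟩
  have hM0 : 0 ≤ M := by
    rw [hM]
    refine mul_nonneg (Nat.cast_nonneg _) ?_
    positivity
  have hterm : ∀ m ∈ Finset.range S, |PowerSeries.coeff k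
      (((taylor (n : ℚ) ((PJ K N c m).map (Int.castRingHom ℚ)) : ℚ[X]) : PowerSeries ℚ) *
        hD (e + m) (vser 1 n))| ≤ ((k + 1 : ℕ) : ℚ) * (M * (N * B)) := by
    intro m hm
    rw [Finset.mem_range] at hm
    rw [PowerSeries.coeff_mul]
    calc |∑ x ∈ Finset.HasAntidiagonal.antidiagonal k,
          PowerSeries.coeff x.1
            ((taylor (n : ℚ) ((PJ K N c m).map (Int.castRingHom ℚ)) : ℚ[X]) : PowerSeries ℚ) *
          PowerSeries.coeff x.2 (hD (e + m) (vser 1 n))|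
        ≤ ∑ x ∈ Finset.HasAntidiagonal.antidiagonal k,
          |PowerSeries.coeff x.1
            ((taylor (n : ℚ) ((PJ K N c m).map (Int.castRingHom ℚ)) : ℚ[X]) : PowerSeries ℚ) *
          PowerSeries.coeff x.2 (hD (e + m) (vser 1 n))| := Finset.abs_sum_le_sum_abs _ _
      _ ≤ ∑ _x ∈ Finset.HasAntidiagonal.antidiagonal k, M * (N * B) := by
          refine Finset.sum_le_sum fun x hx => ?_
          have hx0 := Finset.HasAntidiagonal.mem_antidiagonal.1 hx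
          rw [abs_mul]
          have h1 : |PowerSeries.coeff x.1
            ((taylor (n : ℚ) ((PJ K N c m).map (Int.castRingHom ℚ)) : ℚ[X]) : PowerSeries ℚ)| ≤ M := by
            have h2 : taylor (n : ℚ) ((PJ K N c m).map (Int.castRingHom ℚ)) =
                (taylor (n : ℤ) (PJ K N c m)).map (Int.castRingHom ℚ) := by
              rw [Polynomial.taylor_apply, Polynomial.taylor_apply, Polynomial.map_comp]
              simp
            rw [Polynomial.coeff_coe, h2, coeff_map, hM]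
            have h3 := PJ_size c hc hm hn x.1
            have h4 : ((|(taylor (n : ℤ) (PJ K N c m)).coeff x.1| : ℤ) : ℚ) ≤
                (((FN K N * (K * N * H * 2 ^ N) : ℕ) : ℤ) : ℚ) := by exact_mod_cast h3
            rw [Int.cast_abs] at h4
            refine h4.trans (le_of_eq ?_)
            push_cast
            ring
          have h5 : |PowerSeries.coeff x.2 (hD (e + m) (vser 1 n))| ≤ N * B := by
            rw [hB]
            exact rrb_hD hn (by omega)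
          exact mul_le_mul h1 h5 (abs_nonneg _) hM0
      _ = ((k + 1 : ℕ) : ℚ) * (M * (N * B)) := by
          rw [Finset.sum_const, Finset.Nat.card_antidiagonal, nsmul_eq_mul]
  have hr : |((rJ e S K N c n).coeff k : ℚ)| ≤
      (FN K N : ℚ) * ((S : ℚ) * T * (K * (N : ℚ) ^ 2) * 2 ^ N * B * H) := by
    obtain ⟨Gf, hGf⟩ : ∃ Gf : ℕ → ℚ, ∀ m, Gf m = PowerSeries.coeff k
      (((taylor (n : ℚ) ((PJ K N c m).map (Int.castRingHom ℚ)) : ℚ[X]) : PowerSeries ℚ) *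
        hD (e + m) (vser 1 n)) := ⟨_, fun _ => rfl⟩
    have h1 : ((rJ e S K N c n).coeff k : ℚ) = ∑ m ∈ Finset.range S, Gf m := by
      rw [Finset.sum_congr rfl fun m _ => hGf m]
      exact hser
    have hterm' : ∀ m ∈ Finset.range S, |Gf m| ≤ ((k + 1 : ℕ) : ℚ) * (M * (N * B)) := by
      intro m hm
      rw [hGf]
      exact hterm m hm
    rw [h1]
    calc |∑ m ∈ Finset.range S, Gf m| ≤ ∑ m ∈ Finset.range S, |Gf m| :=
          Finset.abs_sum_le_sum_abs _ _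
      _ ≤ ∑ _m ∈ Finset.range S, ((k + 1 : ℕ) : ℚ) * (M * (N * B)) := Finset.sum_le_sum hterm'
      _ = (S : ℚ) * ((k + 1 : ℕ) : ℚ) * (M * (N * B)) := by
          rw [Finset.sum_const, Finset.card_range, nsmul_eq_mul, mul_assoc]
      _ ≤ _ := by
          rw [hM]
          refine rrb_arith ?_ (Nat.cast_nonneg _) (Nat.cast_nonneg _) (Nat.cast_nonneg _) hB0
          exact_mod_cast hk
  have hF : (0 : ℚ) < (FN K N : ℚ) := by exact_mod_cast FN_pos K N
  have hzq : ((DJ K N (T + e + S) : ℕ) : ℚ) * ((rJ e S K N c n).coeff k : ℚ) = (FN K N : ℚ) * (z : ℚ) := by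
    exact_mod_cast hz
  have h2 : (FN K N : ℚ) * |(z : ℚ)| ≤ (FN K N : ℚ) * (((EJ e S K N T * H : ℕ) : ℤ) : ℚ) := by
    have h3 : (FN K N : ℚ) * |(z : ℚ)| =
        ((DJ K N (T + e + S) : ℕ) : ℚ) * |((rJ e S K N c n).coeff k : ℚ)| := by
      rw [← abs_of_pos hF, ← abs_mul, ← hzq, abs_mul, Nat.abs_cast]
    rw [h3]
    refine (mul_le_mul_of_nonneg_left hr (Nat.cast_nonneg _)).trans (le_of_eq ?_)
    unfold EJ
    rw [hB]
    push_cast
    ring
  have h4 : |(z : ℚ)| ≤ (((EJ e S K N T * H : ℕ) : ℤ) : ℚ) := le_of_mul_le_mul_left h2 hF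
  exact_mod_cast h4

end MP_a3a416_nt.TW
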