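import Pool.Agent.Lib.MP_a3a416_nt.TW.Count

/-!
# TW-GapScale
One dyadic scale of Theorem T (B), section 7 of TW_proof.md.
PROOF.  `C` of `count_T`.  `E ≥ E₀`, `w := ⌊E^(3/4+δ)/2⌋₊ ≥ 1`, `w ≥ E^(3/4+δ)/4`, `w ≤ E` (`δ ≤ 1/20`).  Let `p` be counted, with `E ≤ e < 2E`.  `j := e/w + 1` (natural division): `e < j w ≤ e + w`, so `(j+1) w ≤ e + 2w ≤ e + E^(3/4+δ) ≤ e + e^(3/4+δ)`, `j ≤ 2E/w + 1 ≤ 3E/w`.
`Bad (j w) w p`: for `g ≥ 1`, `jw ≤ 2g`, `2g+1 ≤ jw + w` the number `k = 2g+1` is odd, `e < k ≤ e + e^(3/4+δ)`, `p - k = p - 1 - 2g`.  So the set is contained in the union over `j ∈ Icc 1 (2E/w+1)` of the sets of `count_T` with `e := j w`, `z := w`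
(condition `C w (jw + w) ≤ C E^(3/4+δ)/2 * 4E ≤ 2C E^(7/4+δ) ≤ x`).  `Finset.card_biUnion_le`.  Each set has at most `C (4E)² log(2w)/w³ x/log x` elements (`jw + w ≤ 2E + 2w ≤ 4E`), there are at most `3E/w` of them, total
`≤ 48 C E³ log(2E)/w⁴ x/log x ≤ 48 * 256 C E^(3 - 4(3/4+δ)) log(2E) x/log x`.
-/

namespace MP_a3a416_nt.TW

open Classical in
theorem gap_scale (δ : ℝ) (hδ : 0 < δ) (hδ1 : δ ≤ 1 / 20) : ∃ C : ℝ, 0 < C ∧ ∃ E₀ : ℕ, ∀ E x : ℕ, E₀ ≤ E → 1 ≤ E →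
    C * (E : ℝ) ^ (7 / 4 + δ) ≤ x →
    (((Finset.Icc 1 x).filter (fun p : ℕ => p.Prime ∧ ∃ e : ℕ, E ≤ e ∧ e < 2 * E ∧
      ∀ k : ℕ, Odd k → e < k → (k : ℝ) ≤ e + (e : ℝ) ^ (3 / 4 + δ) →
        (p : ℤ) ∣ (_root_.bernoulli (p - k)).num)).card : ℝ) ≤
      C * ((E : ℝ) ^ (-(4 * δ)) * Real.log (2 * E) * (x / Real.log x)) := by
  obtain ⟨c, hc, hT⟩ := count_T
  refine ⟨12288 * c, by positivity, 16, ?_⟩
  intro E x hE _ hx
  have hE16 : (16:ℝ) ≤ (E:ℝ) := by exact_mod_cast hE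
  have hE0 : (0:ℝ) < (E:ℝ) := by linarith
  have hE1 : (1:ℝ) ≤ (E:ℝ) := by linarith
  obtain ⟨y, hy⟩ : ∃ y : ℝ, y = (E:ℝ) ^ (3 / 4 + δ) := ⟨_, rfl⟩
  have hy0 : 0 < y := by rw [hy]; positivity
  have hy8 : 8 ≤ y := by
    have h1 : (8:ℝ) = (16:ℝ) ^ ((3:ℝ) / 4) := by
      have : (16:ℝ) = 2 ^ (4:ℝ) := by norm_num
      rw [this, ← Real.rpow_mul (by norm_num)]
      norm_num
    rw [h1, hy]
    calc (16:ℝ) ^ ((3:ℝ) / 4) ≤ (E:ℝ) ^ ((3:ℝ) / 4) :=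
          Real.rpow_le_rpow (by norm_num) hE16 (by norm_num)
      _ ≤ (E:ℝ) ^ (3 / 4 + δ) := Real.rpow_le_rpow_of_exponent_le hE1 (by linarith)
  have hyE : y ≤ E := by
    rw [hy]
    calc (E:ℝ) ^ (3 / 4 + δ) ≤ (E:ℝ) ^ (1:ℝ) := Real.rpow_le_rpow_of_exponent_le hE1 (by linarith)
      _ = E := Real.rpow_one _
  obtain ⟨w, hw⟩ : ∃ w : ℕ, w = ⌊y / 2⌋₊ := ⟨_, rfl⟩
  have hw2 : (w:ℝ) ≤ y / 2 := by rw [hw]; exact Nat.floor_le (by positivity)
  have hw4 : y / 4 ≤ (w:ℝ) := by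
    have h1 : y / 2 < (w:ℝ) + 1 := by rw [hw]; exact Nat.lt_floor_add_one _
    linarith
  have hwpos : (0:ℝ) < (w:ℝ) := by linarith
  have hw1 : 1 ≤ w := by exact_mod_cast (Nat.cast_pos (α := ℝ)).1 hwpos
  have hwE : (w:ℝ) ≤ E := by linarith
  have hwE' : w ≤ E := by exact_mod_cast hwE
  have hyE2 : y * E = (E:ℝ) ^ (7 / 4 + δ) := by
    have h1 : (7:ℝ) / 4 + δ = (3 / 4 + δ) + 1 := by ring
    rw [h1, Real.rpow_add hE0, Real.rpow_one, ← hy]
  have hXnn : (0:ℝ) ≤ (x:ℝ) / Real.log x := by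
    rcases Nat.eq_zero_or_pos x with h0 | h0
    · rw [h0]; simp
    · have : (1:ℝ) ≤ (x:ℝ) := by exact_mod_cast h0
      exact div_nonneg (by linarith) (Real.log_nonneg this)
  obtain ⟨J, hJ⟩ : ∃ J : ℕ, J = 2 * E / w + 1 := ⟨_, rfl⟩
  have hJw : J * w ≤ 2 * E + w := by
    rw [hJ, Nat.add_mul, Nat.one_mul]
    have := Nat.div_mul_le_self (2 * E) w
    omega
  -- the covering
  have hsub : (Finset.Icc 1 x).filter (fun p : ℕ => p.Prime ∧ ∃ e : ℕ, E ≤ e ∧ e < 2 * E ∧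
      ∀ k : ℕ, Odd k → e < k → (k : ℝ) ≤ e + (e : ℝ) ^ (3 / 4 + δ) →
        (p : ℤ) ∣ (_root_.bernoulli (p - k)).num) ⊆
      (Finset.Icc 1 J).biUnion (fun j => (Finset.Icc 1 x).filter
        (fun p : ℕ => p.Prime ∧ Bad (j * w) w p)) := by
    intro p hp
    rw [Finset.mem_filter] at hp
    obtain ⟨hpx, hpp, e, he1, he2, hek⟩ := hp
    rw [Finset.mem_biUnion]
    refine ⟨e / w + 1, ?_, ?_⟩
    · rw [Finset.mem_Icc]
      refine ⟨Nat.le_add_left 1 _, ?_⟩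
      rw [hJ]
      have := Nat.div_le_div_right (c := w) he2.le
      omega
    · rw [Finset.mem_filter]
      refine ⟨hpx, hpp, ?_⟩
      have h1 : e < (e / w + 1) * w := by
        have := Nat.lt_div_mul_add (a := e) (b := w) (by omega)
        rw [Nat.add_mul, Nat.one_mul]
        exact this
      have h2 : (e / w + 1) * w ≤ e + w := by
        rw [Nat.add_mul, Nat.one_mul]
        have := Nat.div_mul_le_self e w
        omega
      intro g hg1 hg2 hg3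
      have h3 : p - 1 - 2 * g = p - (2 * g + 1) := by omega
      rw [h3]
      refine hek (2 * g + 1) ⟨g, rfl⟩ (by omega) ?_
      have h4 : 2 * g + 1 ≤ e + 2 * w := by omega
      have h5 : ((2 * g + 1 : ℕ) : ℝ) ≤ (e:ℝ) + 2 * w := by exact_mod_cast h4
      have h6 : y ≤ (e:ℝ) ^ (3 / 4 + δ) := by
        rw [hy]
        exact Real.rpow_le_rpow hE0.le (by exact_mod_cast he1) (by linarith)
      linarith
  -- one class
  have hone : ∀ j ∈ Finset.Icc 1 J, (((Finset.Icc 1 x).filter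
      (fun p : ℕ => p.Prime ∧ Bad (j * w) w p)).card : ℝ) ≤
      c * ((4 * (E:ℝ)) ^ 2 * Real.log (2 * E) / (w:ℝ) ^ 3 * (x / Real.log x)) := by
    intro j hj
    rw [Finset.mem_Icc] at hj
    have h1 : j * w + w ≤ 4 * E := by
      have := Nat.mul_le_mul_right w hj.2
      omega
    have h1' : ((j * w : ℕ) : ℝ) + w ≤ 4 * E := by exact_mod_cast h1
    refine (hT (j * w) w x hw1 ?_).trans ?_
    · calc c * ((w:ℝ) * (((j * w : ℕ) : ℝ) + w)) ≤ c * ((y / 2) * (4 * E)) := by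
            gcongr
        _ = 2 * c * (y * E) := by ring
        _ ≤ 12288 * c * (y * E) := by
            have : 0 ≤ c * (y * E) := by positivity
            nlinarith
        _ ≤ x := by rw [hyE2]; exact hx
    · have h2 : Real.log (2 * w) ≤ Real.log (2 * E) :=
        Real.log_le_log (by positivity) (by linarith)
      have h3 : 0 ≤ Real.log (2 * w) := by
        apply Real.log_nonneg
        have : (1:ℝ) ≤ (w:ℝ) := by exact_mod_cast hw1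
        linarith
      have h4 : (((j * w : ℕ) : ℝ) + w) ^ 2 ≤ (4 * (E:ℝ)) ^ 2 :=
        pow_le_pow_left₀ (by positivity) h1' 2
      have h5 : (((j * w : ℕ) : ℝ) + w) ^ 2 * Real.log (2 * w) ≤
          (4 * (E:ℝ)) ^ 2 * Real.log (2 * E) := mul_le_mul h4 h2 h3 (by positivity)
      refine mul_le_mul_of_nonneg_left ?_ hc.le
      refine mul_le_mul_of_nonneg_right ?_ hXnn
      exact div_le_div_of_nonneg_right h5 (by positivity)
  have hcard := (Finset.card_le_card hsub).trans Finset.card_biUnion_le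
  have hcard' : (((Finset.Icc 1 x).filter (fun p : ℕ => p.Prime ∧ ∃ e : ℕ, E ≤ e ∧ e < 2 * E ∧
      ∀ k : ℕ, Odd k → e < k → (k : ℝ) ≤ e + (e : ℝ) ^ (3 / 4 + δ) →
        (p : ℤ) ∣ (_root_.bernoulli (p - k)).num)).card : ℝ) ≤
      ∑ j ∈ Finset.Icc 1 J, (((Finset.Icc 1 x).filter
        (fun p : ℕ => p.Prime ∧ Bad (j * w) w p)).card : ℝ) := by
    exact_mod_cast hcard
  refine hcard'.trans ((Finset.sum_le_sum hone).trans ?_)
  rw [Finset.sum_const, Nat.card_Icc, nsmul_eq_mul, Nat.add_sub_cancel]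
  have hJ3 : (J:ℝ) ≤ 3 * E / w := by
    rw [le_div_iff₀ hwpos]
    have h1 : (J:ℝ) * w ≤ 2 * E + w := by exact_mod_cast hJw
    linarith
  have hlog : 0 ≤ Real.log (2 * E) := Real.log_nonneg (by linarith)
  have hy4 : y ^ 4 = (E:ℝ) ^ 3 * (E:ℝ) ^ (4 * δ) := by
    rw [hy, ← Real.rpow_natCast ((E:ℝ) ^ (3 / 4 + δ)) 4, ← Real.rpow_mul hE0.le,
      ← Real.rpow_natCast (E:ℝ) 3, ← Real.rpow_add hE0]
    congr 1
    push_cast
    ring
  have hw4' : y ^ 4 / 256 ≤ (w:ℝ) ^ 4 := by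
    have h1 := pow_le_pow_left₀ (by positivity) hw4 4
    calc y ^ 4 / 256 = (y / 4) ^ 4 := by ring
      _ ≤ (w:ℝ) ^ 4 := h1
  have hE4 : (0:ℝ) < (E:ℝ) ^ (4 * δ) := by positivity
  calc (J:ℝ) * (c * ((4 * (E:ℝ)) ^ 2 * Real.log (2 * E) / (w:ℝ) ^ 3 * (x / Real.log x)))
      ≤ (3 * E / w) * (c * ((4 * (E:ℝ)) ^ 2 * Real.log (2 * E) / (w:ℝ) ^ 3 *
          (x / Real.log x))) := by
        refine mul_le_mul_of_nonneg_right hJ3 ?_
        refine mul_nonneg hc.le (mul_nonneg ?_ hXnn)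
        exact div_nonneg (mul_nonneg (by positivity) hlog) (by positivity)
    _ = 48 * c * ((E:ℝ) ^ 3 / (w:ℝ) ^ 4 * Real.log (2 * E) * (x / Real.log x)) := by
        field_simp
        ring
    _ ≤ 48 * c * ((256 * (E:ℝ) ^ (-(4 * δ))) * Real.log (2 * E) * (x / Real.log x)) := by
        have h1 : (E:ℝ) ^ 3 / (w:ℝ) ^ 4 ≤ 256 * (E:ℝ) ^ (-(4 * δ)) := by
          rw [div_le_iff₀ (by positivity), Real.rpow_neg hE0.le]
          have h2 : (E:ℝ) ^ 3 = 256 * ((E:ℝ) ^ (4 * δ))⁻¹ * (y ^ 4 / 256) := by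
            rw [hy4]
            field_simp
          rw [h2]
          exact mul_le_mul_of_nonneg_left hw4' (by positivity)
        refine mul_le_mul_of_nonneg_left ?_ (by positivity)
        refine mul_le_mul_of_nonneg_right ?_ hXnn
        exact mul_le_mul_of_nonneg_right h1 hlog
    _ = 12288 * c * ((E:ℝ) ^ (-(4 * δ)) * Real.log (2 * E) * (x / Real.log x)) := by ring

end MP_a3a416_nt.TW
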