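import Pool.Agent.Lib.MP_a3a416_nt.TW.GapScale

/-!
# TW-Gaps
Theorem T (B), section 7 of TW_proof.md.
PROOF.  W.l.o.g. `δ ≤ 1/20`: with `δ' = min δ (1/20)` the set for `δ` is contained in the set for `δ'` (`e ≥ 1`, `x ≥ 1`: `x^(4/7-δ) ≤ x^(4/7-δ')`, `e^(3/4+δ') ≤ e^(3/4+δ)`).
`gap_scale δ`: `C, E₀`.  The function `i ↦ (2^i)^(-4δ) log(2 * 2^i)` is summable (`log(2^(i+1)) = (i+1) log 2`, `q = 2^(-4δ) < 1`, `summable_pow_mul_geometric_of_norm_lt_one`), so there is `i₀` with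
`C ∑_{i ∈ range n, i ≥ i₀} ≤ ε` for all `n`; also `2^i₀ ≥ max E₀ 2`.  `e₀ := 2^i₀`.  Given `x` large and `p` in the set, with witness `e`: `i := Nat.log 2 e ≥ i₀`, `2^i ≤ e < 2 * 2^i`, so `p` lies in the set of `gap_scale` for `E = 2^i`;
`2^i ≤ e ≤ x^(4/7-δ)`: `C (2^i)^(7/4+δ) ≤ C x^((4/7-δ)(7/4+δ)) ≤ C x^(1-δ) ≤ x` for `x ≥ C^(1/δ)` (`(4/7-δ)(7/4+δ) = 1 + 4δ/7 - 7δ/4 - δ² ≤ 1 - δ`), and `i < x` (`2^i ≤ x`).  Union over `i ∈ Icc i₀ x` (with the sets for `i` violating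
`(2^i) ≤ x^(4/7-δ)` left out), `Finset.card_biUnion_le`.
-/

namespace MP_a3a416_nt.TW

private lemma gp_term (d : ℝ) (i : ℕ) :
    (((2 ^ i : ℕ) : ℝ)) ^ (-(4 * d)) * Real.log (2 * ((2 ^ i : ℕ) : ℝ)) =
      Real.log 2 * ((i : ℝ) ^ 1 * ((2 : ℝ) ^ (-(4 * d))) ^ i + ((2 : ℝ) ^ (-(4 * d))) ^ i) := by
  have h1 : (((2 ^ i : ℕ) : ℝ)) ^ (-(4 * d)) = ((2 : ℝ) ^ (-(4 * d))) ^ i := by
    push_cast
    rw [← Real.rpow_natCast 2 i, ← Real.rpow_mul (by norm_num), mul_comm,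
      Real.rpow_mul (by norm_num), Real.rpow_natCast]
  have h2 : Real.log (2 * ((2 ^ i : ℕ) : ℝ)) = ((i : ℝ) + 1) * Real.log 2 := by
    have : (2 : ℝ) * ((2 ^ i : ℕ) : ℝ) = 2 ^ (i + 1) := by
      push_cast
      ring
    rw [this, Real.log_pow]
    push_cast
    ring
  rw [h1, h2]
  ring

private lemma gp_summable {d : ℝ} (hd : 0 < d) : Summable (fun i : ℕ =>
    (((2 ^ i : ℕ) : ℝ)) ^ (-(4 * d)) * Real.log (2 * ((2 ^ i : ℕ) : ℝ))) := by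
  have hq0 : (0 : ℝ) < (2 : ℝ) ^ (-(4 * d)) := Real.rpow_pos_of_pos (by norm_num) _
  have hq1 : (2 : ℝ) ^ (-(4 * d)) < 1 :=
    Real.rpow_lt_one_of_one_lt_of_neg (by norm_num) (by linarith)
  have hq : ‖(2 : ℝ) ^ (-(4 * d))‖ < 1 := by
    rw [Real.norm_eq_abs, abs_of_pos hq0]
    exact hq1
  have h1 := summable_pow_mul_geometric_of_norm_lt_one (R := ℝ) 1 hq
  have h2 := summable_geometric_of_lt_one hq0.le hq1
  refine ((h1.add h2).mul_left (Real.log 2)).congr fun i => ?_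
  rw [gp_term]

private lemma gp_nonneg (d : ℝ) (i : ℕ) :
    0 ≤ (((2 ^ i : ℕ) : ℝ)) ^ (-(4 * d)) * Real.log (2 * ((2 ^ i : ℕ) : ℝ)) := by
  have h1 : (1 : ℝ) ≤ ((2 ^ i : ℕ) : ℝ) := by
    exact_mod_cast Nat.one_le_two_pow
  exact mul_nonneg (Real.rpow_nonneg (by linarith) _) (Real.log_nonneg (by linarith))

open Classical in
theorem gaps_T (δ : ℝ) (hδ : 0 < δ) (ε : ℝ) (hε : 0 < ε) : ∃ e₀ x₀ : ℕ, ∀ x : ℕ, x₀ ≤ x →
    (((Finset.Icc 1 x).filter (fun p : ℕ => p.Prime ∧ ∃ e : ℕ, e₀ ≤ e ∧ (e : ℝ) ≤ (x : ℝ) ^ (4 / 7 - δ) ∧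
      ∀ k : ℕ, Odd k → e < k → (k : ℝ) ≤ e + (e : ℝ) ^ (3 / 4 + δ) →
        (p : ℤ) ∣ (_root_.bernoulli (p - k)).num)).card : ℝ) ≤ ε * (x / Real.log x) := by
  obtain ⟨d, hd⟩ : ∃ d : ℝ, d = min δ (1 / 20) := ⟨_, rfl⟩
  have hd0 : 0 < d := by rw [hd]; exact lt_min hδ (by norm_num)
  have hd1 : d ≤ 1 / 20 := by rw [hd]; exact min_le_right _ _
  have hdδ : d ≤ δ := by rw [hd]; exact min_le_left _ _
  obtain ⟨C, hC, E₀, hgap⟩ := gap_scale d hd0 hd1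
  obtain ⟨a, ha⟩ : ∃ a : ℕ → ℝ, a = fun i : ℕ =>
    (((2 ^ i : ℕ) : ℝ)) ^ (-(4 * d)) * Real.log (2 * ((2 ^ i : ℕ) : ℝ)) := ⟨_, rfl⟩
  have hsum : Summable a := by rw [ha]; exact gp_summable hd0
  have ha0 : ∀ i, 0 ≤ a i := fun i => by rw [ha]; exact gp_nonneg d i
  have htail := tendsto_sum_nat_add a
  have hev : ∀ᶠ i in Filter.atTop, ∑' k, a (k + i) < ε / C :=
    htail.eventually_lt_const (div_pos hε hC)
  obtain ⟨i₁, hi₁⟩ := Filter.eventually_atTop.1 hev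
  obtain ⟨i₀, hi₀⟩ : ∃ i₀, i₀ = max i₁ (max E₀ 1) := ⟨_, rfl⟩
  have h01 : i₁ ≤ i₀ := by rw [hi₀]; exact le_max_left _ _
  have h0E : E₀ ≤ i₀ := by rw [hi₀]; exact (le_max_left _ _).trans (le_max_right _ _)
  have h0t := hi₁ i₀ h01
  obtain ⟨x₁, hx₁⟩ := exists_nat_ge ((max C 1) ^ (1 / d))
  refine ⟨2 ^ i₀, max x₁ 2, ?_⟩
  intro x hx
  have hx2 : 2 ≤ x := (le_max_right _ _).trans hx
  have hx1' : x₁ ≤ x := (le_max_left _ _).trans hx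
  have hxr : (2 : ℝ) ≤ x := by exact_mod_cast hx2
  have hx1r : (1 : ℝ) ≤ x := by linarith
  have hx0r : (0 : ℝ) < x := by linarith
  have hCx : C ≤ (x : ℝ) ^ d := by
    have h1 : (max C 1) ^ (1 / d) ≤ (x : ℝ) := hx₁.trans (by exact_mod_cast hx1')
    have h2 : ((max C 1) ^ (1 / d)) ^ d ≤ (x : ℝ) ^ d :=
      Real.rpow_le_rpow (by positivity) h1 hd0.le
    rw [← Real.rpow_mul (by positivity), one_div, inv_mul_cancel₀ hd0.ne', Real.rpow_one] at h2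
    exact (le_max_left _ _).trans h2
  have hxlog : 0 ≤ (x : ℝ) / Real.log x := div_nonneg hx0r.le (Real.log_nonneg hx1r)
  -- the sets of the scales
  obtain ⟨B, hB⟩ : ∃ B : ℕ → Finset ℕ, B = fun i => (Finset.Icc 1 x).filter
      (fun p : ℕ => p.Prime ∧ ∃ e : ℕ, 2 ^ i ≤ e ∧ e < 2 * 2 ^ i ∧
      ∀ k : ℕ, Odd k → e < k → (k : ℝ) ≤ e + (e : ℝ) ^ (3 / 4 + d) →
        (p : ℤ) ∣ (_root_.bernoulli (p - k)).num) := ⟨_, rfl⟩
  obtain ⟨I, hI⟩ : ∃ I : Finset ℕ, I = (Finset.Icc i₀ x).filter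
      (fun i => ((2 ^ i : ℕ) : ℝ) ≤ (x : ℝ) ^ (4 / 7 - d)) := ⟨_, rfl⟩
  have hsub : (Finset.Icc 1 x).filter (fun p : ℕ => p.Prime ∧ ∃ e : ℕ, 2 ^ i₀ ≤ e ∧
      (e : ℝ) ≤ (x : ℝ) ^ (4 / 7 - δ) ∧
      ∀ k : ℕ, Odd k → e < k → (k : ℝ) ≤ e + (e : ℝ) ^ (3 / 4 + δ) →
        (p : ℤ) ∣ (_root_.bernoulli (p - k)).num) ⊆ I.biUnion B := by
    intro p hp
    rw [Finset.mem_filter] at hp
    obtain ⟨hpx, hpp, e, he0, hex, hk⟩ := hp
    have he1 : 1 ≤ e := Nat.one_le_two_pow.trans he0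
    have he1r : (1 : ℝ) ≤ e := by exact_mod_cast he1
    have hle : 2 ^ Nat.log 2 e ≤ e := Nat.pow_log_le_self 2 (by omega)
    have hlt : e < 2 ^ (Nat.log 2 e + 1) := Nat.lt_pow_succ_log_self (by norm_num) e
    have hi0 : i₀ ≤ Nat.log 2 e := Nat.le_log_of_pow_le (by norm_num) he0
    have h2e : ((2 ^ Nat.log 2 e : ℕ) : ℝ) ≤ (x : ℝ) ^ (4 / 7 - d) := by
      have h1 : ((2 ^ Nat.log 2 e : ℕ) : ℝ) ≤ (e : ℝ) := by exact_mod_cast hle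
      have h2 : (x : ℝ) ^ (4 / 7 - δ) ≤ (x : ℝ) ^ (4 / 7 - d) :=
        Real.rpow_le_rpow_of_exponent_le hx1r (by linarith)
      exact h1.trans (hex.trans h2)
    have hix : Nat.log 2 e ≤ x := by
      have h1 : (x : ℝ) ^ (4 / 7 - d) ≤ (x : ℝ) ^ (1 : ℝ) :=
        Real.rpow_le_rpow_of_exponent_le hx1r (by linarith)
      rw [Real.rpow_one] at h1
      have h2 : ((2 ^ Nat.log 2 e : ℕ) : ℝ) ≤ (x : ℝ) := h2e.trans h1
      have h3 : 2 ^ Nat.log 2 e ≤ x := by exact_mod_cast h2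
      have h4 : Nat.log 2 e < 2 ^ Nat.log 2 e := Nat.lt_two_pow_self
      omega
    rw [Finset.mem_biUnion]
    refine ⟨Nat.log 2 e, ?_, ?_⟩
    · rw [hI, Finset.mem_filter, Finset.mem_Icc]
      exact ⟨⟨hi0, hix⟩, h2e⟩
    · rw [hB]
      dsimp only
      rw [Finset.mem_filter]
      refine ⟨hpx, hpp, e, hle, ?_, ?_⟩
      · rw [pow_succ] at hlt
        omega
      · intro k hk1 hk2 hk3
        refine hk k hk1 hk2 (hk3.trans ?_)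
        have : (e : ℝ) ^ (3 / 4 + d) ≤ (e : ℝ) ^ (3 / 4 + δ) :=
          Real.rpow_le_rpow_of_exponent_le he1r (by linarith)
        linarith
  have hBcard : ∀ i ∈ I, ((B i).card : ℝ) ≤ C * (a i * (x / Real.log x)) := by
    intro i hi
    rw [hI, Finset.mem_filter, Finset.mem_Icc] at hi
    obtain ⟨⟨hi1, _⟩, hi3⟩ := hi
    have hE : E₀ ≤ 2 ^ i := by
      have h4 : i < 2 ^ i := Nat.lt_two_pow_self
      omega
    have hcond : C * (((2 ^ i : ℕ) : ℝ)) ^ (7 / 4 + d) ≤ x := by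
      have h1 : (((2 ^ i : ℕ) : ℝ)) ^ (7 / 4 + d) ≤ ((x : ℝ) ^ (4 / 7 - d)) ^ (7 / 4 + d) :=
        Real.rpow_le_rpow (by positivity) hi3 (by linarith)
      have h2 : ((x : ℝ) ^ (4 / 7 - d)) ^ (7 / 4 + d) ≤ (x : ℝ) ^ (1 - d) := by
        rw [← Real.rpow_mul hx0r.le]
        refine Real.rpow_le_rpow_of_exponent_le hx1r ?_
        nlinarith
      calc C * (((2 ^ i : ℕ) : ℝ)) ^ (7 / 4 + d) ≤ C * (x : ℝ) ^ (1 - d) :=
            mul_le_mul_of_nonneg_left (h1.trans h2) hC.le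
        _ ≤ (x : ℝ) ^ d * (x : ℝ) ^ (1 - d) :=
            mul_le_mul_of_nonneg_right hCx (Real.rpow_nonneg hx0r.le _)
        _ = x := by
            rw [← Real.rpow_add hx0r]
            norm_num
    have h3 := hgap (2 ^ i) x hE Nat.one_le_two_pow hcond
    rw [hB, ha]
    exact h3
  have hsumI : ∑ i ∈ I, a i ≤ ε / C := by
    have h1 : ∑ i ∈ I, a i ≤ ∑ i ∈ Finset.Icc i₀ (x + i₀), a i := by
      refine Finset.sum_le_sum_of_subset_of_nonneg ?_ fun i _ _ => ha0 i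
      intro i hi
      rw [hI, Finset.mem_filter, Finset.mem_Icc] at hi
      rw [Finset.mem_Icc]
      omega
    have h2 : ∑ i ∈ Finset.Icc i₀ (x + i₀), a i = ∑ k ∈ Finset.range (x + 1), a (k + i₀) := by
      rw [← Finset.Ico_add_one_right_eq_Icc, Finset.sum_Ico_eq_sum_range]
      have : x + i₀ + 1 - i₀ = x + 1 := by omega
      rw [this]
      refine Finset.sum_congr rfl fun k _ => ?_
      rw [Nat.add_comm]
    have h3 : ∑ k ∈ Finset.range (x + 1), a (k + i₀) ≤ ∑' k, a (k + i₀) :=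
      ((summable_nat_add_iff i₀).2 hsum).sum_le_tsum _ fun k _ => ha0 _
    linarith
  calc _ ≤ ((I.biUnion B).card : ℝ) := by exact_mod_cast Finset.card_le_card hsub
    _ ≤ ((∑ i ∈ I, (B i).card : ℕ) : ℝ) := by exact_mod_cast Finset.card_biUnion_le
    _ = ∑ i ∈ I, ((B i).card : ℝ) := by push_cast; rfl
    _ ≤ ∑ i ∈ I, C * (a i * (x / Real.log x)) := Finset.sum_le_sum hBcard
    _ = C * (∑ i ∈ I, a i) * (x / Real.log x) := by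
        rw [← Finset.mul_sum, ← Finset.sum_mul]
        ring
    _ ≤ C * (ε / C) * (x / Real.log x) := by
        apply mul_le_mul_of_nonneg_right _ hxlog
        exact mul_le_mul_of_nonneg_left hsumI hC.le
    _ = ε * (x / Real.log x) := by
        rw [mul_div_cancel₀ ε hC.ne']

end MP_a3a416_nt.TW
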