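import Pool.Agent.Lib.MP_a3a416_nt.TW.Count

/-!
# TW-ManyScale
Many regular indices in every short window, one pair of dyadic scales `E ≤ e < 2E`, `Z ≤ z < 2Z`.
PROOF.  `c` of `count_T`, `a = (2Z)^(1/3)`, `t = E^δ`, `M = (2Z)^(4/3) E^(-1-δ) = a^4 / (E t)`, `m = ⌈M⌉`, `w = ⌊Z / (4m)⌋`.  A prime with fewer than `M` good `k` in `(e, e+z]` has at least
`m` bad windows `(jw, jw+w]`, `1 ≤ j ≤ 4E/w` (`4m - 1` of these windows are in `(e, e+z]`, at most `m - 1` contain a good `k`).  Double counting: the number of such primes is at most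
`(1/m) (4E/w) c (25 E^2 log (2w) / w^3) x/log x`, and `m w^4 ≥ E^3 t^3 / 32^4`.
-/

namespace MP_a3a416_nt.TW

open Classical in
/-- few good indices: many bad aligned windows -/
private lemma ms_bad {e z p m w E : ℕ} (hw : 1 ≤ w) (hm : 1 ≤ m) (hmw : 4 * m * w ≤ z) (heE : e + z ≤ 4 * E)
    (hg : ((Finset.Ioc e (e + z)).filter (fun k : ℕ => Odd k ∧ ¬ (p : ℤ) ∣ (_root_.bernoulli (p - k)).num)).card < m) :
    m ≤ ((Finset.Icc 1 (4 * E / w)).filter (fun j => Bad (j * w) w p)).card := by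
  obtain ⟨G, hG⟩ : ∃ G, G = (Finset.Ioc e (e + z)).filter
    (fun k : ℕ => Odd k ∧ ¬ (p : ℤ) ∣ (_root_.bernoulli (p - k)).num) := ⟨_, rfl⟩
  rw [← hG] at hg
  obtain ⟨R, hR⟩ : ∃ R, R = Finset.range (4 * m - 1) := ⟨_, rfl⟩
  -- the bad ones
  have h1 : (R.filter (fun i => ¬ Bad ((e / w + 1 + i) * w) w p)).card ≤ G.card := by
    have hex : ∀ i ∈ R.filter (fun i => ¬ Bad ((e / w + 1 + i) * w) w p),
        ∃ k ∈ G, (e / w + 1 + i) * w < k ∧ k ≤ (e / w + 1 + i) * w + w := by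
      intro i hi
      rw [Finset.mem_filter, hR, Finset.mem_range] at hi
      obtain ⟨hi1, hi2⟩ := hi
      unfold Bad at hi2
      push Not at hi2
      obtain ⟨g, hg1, hg2, hg3, hg4⟩ := hi2
      have e1 : e < (e / w + 1) * w := by
        have := Nat.lt_div_mul_add (a := e) (b := w) (by omega)
        rw [Nat.add_mul, Nat.one_mul]
        exact this
      have e2 : (e / w + 1) * w ≤ e + w := by
        rw [Nat.add_mul, Nat.one_mul]
        have := Nat.div_mul_le_self e w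
        omega
      have e3 : (e / w + 1 + i) * w = (e / w + 1) * w + i * w := by ring
      have e4 : i * w + 2 * w ≤ 4 * m * w := by
        have : (i + 2) * w ≤ 4 * m * w := Nat.mul_le_mul_right w (by omega)
        calc i * w + 2 * w = (i + 2) * w := by ring
          _ ≤ _ := this
      refine ⟨2 * g + 1, ?_, by omega, by omega⟩
      rw [hG, Finset.mem_filter, Finset.mem_Ioc]
      refine ⟨⟨by omega, by omega⟩, ⟨g, rfl⟩, ?_⟩
      have e5 : p - (2 * g + 1) = p - 1 - 2 * g := by omega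
      rw [e5]
      exact hg4
    choose! f hf1 hf2 using hex
    apply Finset.card_le_card_of_injOn f hf1
    intro i hi i' hi' hii
    have a1 := hf2 i hi
    have a2 := hf2 i' hi'
    have hii' : f i = f i' := hii
    rw [hii'] at a1
    by_contra hne
    rcases Nat.lt_or_gt_of_ne hne with h | h
    · have : (e / w + 1 + i) * w + w ≤ (e / w + 1 + i') * w := by
        calc (e / w + 1 + i) * w + w = (e / w + 1 + i + 1) * w := by ring
          _ ≤ _ := Nat.mul_le_mul_right w (by omega)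
      omega
    · have : (e / w + 1 + i') * w + w ≤ (e / w + 1 + i) * w := by
        calc (e / w + 1 + i') * w + w = (e / w + 1 + i' + 1) * w := by ring
          _ ≤ _ := Nat.mul_le_mul_right w (by omega)
      omega
  have h2 : (R.filter (fun i => Bad ((e / w + 1 + i) * w) w p)).card +
      (R.filter (fun i => ¬ Bad ((e / w + 1 + i) * w) w p)).card = R.card :=
    Finset.card_filter_add_card_filter_not _
  have h3 : R.card = 4 * m - 1 := by rw [hR, Finset.card_range]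
  have h4 : (R.filter (fun i => Bad ((e / w + 1 + i) * w) w p)).card ≤
      ((Finset.Icc 1 (4 * E / w)).filter (fun j => Bad (j * w) w p)).card := by
    apply Finset.card_le_card_of_injOn (fun i => e / w + 1 + i)
    · intro i hi
      have hi' := Finset.mem_filter.1 (Finset.mem_coe.1 hi)
      rw [hR, Finset.mem_range] at hi'
      rw [Finset.mem_coe, Finset.mem_filter, Finset.mem_Icc]
      refine ⟨⟨Nat.le_trans (Nat.le_add_left 1 (e / w)) (Nat.le_add_right _ i), ?_⟩, hi'.2⟩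
      rw [Nat.le_div_iff_mul_le (by omega)]
      change (e / w + 1 + i) * w ≤ 4 * E
      have e2 : (e / w + 1) * w ≤ e + w := by
        rw [Nat.add_mul, Nat.one_mul]
        have := Nat.div_mul_le_self e w
        omega
      have e3 : (e / w + 1 + i) * w = (e / w + 1) * w + i * w := by ring
      have e4 : i * w + 2 * w ≤ 4 * m * w := by
        have : (i + 2) * w ≤ 4 * m * w := Nat.mul_le_mul_right w (by omega)
        calc i * w + 2 * w = (i + 2) * w := by ring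
          _ ≤ _ := this
      omega
    · intro i _ i' _ h
      exact Nat.add_left_cancel (h : e / w + 1 + i = e / w + 1 + i')
  omega

open Classical in
/-- double counting -/
private lemma ms_double {x m w E : ℕ} (S : Finset ℕ) (hS : S ⊆ (Finset.Icc 1 x).filter Nat.Prime)
    (hbad : ∀ p ∈ S, m ≤ ((Finset.Icc 1 (4 * E / w)).filter (fun j => Bad (j * w) w p)).card) :
    m * S.card ≤ ∑ j ∈ Finset.Icc 1 (4 * E / w),
      ((Finset.Icc 1 x).filter (fun p : ℕ => p.Prime ∧ Bad (j * w) w p)).card := by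
  calc m * S.card = ∑ p ∈ S, m := by rw [Finset.sum_const, smul_eq_mul, mul_comm]
    _ ≤ ∑ p ∈ S, ((Finset.Icc 1 (4 * E / w)).filter (fun j => Bad (j * w) w p)).card :=
        Finset.sum_le_sum hbad
    _ = ∑ p ∈ S, ∑ j ∈ Finset.Icc 1 (4 * E / w), if Bad (j * w) w p then 1 else 0 := by
        refine Finset.sum_congr rfl fun p _ => ?_
        rw [Finset.card_filter]
    _ = ∑ j ∈ Finset.Icc 1 (4 * E / w), ∑ p ∈ S, if Bad (j * w) w p then 1 else 0 :=
        Finset.sum_comm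
    _ ≤ _ := by
        refine Finset.sum_le_sum fun j _ => ?_
        rw [← Finset.card_filter]
        apply Finset.card_le_card
        intro p hp
        rw [Finset.mem_filter] at hp
        have h1 := hS hp.1
        rw [Finset.mem_filter] at h1 ⊢
        exact ⟨h1.1, h1.2, hp.2⟩

open Classical in
theorem many_scale (δ : ℝ) (hδ : 0 < δ) : ∃ C : ℝ, 0 < C ∧ ∀ E Z x : ℕ, 512 ≤ E → 1 ≤ Z →
    C * (E : ℝ) ^ (7 / 4 + δ) ≤ x →
    (((Finset.Icc 1 x).filter (fun p : ℕ => p.Prime ∧ ∃ e z : ℕ, E ≤ e ∧ e < 2 * E ∧ Z ≤ z ∧ z < 2 * Z ∧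
      (e : ℝ) ^ (3 / 4 + δ) ≤ z ∧ z ≤ e ∧
      (((Finset.Ioc e (e + z)).filter (fun k : ℕ => Odd k ∧
        ¬ (p : ℤ) ∣ (_root_.bernoulli (p - k)).num)).card : ℝ) <
          (z : ℝ) ^ (4 / 3 : ℝ) * (e : ℝ) ^ (-(1 + δ)))).card : ℝ) ≤
      C * ((E : ℝ) ^ (-(3 * δ)) * Real.log (2 * E) * (x / Real.log x)) := by
  obtain ⟨c, hc, hT⟩ := count_T
  refine ⟨104857600 * c, by positivity, ?_⟩
  intro E Z x hE hZ hx
  have hE512 : (512:ℝ) ≤ (E:ℝ) := by exact_mod_cast hE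
  have hE0 : (0:ℝ) < (E:ℝ) := by linarith
  have hE1 : (1:ℝ) ≤ (E:ℝ) := by linarith
  have hZ1 : (1:ℝ) ≤ (Z:ℝ) := by exact_mod_cast hZ
  have hZ0 : (0:ℝ) < (Z:ℝ) := by linarith
  have hXnn : (0:ℝ) ≤ (x:ℝ) / Real.log x := by
    rcases Nat.eq_zero_or_pos x with h0 | h0
    · rw [h0]; simp
    · have : (1:ℝ) ≤ (x:ℝ) := by exact_mod_cast h0
      exact div_nonneg (by linarith) (Real.log_nonneg this)
  have hlog : 0 ≤ Real.log (2 * E) := Real.log_nonneg (by linarith)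
  obtain ⟨S, hS⟩ : ∃ S : Finset ℕ, S = (Finset.Icc 1 x).filter (fun p : ℕ => p.Prime ∧
      ∃ e z : ℕ, E ≤ e ∧ e < 2 * E ∧ Z ≤ z ∧ z < 2 * Z ∧
      (e : ℝ) ^ (3 / 4 + δ) ≤ z ∧ z ≤ e ∧
      (((Finset.Ioc e (e + z)).filter (fun k : ℕ => Odd k ∧
        ¬ (p : ℤ) ∣ (_root_.bernoulli (p - k)).num)).card : ℝ) <
          (z : ℝ) ^ (4 / 3 : ℝ) * (e : ℝ) ^ (-(1 + δ))) := ⟨_, rfl⟩
  rw [← hS]
  obtain ⟨t, ht⟩ : ∃ t : ℝ, t = (E:ℝ) ^ δ := ⟨_, rfl⟩
  have ht1 : 1 ≤ t := by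
    rw [ht]
    exact Real.one_le_rpow hE1 hδ.le
  have ht0 : 0 < t := by linarith
  have ht3 : (E : ℝ) ^ (-(3 * δ)) = (t ^ 3)⁻¹ := by
    rw [ht, ← Real.rpow_natCast, ← Real.rpow_mul hE0.le, ← Real.rpow_neg hE0.le]
    congr 1
    push_cast
    ring
  have hrhs : 0 ≤ 104857600 * c * ((E : ℝ) ^ (-(3 * δ)) * Real.log (2 * E) * (x / Real.log x)) := by
    positivity
  -- the range of `Z`
  by_cases hrange : (E:ℝ) ^ (3 / 4 + δ) ≤ 2 * Z ∧ Z ≤ 2 * E
  swap
  · have : S = ∅ := by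
      rw [hS, Finset.filter_eq_empty_iff]
      intro p _ hp
      obtain ⟨_, e, z, h1, h2, h3, h4, h5, h6, _⟩ := hp
      apply hrange
      constructor
      · have a1 : (E:ℝ) ^ (3 / 4 + δ) ≤ (e:ℝ) ^ (3 / 4 + δ) :=
          Real.rpow_le_rpow hE0.le (by exact_mod_cast h1) (by linarith)
        have a2 : (z:ℝ) ≤ 2 * Z := by exact_mod_cast h4.le
        linarith
      · omega
    rw [this]
    simpa using hrhs
  obtain ⟨hr1, hr2⟩ := hrange
  have hr2' : (Z:ℝ) ≤ 2 * E := by exact_mod_cast hr2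
  obtain ⟨a, ha⟩ : ∃ a : ℝ, a = (2 * (Z:ℝ)) ^ (1 / 3 : ℝ) := ⟨_, rfl⟩
  have ha0 : 0 < a := by rw [ha]; positivity
  have ha3 : a ^ 3 = 2 * Z := by
    rw [ha, ← Real.rpow_natCast, ← Real.rpow_mul (by positivity)]
    norm_num
  have ha4 : (2 * (Z:ℝ)) ^ (4 / 3 : ℝ) = a ^ 4 := by
    rw [ha, ← Real.rpow_natCast, ← Real.rpow_mul (by positivity)]
    norm_num
  obtain ⟨M, hM⟩ : ∃ M : ℝ, M = a ^ 4 / (E * t) := ⟨_, rfl⟩
  have hEt : (0:ℝ) < E * t := by positivity
  have hM0 : 0 < M := by rw [hM]; positivity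
  have hMe : (2 * (Z:ℝ)) ^ (4 / 3 : ℝ) * (E:ℝ) ^ (-(1 + δ)) = M := by
    rw [hM, ha4, Real.rpow_neg hE0.le, Real.rpow_add hE0, Real.rpow_one, ← ht]
    rfl
  -- `E^(3/4) t ≤ a^3`
  obtain ⟨b, hb⟩ : ∃ b : ℝ, b = (E:ℝ) ^ (1 / 4 : ℝ) := ⟨_, rfl⟩
  have hb0 : 0 < b := by rw [hb]; positivity
  have hb4 : b ^ 4 = E := by
    rw [hb, ← Real.rpow_natCast, ← Real.rpow_mul hE0.le]
    norm_num
  have hb3 : (E:ℝ) ^ (3 / 4 + δ) = b ^ 3 * t := by
    rw [hb, ht, ← Real.rpow_natCast, ← Real.rpow_mul hE0.le, ← Real.rpow_add hE0]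
    congr 1
    norm_num
  have hab : b ^ 3 * t ≤ a ^ 3 := by rw [ha3, ← hb3]; exact hr1
  have hba : b ≤ a := by
    have h1 : b ^ 3 ≤ a ^ 3 := by
      have : b ^ 3 * 1 ≤ b ^ 3 * t := mul_le_mul_of_nonneg_left ht1 (by positivity)
      linarith
    exact le_of_pow_le_pow_left₀ (by norm_num) ha0.le h1
  have hM1 : 1 ≤ M := by
    rw [hM, one_le_div hEt]
    have h1 : (E * t) ^ 3 ≤ (a ^ 4) ^ 3 := by
      calc (E * t) ^ 3 = (b ^ 3) ^ 4 * t ^ 3 * 1 := by rw [← hb4]; ring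
        _ ≤ (b ^ 3) ^ 4 * t ^ 3 * t := mul_le_mul_of_nonneg_left ht1 (by positivity)
        _ = (b ^ 3 * t) ^ 4 := by ring
        _ ≤ (a ^ 3) ^ 4 := pow_le_pow_left₀ (by positivity) hab 4
        _ = (a ^ 4) ^ 3 := by ring
    exact le_of_pow_le_pow_left₀ (by norm_num) (by positivity) h1
  have h32 : 32 * a ≤ E * t := by
    have h1 : 32 * a ≤ E := by
      have h2 : (32 * a) ^ 3 ≤ (E:ℝ) ^ 3 := by
        have h3 : a ^ 3 ≤ 4 * E := by rw [ha3]; linarith
        have h4 : (262144:ℝ) ≤ (E:ℝ) ^ 2 := by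
          calc (262144:ℝ) = 512 ^ 2 := by norm_num
            _ ≤ (E:ℝ) ^ 2 := pow_le_pow_left₀ (by norm_num) hE512 2
        calc (32 * a) ^ 3 = 32768 * a ^ 3 := by ring
          _ ≤ 32768 * (4 * (E:ℝ)) := by linarith
          _ ≤ 262144 * (E:ℝ) := by linarith
          _ ≤ (E:ℝ) ^ 2 * E := mul_le_mul_of_nonneg_right h4 hE0.le
          _ = (E:ℝ) ^ 3 := by ring
      exact le_of_pow_le_pow_left₀ (by norm_num) hE0.le h2
    have h2 : (E:ℝ) * 1 ≤ E * t := mul_le_mul_of_nonneg_left ht1 hE0.le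
    linarith
  obtain ⟨m, hm⟩ : ∃ m : ℕ, m = ⌈M⌉₊ := ⟨_, rfl⟩
  have hmM : M ≤ m := by rw [hm]; exact Nat.le_ceil M
  have hm2 : (m:ℝ) ≤ 2 * M := by
    have : (m:ℝ) < M + 1 := by rw [hm]; exact Nat.ceil_lt_add_one hM0.le
    linarith
  have hm0 : (0:ℝ) < m := by linarith
  have hm1 : 1 ≤ m := by exact_mod_cast (Nat.cast_pos (α := ℝ)).1 hm0
  obtain ⟨w, hw⟩ : ∃ w : ℕ, w = Z / (4 * m) := ⟨_, rfl⟩
  have hmw : 4 * m * w ≤ Z := by rw [hw]; exact Nat.mul_div_le Z (4 * m)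
  have hmw' : 4 * (m:ℝ) * w ≤ Z := by exact_mod_cast hmw
  -- `16 M ≤ Z`
  have h16 : 16 * M ≤ Z := by
    have : (Z:ℝ) = a ^ 3 / 2 := by rw [ha3]; ring
    rw [this, hM, ← mul_div_assoc, div_le_div_iff₀ hEt (by norm_num)]
    have := mul_le_mul_of_nonneg_left h32 (by positivity : 0 ≤ a ^ 3)
    nlinarith
  have hw8 : (Z:ℝ) ≤ 8 * m * w := by
    have h1 : (Z:ℝ) < 4 * m * (w + 1) := by
      have h2 : Z < 4 * m * (w + 1) := by
        rw [hw]
        exact Nat.lt_mul_div_succ Z (by omega)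
      exact_mod_cast h2
    have h3 : 8 * (m:ℝ) ≤ Z := by linarith
    linarith
  have hw0 : (0:ℝ) < w := by
    by_contra hneg
    have : (w:ℝ) = 0 := le_antisymm (not_lt.1 hneg) (Nat.cast_nonneg w)
    rw [this, mul_zero] at hw8
    linarith
  have hw1 : 1 ≤ w := by exact_mod_cast (Nat.cast_pos (α := ℝ)).1 hw0
  have hw1' : (1:ℝ) ≤ w := by exact_mod_cast hw1
  -- `8 a w ≤ E t ≤ 32 a w`
  have hwu : 8 * a * w ≤ E * t := by
    have h1 : 4 * M * w ≤ Z := by
      have : 4 * M * w ≤ 4 * m * w := by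
        apply mul_le_mul_of_nonneg_right _ hw0.le
        linarith
      linarith
    have h2 : (Z:ℝ) = a ^ 3 / 2 := by rw [ha3]; ring
    rw [h2, hM] at h1
    have h3 : 4 * (a ^ 4 / (E * t)) * w = 4 * a ^ 4 * w / (E * t) := by ring
    rw [h3, div_le_iff₀ hEt] at h1
    have h4 : a ^ 3 * (8 * a * w) ≤ a ^ 3 * (E * t) := by nlinarith
    exact le_of_mul_le_mul_left h4 (by positivity)
  have hwl : E * t ≤ 32 * a * w := by
    have h1 : (Z:ℝ) ≤ 16 * M * w := by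
      have : 8 * (m:ℝ) * w ≤ 8 * (2 * M) * w := by
        apply mul_le_mul_of_nonneg_right _ hw0.le
        linarith
      linarith
    have h2 : (Z:ℝ) = a ^ 3 / 2 := by rw [ha3]; ring
    rw [h2, hM] at h1
    have h3 : 16 * (a ^ 4 / (E * t)) * w = 16 * a ^ 4 * w / (E * t) := by ring
    rw [h3, le_div_iff₀ hEt] at h1
    have h4 : a ^ 3 * (E * t) ≤ a ^ 3 * (32 * a * w) := by nlinarith
    exact le_of_mul_le_mul_left h4 (by positivity)
  have hwE : w ≤ E := by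
    have h1 : 4 * w ≤ 4 * m * w := Nat.mul_le_mul_right w (by omega)
    omega
  have hwE' : (w:ℝ) ≤ E := by exact_mod_cast hwE
  -- the double counting
  have hSsub : S ⊆ (Finset.Icc 1 x).filter Nat.Prime := by
    intro p hp
    rw [hS, Finset.mem_filter] at hp
    rw [Finset.mem_filter]
    exact ⟨hp.1, hp.2.1⟩
  have hbad : ∀ p ∈ S, m ≤ ((Finset.Icc 1 (4 * E / w)).filter (fun j => Bad (j * w) w p)).card := by
    intro p hp
    rw [hS, Finset.mem_filter] at hp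
    obtain ⟨_, _, e, z, h1, h2, h3, h4, h5, h6, h7⟩ := hp
    apply ms_bad hw1 hm1 (hmw.trans h3) (by omega) (e := e) (z := z)
    have b1 : (z:ℝ) ^ (4 / 3 : ℝ) ≤ (2 * (Z:ℝ)) ^ (4 / 3 : ℝ) :=
      Real.rpow_le_rpow (Nat.cast_nonneg z) (by exact_mod_cast h4.le) (by norm_num)
    have b2 : (e:ℝ) ^ (-(1 + δ)) ≤ (E:ℝ) ^ (-(1 + δ)) := by
      rw [Real.rpow_neg (Nat.cast_nonneg e), Real.rpow_neg hE0.le]
      apply inv_anti₀ (by positivity)
      exact Real.rpow_le_rpow hE0.le (by exact_mod_cast h1) (by linarith)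
    have b3 : (z:ℝ) ^ (4 / 3 : ℝ) * (e:ℝ) ^ (-(1 + δ)) ≤ M := by
      rw [← hMe]
      exact mul_le_mul b1 b2 (by positivity) (by positivity)
    have b4 := lt_of_lt_of_le h7 (b3.trans hmM)
    exact_mod_cast b4
  have hdc := ms_double S hSsub hbad
  have hone : ∀ j ∈ Finset.Icc 1 (4 * E / w), (((Finset.Icc 1 x).filter
      (fun p : ℕ => p.Prime ∧ Bad (j * w) w p)).card : ℝ) ≤
      c * ((5 * (E:ℝ)) ^ 2 * Real.log (2 * E) / (w:ℝ) ^ 3 * (x / Real.log x)) := by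
    intro j hj
    rw [Finset.mem_Icc] at hj
    have h1 : j * w + w ≤ 5 * E := by
      have h2 := Nat.mul_le_mul_right w hj.2
      have h3 := Nat.div_mul_le_self (4 * E) w
      omega
    have h1' : ((j * w : ℕ) : ℝ) + w ≤ 5 * E := by exact_mod_cast h1
    refine (hT (j * w) w x hw1 ?_).trans ?_
    · have h5 : (w:ℝ) * E ≤ (E : ℝ) ^ (7 / 4 + δ) := by
        have h6 : (E : ℝ) ^ (7 / 4 + δ) = b ^ 3 * t * E := by
          have h7 : (7:ℝ) / 4 + δ = (3 / 4 + δ) + 1 := by ring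
          rw [h7, Real.rpow_add hE0, Real.rpow_one, ← hb3]
        rw [h6]
        apply mul_le_mul_of_nonneg_right _ hE0.le
        have h8 : b * w ≤ b * (b ^ 3 * t) := by
          calc b * w ≤ a * w := mul_le_mul_of_nonneg_right hba hw0.le
            _ ≤ 8 * a * w := by nlinarith [mul_pos ha0 hw0]
            _ ≤ E * t := hwu
            _ = b * (b ^ 3 * t) := by rw [← hb4]; ring
        exact le_of_mul_le_mul_left h8 hb0
      calc c * ((w:ℝ) * (((j * w : ℕ) : ℝ) + w)) ≤ c * ((w:ℝ) * (5 * E)) := by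
            gcongr
        _ = 5 * c * (w * E) := by ring
        _ ≤ 5 * c * (E : ℝ) ^ (7 / 4 + δ) := mul_le_mul_of_nonneg_left h5 (by positivity)
        _ ≤ 104857600 * c * (E : ℝ) ^ (7 / 4 + δ) := by
            apply mul_le_mul_of_nonneg_right _ (by positivity)
            linarith
        _ ≤ x := hx
    · have h2 : Real.log (2 * w) ≤ Real.log (2 * E) :=
        Real.log_le_log (by positivity) (by linarith)
      have h3 : 0 ≤ Real.log (2 * w) := Real.log_nonneg (by linarith)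
      have h4 : (((j * w : ℕ) : ℝ) + w) ^ 2 ≤ (5 * (E:ℝ)) ^ 2 :=
        pow_le_pow_left₀ (by positivity) h1' 2
      have h5 : (((j * w : ℕ) : ℝ) + w) ^ 2 * Real.log (2 * w) ≤
          (5 * (E:ℝ)) ^ 2 * Real.log (2 * E) := mul_le_mul h4 h2 h3 (by positivity)
      refine mul_le_mul_of_nonneg_left ?_ hc.le
      refine mul_le_mul_of_nonneg_right ?_ hXnn
      exact div_le_div_of_nonneg_right h5 (by positivity)
  have hdc' : (m:ℝ) * S.card ≤ ∑ j ∈ Finset.Icc 1 (4 * E / w),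
      (((Finset.Icc 1 x).filter (fun p : ℕ => p.Prime ∧ Bad (j * w) w p)).card : ℝ) := by
    exact_mod_cast hdc
  have hdc2 := hdc'.trans (Finset.sum_le_sum hone)
  rw [Finset.sum_const, Nat.card_Icc, nsmul_eq_mul, Nat.add_sub_cancel] at hdc2
  have hJ : ((4 * E / w : ℕ) : ℝ) ≤ 4 * E / w := by
    rw [le_div_iff₀ hw0]
    exact_mod_cast Nat.div_mul_le_self (4 * E) w
  have hmw4 : E ^ 3 * t ^ 3 ≤ 1048576 * (m * (w:ℝ) ^ 4) := by
    have h1 : (E * t) ^ 4 ≤ (32 * a * w) ^ 4 := pow_le_pow_left₀ hEt.le hwl 4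
    have h2 : a ^ 4 = M * (E * t) := by
      rw [hM, div_mul_cancel₀ _ hEt.ne']
    have h3 : (E * t) * (E ^ 3 * t ^ 3) ≤ (E * t) * (1048576 * (m * (w:ℝ) ^ 4)) := by
      calc (E * t) * (E ^ 3 * t ^ 3) = (E * t) ^ 4 := by ring
        _ ≤ (32 * a * w) ^ 4 := h1
        _ = 1048576 * (a ^ 4 * w ^ 4) := by ring
        _ = (E * t) * (1048576 * (M * (w:ℝ) ^ 4)) := by rw [h2]; ring
        _ ≤ (E * t) * (1048576 * (m * (w:ℝ) ^ 4)) := by
            apply mul_le_mul_of_nonneg_left _ hEt.le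
            apply mul_le_mul_of_nonneg_left _ (by norm_num)
            exact mul_le_mul_of_nonneg_right hmM (by positivity)
    exact le_of_mul_le_mul_left h3 hEt
  have hkey : (m:ℝ) * S.card ≤ m * (104857600 * c * ((E : ℝ) ^ (-(3 * δ)) * Real.log (2 * E) *
      (x / Real.log x))) := by
    calc (m:ℝ) * S.card ≤ ((4 * E / w : ℕ) : ℝ) *
          (c * ((5 * (E:ℝ)) ^ 2 * Real.log (2 * E) / (w:ℝ) ^ 3 * (x / Real.log x))) := hdc2
      _ ≤ (4 * E / w) *
          (c * ((5 * (E:ℝ)) ^ 2 * Real.log (2 * E) / (w:ℝ) ^ 3 * (x / Real.log x))) := by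
          refine mul_le_mul_of_nonneg_right hJ ?_
          refine mul_nonneg hc.le (mul_nonneg ?_ hXnn)
          exact div_nonneg (mul_nonneg (by positivity) hlog) (by positivity)
      _ = 100 * c * (E ^ 3 / (w:ℝ) ^ 4) * (Real.log (2 * E) * (x / Real.log x)) := by
          field_simp
          ring
      _ ≤ 100 * c * (1048576 * m * (t ^ 3)⁻¹) * (Real.log (2 * E) * (x / Real.log x)) := by
          apply mul_le_mul_of_nonneg_right _ (mul_nonneg hlog hXnn)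
          apply mul_le_mul_of_nonneg_left _ (by positivity)
          rw [div_le_iff₀ (by positivity)]
          have h1 : 1048576 * (m:ℝ) * (t ^ 3)⁻¹ * w ^ 4 = (1048576 * (m * (w:ℝ) ^ 4)) * (t ^ 3)⁻¹ := by
            ring
          rw [h1, ← div_eq_mul_inv, le_div_iff₀ (by positivity)]
          exact hmw4
      _ = _ := by rw [ht3]; ring
  exact le_of_mul_le_mul_left hkey hm0

end MP_a3a416_nt.TW
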