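import Pool.Agent.Lib.MP_a3a416_nt.TW.Auxi
import Pool.Agent.Lib.MP_a3a416_nt.TW.RrBound
import Pool.Agent.Lib.MP_a3a416_nt.TW.NotZero

/-!
# TW-ProdBad
The product of the bad primes.
PROOF.  `P = ∏ p`, `P' = (3 AJ)^(3(K-1)) P`.  `H` = the largest integer with `H^2 ≤ P'`, `H ≥ 1` (as in LJ/ProdBad.lean).  `exists_aux` gives `c`.  For `n < N`, `k < T` let `z` be the integer of `rJ_bound`: `DJ * (rJ n).coeff k = FN * z`, `|z| ≤ EJ H`.
For `p ∈ Ps`: `p ∣ (rJ n).coeff k`, `p ∤ FN` (`p > N`), so `p ∣ z`; so `P ∣ z` (`Finset.prod_primes_dvd`-type lemma for distinct primes).  By `not_zero` some `(rJ n).coeff k ≠ 0`, so `z ≠ 0`, `P ≤ |z| ≤ EJ H`.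
`P^2 ≤ EJ^2 H^2 ≤ EJ^2 (3AJ)^(3(K-1)) P`, so `P ≤ EJ^2 (3 AJ)^(3(K-1)) ≤ EJ^(3K-1) ≤ EJ^(3K)`, `3 AJ ≤ EJ` (`DJ` monotone, `e+S+1 ≤ T+e+S`; `3 S (e+S) K N 2^N ≤ S T K N^2 2^N 4^(T+e+S)` as `3 (e+S) ≤ 4^(T+e+S)`).
-/

namespace MP_a3a416_nt.TW

open Polynomial MP_a3a416_nt.BB

private theorem DJ_mono (K N : ℕ) {L L' : ℕ} (h : L ≤ L') : DJ K N L ≤ DJ K N L' := by
  unfold DJ
  refine Finset.prod_le_prod_of_subset_of_one_le' ?_ fun _ _ _ => Nat.lcmUpto_pos _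
  exact Finset.Icc_subset_Icc_right h

private theorem three_AJ_le {e S K N T : ℕ} (hT : 1 ≤ T) : 3 * AJ e S K N ≤ EJ e S K N T := by
  unfold AJ EJ
  have h1 : DJ K N (e + S + 1) ≤ DJ K N (T + e + S) := DJ_mono K N (by omega)
  have h2 : N ≤ N ^ 2 := Nat.le_self_pow (by norm_num) N
  have h3 : 3 * (e + S) ≤ 4 ^ (T + e + S) := by
    have h4 : e + S < 4 ^ (e + S) := Nat.lt_pow_self (by norm_num)
    have h5 : 4 ^ (1 + (e + S)) ≤ 4 ^ (T + e + S) := Nat.pow_le_pow_right (by norm_num) (by omega)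
    have h6 : 4 ^ (1 + (e + S)) = 4 * 4 ^ (e + S) := by rw [pow_add, pow_one]
    omega
  calc 3 * (DJ K N (e + S + 1) * (S * (e + S) * (K * N) * 2 ^ N))
      = DJ K N (e + S + 1) * (S * 1 * (K * N) * 2 ^ N * (3 * (e + S))) := by ring
    _ ≤ DJ K N (T + e + S) * (S * T * (K * N ^ 2) * 2 ^ N * 4 ^ (T + e + S)) := by
        gcongr

theorem prod_bad {e z S K N T x : ℕ} (hS : 1 ≤ S) (h8 : 8 * K ≤ S) (hK1 : e + 2 * S + 1 ≤ K * S)
    (hK2 : K * S ≤ e + 3 * S + 1) (hT : T = 3 * S + 2 * K) (hz : S + T ≤ z + 1) (hx : 4 * x ≤ S * N)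
    (hN : 2 * (T + e + S + 1) + 10 ≤ N) (Ps : Finset ℕ)
    (hP : ∀ p ∈ Ps, p.Prime ∧ N < p ∧ p ≤ x ∧ Bad e z p) :
    ∏ p ∈ Ps, p ≤ (EJ e S K N T) ^ (3 * K) := by
  classical
  have hK3 : 3 ≤ K := by
    by_contra hcon
    have : K * S ≤ 2 * S := Nat.mul_le_mul_right S (by omega)
    omega
  set P := ∏ p ∈ Ps, p with hPdef
  have hPpos : 0 < P := by
    rw [hPdef]
    exact Finset.prod_pos fun p hp => (hP p hp).1.pos
  have hN0 : 0 < N := by omega
  have hT0 : 0 < T := by omega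
  have hAJ : 0 < AJ e S K N := by
    unfold AJ
    have := DJ_pos K N (e + S + 1)
    positivity
  have hEJ : 0 < EJ e S K N T := by
    unfold EJ
    have := DJ_pos K N (T + e + S)
    positivity
  set P' := (3 * AJ e S K N) ^ (3 * (K - 1)) * P with hP'def
  have hP'pos : 0 < P' := by positivity
  -- the integer `H`
  obtain ⟨H, hH1, hHP, hPH⟩ : ∃ H : ℕ, 1 ≤ H ∧ H ^ 2 ≤ P' ∧ P' < (H + 1) ^ 2 := by
    refine ⟨Nat.findGreatest (fun h => h ^ 2 ≤ P') P', ?_, ?_, ?_⟩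
    · exact Nat.le_findGreatest (by omega) (by rw [one_pow]; exact hP'pos)
    · have := @Nat.findGreatest_spec 1 (fun h => h ^ 2 ≤ P') _ P' (by omega)
        (by rw [one_pow]; exact hP'pos)
      exact this
    · by_contra hcon
      rw [not_lt] at hcon
      set h0 := Nat.findGreatest (fun h => h ^ 2 ≤ P') P' with hh0
      have hle : h0 + 1 ≤ P' := (Nat.le_self_pow (by norm_num) _).trans hcon
      have := Nat.findGreatest_is_greatest (P := fun h => h ^ 2 ≤ P') (n := P')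
        (k := h0 + 1) (by rw [← hh0]; omega) hle
      exact this hcon
  obtain ⟨c, hc0, hcb, hreg, hcd⟩ := exists_aux (T := T) hS h8 (by omega) hK1 hz hx (by omega) Ps hP H hH1 hPH
  obtain ⟨n, hn, k, hk, hne⟩ := not_zero (T := T) hS (by omega) hK2 hT hN c hc0 hreg
  obtain ⟨w, hw, hwb⟩ := rJ_bound (T := T) (by omega) c hcb hreg hn hk
  have hDJ : 0 < DJ K N (T + e + S) := DJ_pos _ _ _
  have hw0 : w ≠ 0 := by
    rintro rfl
    rw [mul_zero] at hw
    rcases mul_eq_zero.1 hw with h | h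
    · have : DJ K N (T + e + S) = 0 := by exact_mod_cast h
      omega
    · exact hne h
  have hdvd : ∀ p ∈ Ps, (p : ℤ) ∣ w := by
    intro p hp
    have hpp : Prime (p : ℤ) := Nat.prime_iff_prime_int.1 (hP p hp).1
    have hnd : ¬ (p : ℤ) ∣ (FN K N : ℤ) := by
      intro h
      have h' : p ∣ FN K N := by exact_mod_cast h
      unfold FN at h'
      have h2 := (hP p hp).1.dvd_of_dvd_pow h'
      have h3 := ((hP p hp).1.dvd_factorial).1 h2
      have h4 := (hP p hp).2.1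
      omega
    have h1 : (p : ℤ) ∣ (FN K N : ℤ) * w := by
      rw [← hw]
      exact Dvd.dvd.mul_left (hcd p hp n hn k hk) _
    rcases hpp.dvd_or_dvd h1 with h3 | h3
    · exact absurd h3 hnd
    · exact h3
  have hPw : P ∣ w.natAbs := by
    rw [hPdef]
    refine Finset.prod_primes_dvd _ (fun p hp => (Nat.prime_iff.1 (hP p hp).1)) fun p hp => ?_
    exact Int.natCast_dvd.1 (hdvd p hp)
  have hPle : P ≤ EJ e S K N T * H := by
    have h1 : P ≤ w.natAbs := Nat.le_of_dvd (Int.natAbs_pos.2 hw0) hPw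
    have h2 : ((w.natAbs : ℕ) : ℤ) ≤ ((EJ e S K N T * H : ℕ) : ℤ) := by
      rw [Int.natCast_natAbs]
      exact hwb
    exact h1.trans (by exact_mod_cast h2)
  have h3A : 3 * AJ e S K N ≤ EJ e S K N T := three_AJ_le hT0
  have hfin : P * P ≤ (EJ e S K N T) ^ (3 * K) * P := by
    calc P * P = P ^ 2 := by ring
      _ ≤ (EJ e S K N T * H) ^ 2 := Nat.pow_le_pow_left hPle 2
      _ = (EJ e S K N T) ^ 2 * H ^ 2 := by ring
      _ ≤ (EJ e S K N T) ^ 2 * P' := Nat.mul_le_mul_left _ hHP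
      _ = (EJ e S K N T) ^ 2 * (3 * AJ e S K N) ^ (3 * (K - 1)) * P := by rw [hP'def]; ring
      _ ≤ (EJ e S K N T) ^ 2 * (EJ e S K N T) ^ (3 * (K - 1)) * P := by
          gcongr
      _ = (EJ e S K N T) ^ (2 + 3 * (K - 1)) * P := by rw [pow_add]
      _ ≤ (EJ e S K N T) ^ (3 * K) * P := by
          refine Nat.mul_le_mul_right _ (Nat.pow_le_pow_right hEJ (by omega))
  exact Nat.le_of_mul_le_mul_right hfin hPpos

end MP_a3a416_nt.TW
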