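import Pool.Agent.Lib.MP_a3a416_nt.TW.ProdBad

/-!
# TW-Theta
Logarithmic form of `prod_bad`.
PROOF (as LJ/Theta.lean, simpler: no `r`, `v`, `lam`).  `Ps` = the filtered set, `∑ log p = log ∏ p ≤ 3K log (EJ e S K N T)` by `prod_bad`.
`log EJ = log DJ + log S + log T + log K + 2 log N + N log 2 + (T+e+S) log 4`; `log_DJ_le` with `L = T+e+S`: `log DJ ≤ (log 4 + 4) K N (1 + log (T+e+S))`; all the other terms are `≤ N` or `2N`
(`S, T, K ≤ N`, `log k ≤ k`, `log 4 ≤ 2`, `2 (T+e+S) ≤ N`), and `N ≤ K N (1 + log (T+e+S))`.  So `log EJ ≤ (log 4 + 4 + 8) K N (1 + log (T+e+S))`.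
-/

namespace MP_a3a416_nt.TW

open Polynomial MP_a3a416_nt.BB

private theorem tw_log_le {k N : ℕ} (h : k ≤ N) : Real.log k ≤ N := by
  have h1 : Real.log k ≤ k := by
    rcases Nat.eq_zero_or_pos k with rfl | hk
    · simp
    · have h2 : (0 : ℝ) < k := by exact_mod_cast hk
      have h3 := Real.log_le_sub_one_of_pos h2
      linarith
  have h2 : (k : ℝ) ≤ N := by exact_mod_cast h
  linarith

private theorem tw_EJ {e S K N T : ℕ} (hS : 1 ≤ S) (hK : 1 ≤ K) (hT : 1 ≤ T) (hSN : S ≤ N) (hTN : T ≤ N)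
    (hKN : K ≤ N) (hN : 2 * (T + e + S) ≤ N) :
    Real.log (EJ e S K N T) ≤ (Real.log 4 + 12) * ((K : ℝ) * N * (1 + Real.log ((T : ℝ) + e + S))) := by
  have hS0 : (0 : ℝ) < S := by exact_mod_cast hS
  have hK0 : (0 : ℝ) < K := by exact_mod_cast hK
  have hT0 : (0 : ℝ) < T := by exact_mod_cast hT
  have hN0 : (0 : ℝ) < N := by
    have : 0 < N := by omega
    exact_mod_cast this
  have hD0 : (0 : ℝ) < DJ K N (T + e + S) := by exact_mod_cast DJ_pos K N (T + e + S)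
  have hlogL : 0 ≤ Real.log ((T : ℝ) + e + S) := Real.log_nonneg (by
    have : 1 ≤ T + e + S := by omega
    exact_mod_cast this)
  have hlog4 : 0 ≤ Real.log 4 := Real.log_nonneg (by norm_num)
  have e1 : Real.log (EJ e S K N T) = Real.log (DJ K N (T + e + S)) + (Real.log S + Real.log T +
      (Real.log K + 2 * Real.log N) + N * Real.log 2 + ((T : ℝ) + e + S) * Real.log 4) := by
    unfold EJ
    push_cast
    have hn1 : (S : ℝ) * T ≠ 0 := mul_ne_zero hS0.ne' hT0.ne'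
    have hn2 : ((K : ℝ) * (N : ℝ) ^ 2) ≠ 0 := by positivity
    have hn3 : (2 : ℝ) ^ N ≠ 0 := by positivity
    have hn4 : (4 : ℝ) ^ (T + e + S) ≠ 0 := by positivity
    rw [Real.log_mul hD0.ne' (mul_ne_zero (mul_ne_zero (mul_ne_zero hn1 hn2) hn3) hn4),
      Real.log_mul (mul_ne_zero (mul_ne_zero hn1 hn2) hn3) hn4,
      Real.log_mul (mul_ne_zero hn1 hn2) hn3, Real.log_mul hn1 hn2, Real.log_mul hS0.ne' hT0.ne',
      Real.log_mul hK0.ne' (pow_ne_zero _ hN0.ne'), Real.log_pow, Real.log_pow, Real.log_pow]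
    push_cast
    ring
  have e2 := log_DJ_le K N (T + e + S)
  have f1 : Real.log S ≤ N := tw_log_le hSN
  have f2 : Real.log T ≤ N := tw_log_le hTN
  have f2' : Real.log K ≤ N := tw_log_le hKN
  have f3 : Real.log 4 ≤ 2 := by
    have h1 : Real.log 4 = 2 * Real.log 2 := by
      rw [show (4 : ℝ) = 2 ^ 2 by norm_num, Real.log_pow]
      norm_num
    have h2 := Real.log_two_lt_d9
    rw [h1]
    linarith
  have f4 : Real.log N ≤ N := tw_log_le le_rfl
  have f5 : N * Real.log 2 ≤ N := by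
    have h2 := Real.log_two_lt_d9
    nlinarith
  have f6 : ((T : ℝ) + e + S) * Real.log 4 ≤ N := by
    have h1 : (2 : ℝ) * ((T : ℝ) + e + S) ≤ N := by exact_mod_cast hN
    have h2 : ((T : ℝ) + e + S) * Real.log 4 ≤ ((T : ℝ) + e + S) * 2 :=
      mul_le_mul_of_nonneg_left f3 (by positivity)
    linarith
  have f8 : (N : ℝ) ≤ K * N * (1 + Real.log ((T : ℝ) + e + S)) := by
    have hK1 : (1 : ℝ) ≤ K := by exact_mod_cast hK
    have h1 : (N : ℝ) ≤ K * N := by nlinarith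
    have h2 : (0 : ℝ) ≤ K * N * Real.log ((T : ℝ) + e + S) := by positivity
    nlinarith
  rw [e1]
  push_cast at e2
  obtain ⟨W, hW⟩ : ∃ W : ℝ, W = K * N * (1 + Real.log ((T : ℝ) + e + S)) := ⟨_, rfl⟩
  have e2' : Real.log (DJ K N (T + e + S)) ≤ (Real.log 4 + 4) * W := by
    rw [hW]
    refine e2.trans (le_of_eq ?_)
    ring
  rw [← hW] at f8 ⊢
  have : (Real.log 4 + 12) * W = (Real.log 4 + 4) * W + 8 * W := by ring
  rw [this]
  linarith

private theorem tw_EJ_pos {e S K N T : ℕ} (hS : 0 < S) (hK : 0 < K) (hT : 0 < T) (hN : 0 < N) :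
    0 < EJ e S K N T := by
  unfold EJ
  have := DJ_pos K N (T + e + S)
  positivity

open Classical in
theorem theta_bad : ∃ C : ℝ, 0 < C ∧ ∀ e z S K N T x : ℕ, 1 ≤ S → 8 * K ≤ S → e + 2 * S + 1 ≤ K * S →
    K * S ≤ e + 3 * S + 1 → T = 3 * S + 2 * K → S + T ≤ z + 1 → 4 * x ≤ S * N → 2 * (T + e + S + 1) + 10 ≤ N →
    ∑ p ∈ (Finset.Icc (N + 1) x).filter (fun p : ℕ => p.Prime ∧ Bad e z p), Real.log p ≤
      C * ((K : ℝ) ^ 2 * N * (1 + Real.log ((T : ℝ) + e + S))) := by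
  have hlog4 : 0 ≤ Real.log 4 := Real.log_nonneg (by norm_num)
  refine ⟨3 * (Real.log 4 + 12), by positivity, ?_⟩
  intro e z S K N T x hS h8 hK1 hK2 hT hz hx hN
  obtain ⟨Ps, hPs⟩ : ∃ Ps : Finset ℕ, Ps = (Finset.Icc (N + 1) x).filter
    (fun p : ℕ => p.Prime ∧ Bad e z p) := ⟨_, rfl⟩
  rw [← hPs]
  have hP : ∀ p ∈ Ps, p.Prime ∧ N < p ∧ p ≤ x ∧ Bad e z p := by
    intro p hp
    rw [hPs, Finset.mem_filter, Finset.mem_Icc] at hp
    exact ⟨hp.2.1, by omega, hp.1.2, hp.2.2⟩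
  have hK : 1 ≤ K := by
    rcases Nat.eq_zero_or_pos K with h0 | h0
    · subst h0
      omega
    · exact h0
  have hmain := prod_bad hS h8 hK1 hK2 hT hz hx hN Ps hP
  have hsum : ∑ p ∈ Ps, Real.log p = Real.log ((∏ p ∈ Ps, p : ℕ) : ℝ) := by
    push_cast
    rw [Real.log_prod]
    intro p hp
    have := (hP p hp).1.pos
    positivity
  have hprod0 : (0 : ℝ) < ((∏ p ∈ Ps, p : ℕ) : ℝ) := by
    have : 0 < ∏ p ∈ Ps, p := Finset.prod_pos fun p hp => (hP p hp).1.pos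
    exact_mod_cast this
  have hmainR : (((∏ p ∈ Ps, p : ℕ) : ℝ)) ≤ (EJ e S K N T : ℝ) ^ (3 * K) := by
    exact_mod_cast hmain
  have hlog := Real.log_le_log hprod0 hmainR
  rw [Real.log_pow] at hlog
  have hE := tw_EJ (e := e) (S := S) (K := K) (N := N) (T := T) hS hK (by omega) (by omega) (by omega)
    (by omega) (by omega)
  rw [hsum]
  refine hlog.trans ?_
  have hK0 : (0 : ℝ) ≤ K := Nat.cast_nonneg _
  have h1 : ((3 * K : ℕ) : ℝ) * Real.log (EJ e S K N T) ≤ ((3 * K : ℕ) : ℝ) *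
      ((Real.log 4 + 12) * ((K : ℝ) * N * (1 + Real.log ((T : ℝ) + e + S)))) :=
    mul_le_mul_of_nonneg_left hE (Nat.cast_nonneg _)
  refine h1.trans (le_of_eq ?_)
  push_cast
  ring

end MP_a3a416_nt.TW
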