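import Pool.Agent.Lib.MP_a3a416_nt.LJ.Zero

/-!
# TW-ZDefs
Zero estimate, definitions.  `BBZ.Ix R = Fin 2 ⊕ Fin R`: `inl 0` = column of the function `1` (`B`), `inl 1` = column of the function `n` (`A`), `inr d` = columns `P_d`.
Data: `P_d, G_d ∈ ℚ[X]` (`d : Fin R`), a pole order `M`, polynomials `Q_b` (`b < N`) with `(X-b)^M Q_b = ∑_d P_d(X) G_d(X-b)`, and
power series `h d n` with `(t+n+1)^M (h d (n+1) - h d n) = (n+1) G_d(t+n+1)`.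
-/

namespace MP_a3a416_nt.TW

open Polynomial

/-- `G(x+1)/(x+1)^M` in `ℚ(x)`. -/
noncomputable def aG (M : ℕ) (G : ℚ[X]) : RatFunc ℚ :=
  algebraMap ℚ[X] (RatFunc ℚ) (taylor 1 G) / algebraMap ℚ[X] (RatFunc ℚ) ((X + C 1) ^ M)

/-- the semilinear operator `Φ`. -/
noncomputable def Ph {R : ℕ} (M : ℕ) (G : Fin R → ℚ[X]) (w : BBZ.Ix R → RatFunc ℚ) :
    BBZ.Ix R → RatFunc ℚ :=
  Sum.elim
    (fun i => if i = 0 then
        BBZ.sh (w (Sum.inl 0)) + BBZ.sh (w (Sum.inl 1)) + ∑ d : Fin R, BBZ.sh (w (Sum.inr d)) * aG M (G d)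
      else BBZ.sh (w (Sum.inl 1)) + ∑ d : Fin R, BBZ.sh (w (Sum.inr d)) * aG M (G d))
    (fun d => BBZ.sh (w (Sum.inr d)))

/-- the rows over `ℚ(x)`: `Φ^j (0, 0, P)`. -/
noncomputable def rK {R : ℕ} (M : ℕ) (P G : Fin R → ℚ[X]) (j : ℕ) : BBZ.Ix R → RatFunc ℚ :=
  (Ph M G)^[j] (Sum.elim (fun _ => 0) (fun d => algebraMap ℚ[X] (RatFunc ℚ) (P d)))

/-- relation between the columns, valid for all large rows. -/
def IsRel {R : ℕ} (M : ℕ) (P G : Fin R → ℚ[X]) (l : BBZ.Ix R → RatFunc ℚ) : Prop :=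
  ∃ j₀ : ℕ, ∀ j, j₀ ≤ j → ∑ i, l i * rK M P G j i = 0

/-- the polynomial rows `(B_j, A_j, P_d(x+j))`. -/
noncomputable def rho {R : ℕ} (P : Fin R → ℚ[X]) (Q : ℕ → ℚ[X]) (j : ℕ) : BBZ.Ix R → ℚ[X] :=
  Sum.elim
    (fun i => if i = 0 then ∑ b ∈ Finset.range j, C ((j : ℚ) - b) * taylor (j : ℚ) (Q b)
      else ∑ b ∈ Finset.range j, taylor (j : ℚ) (Q b))
    (fun d => taylor (j : ℚ) (P d))

/-- the row number of an index: a bijection of `BBZ.Ix R` with `{0, …, R+1}`. -/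
def idx {R : ℕ} (i : BBZ.Ix R) : ℕ := (finSumFinEquiv i : Fin (2 + R)).val

/-- the matrix of the rows `0..R+1`. -/
noncomputable def mat {R : ℕ} (P : Fin R → ℚ[X]) (Q : ℕ → ℚ[X]) : Matrix (BBZ.Ix R) (BBZ.Ix R) ℚ[X] :=
  Matrix.of fun i c => rho P Q (idx i) c

theorem idx_lt {R : ℕ} (i : BBZ.Ix R) : idx i < R + 2 := by
  unfold idx
  have := (finSumFinEquiv i : Fin (2 + R)).isLt
  omega

end MP_a3a416_nt.TW
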