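import Pool.Agent.Lib.MP_a3a416_nt.TW.ZInd

/-!
# TW-ZDelta
The determinant `delta = det (mat P Q)` is non-zero, and its degree.
PROOFS.  `rK_eq_rho`: induction on `j`.  `j = 0`: `Sum.elim (fun _ => 0) ..` and empty sums, `taylor 0 = id`.  Step (`j < N`): `Ph` of `algebraMap ∘ rho j`, `BBZ.sh_algebraMap`: `taylor 1 (taylor j q) = taylor (j+1) q`;
by `hQ j`, shifted by `j+1` (`taylor (j+1)` of both sides: `taylor (j+1) (X - C j) = X + C 1`, `taylor (j+1) (taylor (-j) (G d)) = taylor 1 (G d)`): `(X + C 1)^M * taylor (j+1) (Q j) = ∑_d taylor (j+1) (P d) * taylor 1 (G d)`,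
so `∑_d σ(..P_d..) * aG M (G d) = algebraMap (taylor (j+1) (Q j))` (divide by `(X + C 1)^M ≠ 0`).  Then `A_{j+1} = ∑_{b<j+1} taylor (j+1) (Q b)` (`Finset.sum_range_succ`) and
`B_{j+1} = σ B_j + A_{j+1}` because `(j+1-b) = (j-b) + 1` for `b < j` and `= 1` for `b = j`.
`delta_ne_zero`: the rows of `(mat P Q).map (algebraMap ..)` are `rK (idx i)`, `i : BBZ.Ix R`; `idx` is injective with values `< R+2` (`finSumFinEquiv`), so they are independent (`rows_indep`, `LinearIndependent.comp` with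
`i ↦ (⟨idx i, idx_lt i⟩ : Fin (R+2))`), so the determinant over `ℚ(x)` is `≠ 0` (`Matrix.linearIndependent_rows_iff_isUnit`, `Matrix.isUnit_iff_isUnit_det`) and it is `algebraMap (det (mat P Q))` (`RingHom.map_det`).
`rho_natDegree`: sums of `C _ * taylor _ (Q b)`, `natDegree_taylor`.  `delta_natDegree`: Leibniz formula (`Matrix.det_apply`), `natDegree_sum_le_of_forall_le`, product of `R + 2` entries (`Fintype.card (BBZ.Ix R) = R + 2`)
(or a Mathlib / `BBZ.cramer`-internal lemma on the degree of a determinant).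
-/

namespace MP_a3a416_nt.TW

open Polynomial

private theorem zd_Ph {R : ℕ} (M : ℕ) (G : Fin R → ℚ[X]) (w : BBZ.Ix R → ℚ[X]) (q : ℚ[X])
    (hq : (X + C 1) ^ M * q = ∑ d, taylor 1 (w (Sum.inr d)) * taylor 1 (G d)) :
    Ph M G (fun i => algebraMap ℚ[X] (RatFunc ℚ) (w i)) = fun i => algebraMap ℚ[X] (RatFunc ℚ)
      ((Sum.elim (fun i => if i = 0 then taylor 1 (w (Sum.inl 0)) + taylor 1 (w (Sum.inl 1)) + q
        else taylor 1 (w (Sum.inl 1)) + q) (fun d => taylor 1 (w (Sum.inr d))) : BBZ.Ix R → ℚ[X]) i) := by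
  have hX : algebraMap ℚ[X] (RatFunc ℚ) ((X + C 1) ^ M) ≠ 0 := by
    rw [Ne, FaithfulSMul.algebraMap_eq_zero_iff]
    exact pow_ne_zero _ (X_add_C_ne_zero _)
  have hs : ∑ d : Fin R, BBZ.sh (algebraMap ℚ[X] (RatFunc ℚ) (w (Sum.inr d))) * aG M (G d) =
      algebraMap ℚ[X] (RatFunc ℚ) q := by
    unfold aG
    simp only [BBZ.sh_algebraMap, ← mul_div_assoc, ← map_mul]
    rw [← Finset.sum_div, ← map_sum, ← hq, map_mul, mul_div_cancel_left₀ _ hX]
  funext i
  unfold Ph
  rcases i with i | d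
  · simp only [Sum.elim_inl]
    rw [hs]
    split_ifs with hi
    · rw [map_add, map_add, BBZ.sh_algebraMap, BBZ.sh_algebraMap]
    · rw [map_add, BBZ.sh_algebraMap]
  · simp only [Sum.elim_inr]
    rw [BBZ.sh_algebraMap]

private theorem zd_taylor (j : ℕ) (p : ℚ[X]) :
    taylor 1 (taylor (j : ℚ) p) = taylor ((j + 1 : ℕ) : ℚ) p := by
  rw [taylor_taylor]
  push_cast
  rw [add_comm]

theorem rK_eq_rho {R N : ℕ} (M : ℕ) (P G : Fin R → ℚ[X]) (Q : ℕ → ℚ[X])
    (hQ : ∀ b < N, (X - C (b : ℚ)) ^ M * Q b = ∑ d, P d * taylor (-(b : ℚ)) (G d)) (j : ℕ) (hj : j ≤ N) :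
    rK M P G j = fun i => algebraMap ℚ[X] (RatFunc ℚ) (rho P Q j i) := by
  induction j with
  | zero =>
    funext i
    unfold rK rho
    rcases i with i | d
    · simp
    · simp
  | succ j ih =>
    rw [rK_succ, ih (by omega), zd_Ph M G (rho P Q j) (taylor ((j + 1 : ℕ) : ℚ) (Q j))]
    · funext i
      congr 1
      rcases i with i | d
      · have h10 : ((1 : Fin 2) = 0) = False := by simp
        simp only [Sum.elim_inl, rho, if_true, h10, if_false]
        split_ifs with hi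
        · rw [Finset.sum_range_succ, map_sum, map_sum]
          simp only [taylor_mul, taylor_C, zd_taylor]
          have h1 : ∀ b ∈ Finset.range j, C (((j + 1 : ℕ) : ℚ) - (b : ℚ)) * taylor ((j + 1 : ℕ) : ℚ) (Q b) =
              C ((j : ℚ) - (b : ℚ)) * taylor ((j + 1 : ℕ) : ℚ) (Q b) + taylor ((j + 1 : ℕ) : ℚ) (Q b) := by
            intro b _
            have : ((j + 1 : ℕ) : ℚ) - (b : ℚ) = ((j : ℚ) - (b : ℚ)) + 1 := by push_cast; ring
            rw [this, C_add, C_1]
            ring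
          rw [Finset.sum_congr rfl h1, Finset.sum_add_distrib]
          have h2 : ((j + 1 : ℕ) : ℚ) - (j : ℚ) = 1 := by push_cast; ring
          rw [h2, C_1, one_mul]
        · rw [Finset.sum_range_succ, map_sum]
          simp only [zd_taylor]
      · simp only [Sum.elim_inr, rho]
        rw [zd_taylor]
    · have h1 := congrArg (taylor ((j + 1 : ℕ) : ℚ)) (hQ j (by omega))
      rw [taylor_mul, taylor_pow, map_sub, taylor_X, taylor_C, map_sum] at h1
      have h2 : (X + C ((j + 1 : ℕ) : ℚ) - C (j : ℚ) : ℚ[X]) = X + C 1 := by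
        have : ((j + 1 : ℕ) : ℚ) = (j : ℚ) + 1 := by push_cast; ring
        rw [this, C_add]
        ring
      rw [h2] at h1
      rw [h1]
      refine Finset.sum_congr rfl fun d _ => ?_
      simp only [rho, Sum.elim_inr]
      have h3 : ((j + 1 : ℕ) : ℚ) + -(j : ℚ) = 1 := by push_cast; ring
      rw [taylor_mul, zd_taylor, taylor_taylor, h3]

private theorem zd_idx_inj {R : ℕ} : Function.Injective (fun i : BBZ.Ix R => (⟨idx i, idx_lt i⟩ : Fin (R + 2))) := by
  intro a b h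
  have h1 : idx a = idx b := by
    have := congrArg Fin.val h
    exact this
  unfold idx at h1
  exact finSumFinEquiv.injective (Fin.ext h1)

theorem delta_ne_zero {R N : ℕ} (M : ℕ) (P G : Fin R → ℚ[X]) (Q : ℕ → ℚ[X]) (hR : 1 ≤ R) (hRN : R + 1 ≤ N)
    (hP : LinearIndependent ℚ P) (hG : ∀ d, G d ≠ 0) (hGd : ∀ d, (G d).natDegree + 1 < M)
    (hQ : ∀ b < N, (X - C (b : ℚ)) ^ M * Q b = ∑ d, P d * taylor (-(b : ℚ)) (G d)) :
    (mat P Q).det ≠ 0 := by
  classical
  have h1 := (rows_indep M P G hR hP hG hGd).comp _ zd_idx_inj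
  have h2 : LinearIndependent (RatFunc ℚ) ((algebraMap ℚ[X] (RatFunc ℚ)).mapMatrix (mat P Q)).row := by
    have h3 : ((algebraMap ℚ[X] (RatFunc ℚ)).mapMatrix (mat P Q)).row =
        (fun j : Fin (R + 2) => rK M P G (j : ℕ)) ∘ (fun i : BBZ.Ix R => (⟨idx i, idx_lt i⟩ : Fin (R + 2))) := by
      funext i c
      show algebraMap ℚ[X] (RatFunc ℚ) (rho P Q (idx i) c) = rK M P G (idx i) c
      rw [rK_eq_rho M P G Q hQ (idx i) (by have := idx_lt i; omega)]
    rw [h3]
    exact h1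
  have h4 := (Matrix.isUnit_iff_isUnit_det _).1 (Matrix.linearIndependent_rows_iff_isUnit.1 h2)
  rw [← RingHom.map_det] at h4
  intro h5
  rw [h5, map_zero] at h4
  exact not_isUnit_zero h4

private theorem zd_rho {R N D : ℕ} (P : Fin R → ℚ[X]) (Q : ℕ → ℚ[X])
    (hPd : ∀ d, (P d).natDegree ≤ D) (hQd : ∀ b < N, (Q b).natDegree ≤ D) (j : ℕ) (hj : j ≤ N)
    (i : BBZ.Ix R) : (rho P Q j i).natDegree ≤ D := by
  unfold rho
  rcases i with i | d
  · simp only [Sum.elim_inl]
    split_ifs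
    · refine natDegree_sum_le_of_forall_le _ _ fun b hb => ?_
      rw [Finset.mem_range] at hb
      refine le_trans (natDegree_C_mul_le _ _) ?_
      rw [natDegree_taylor]
      exact hQd b (by omega)
    · refine natDegree_sum_le_of_forall_le _ _ fun b hb => ?_
      rw [Finset.mem_range] at hb
      rw [natDegree_taylor]
      exact hQd b (by omega)
  · simp only [Sum.elim_inr]
    rw [natDegree_taylor]
    exact hPd d

theorem delta_natDegree {R N D : ℕ} (P : Fin R → ℚ[X]) (Q : ℕ → ℚ[X]) (hRN : R + 1 ≤ N)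
    (hPd : ∀ d, (P d).natDegree ≤ D) (hQd : ∀ b < N, (Q b).natDegree ≤ D) :
    (mat P Q).det.natDegree ≤ (R + 2) * D := by
  classical
  rw [Matrix.det_apply]
  refine natDegree_sum_le_of_forall_le _ _ fun s _ => ?_
  refine le_trans (natDegree_smul_le _ _) ?_
  refine le_trans (natDegree_prod_le _ _) ?_
  have h1 : ∀ i ∈ (Finset.univ : Finset (BBZ.Ix R)), (mat P Q (s i) i).natDegree ≤ D := by
    intro i _
    show (rho P Q (idx (s i)) i).natDegree ≤ D
    exact zd_rho P Q hPd hQd _ (by have := idx_lt (s i); omega) i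
  refine le_trans (Finset.sum_le_card_nsmul _ _ _ h1) ?_
  rw [smul_eq_mul, Finset.card_univ]
  refine le_of_eq ?_
  congr 1
  simp [BBZ.Ix, add_comm]

end MP_a3a416_nt.TW
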