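import Pool.Agent.Lib.MP_a3a416_nt.TW.ZDefs

/-!
# TW-ZDiv
The zeros of `delta`, section 4 (a) of TW_proof.md.
`row_eq` PROOF: induction on `j` (for all `n`), or directly.  `h d (n+j) - h d n` telescopes.  Induction: `F_{n+(j+1)}`: with `n' = n + j`: multiply by the nonzero `(X + C (n+j+1))^M` (a domain): from `hh d (n+j)` and `hQ (?)`.
Better (induction on `j` with `n+1`): statement for `(n+1, j)`: `∑_d taylor (n+1+j) (P d) * h d (n+1+j) = taylor (n+1) (rho j (inl 0)) + (n+1) taylor (n+1) (rho j (inl 1)) + ∑_d taylor (n+1) (rho j (inr d)) * h d (n+1)`; and for every `w`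
`∑_d taylor (n+1+j) (P d) * (h d (n+1) - h d n) = (n+1) * taylor n (taylor (j+1) (Q j))` because both sides times `(X + C (n+1))^M` agree: `hh d n` and `hQ j` shifted by `n+j+1` (`X - C j ↦ X + C (n+1)`,
`taylor (n+j+1) (taylor (-j) (G d)) = taylor (n+1) (G d)`), needs `j < N`.  With `rho (j+1) (inl 1) = taylor 1 (rho j (inl 1)) + taylor (j+1) (Q j)` and `rho (j+1) (inl 0) = taylor 1 (rho j (inl 0)) + rho (j+1) (inl 1)` (as in `rK_eq_rho`) the statement for `(n, j+1)` follows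
(`(n+1) (A') + B' = n A'' + B''` bookkeeping, `ring`/`linear_combination`).
`delta_dvd` PROOF.  Ring `ℚ⟦X⟧`.  `A := (mat P Q).map (fun p => (taylor n p : ℚ⟦X⟧))` has determinant `(taylor n det : ℚ⟦X⟧)` (`RingHom.map_det`; `taylorAlgHom`/`taylorEquiv` and `Polynomial.coeToPowerSeries.ringHom`).
`u : BBZ.Ix R → ℚ⟦X⟧`, `u = (1, n, h d n)`, `g = (0, 0, (G d : ℚ⟦X⟧))`.  `Matrix.det_updateCol_sum` (or `cramer`-style lemma): `det (A.updateCol (inl 0) (A.mulVec u)) = u (inl 0) * det A = det A`; then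
`det ((A.updateCol (inl 0) ..).updateCol (inr d0) (.. .mulVec g)) = G_{d0} * det A`, where the `mulVec g` of the new matrix is `A.mulVec g` as `g (inl 0) = 0`.
Entries: `(A.mulVec u) i = ∑_d taylor (n+j) (P d) * h d (n+j)`, `j = idx i` (`row_eq`), divisible by `X^T` (`hz (n+j)`); `(A.mulVec g) i = ∑_d taylor (n+j) (P d) * (G d : ℚ⟦X⟧) = X^M * taylor (n+j) (Q (n+j))` by `hQ (n+j)` shifted by `n+j`.
So `X^(T+M)` divides the determinant (`Matrix.det_updateCol_smul` twice, or `det` expanded: column divisible), and `G_{d0}` is a unit of `ℚ⟦X⟧` (`PowerSeries.isUnit_iff_constantCoeff`), `IsUnit.dvd_mul_left`.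
-/

namespace MP_a3a416_nt.TW

open Polynomial

private theorem zv_sum {ι : Type*} (s : Finset ι) (f : ι → ℚ[X]) :
    ((∑ d ∈ s, f d : ℚ[X]) : PowerSeries ℚ) = ∑ d ∈ s, ((f d : ℚ[X]) : PowerSeries ℚ) :=
  map_sum (Polynomial.coeToPowerSeries.ringHom (R := ℚ)) f s

private theorem zv_C (a : ℚ) : ((C a : ℚ[X]) : PowerSeries ℚ) = PowerSeries.C a := Polynomial.coe_C a

private theorem zv_tt (n j : ℕ) (p : ℚ[X]) :
    taylor (n : ℚ) (taylor (j : ℚ) p) = taylor ((n + j : ℕ) : ℚ) p := by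
  rw [taylor_taylor]
  push_cast
  rfl

private theorem zv_rho1 {R : ℕ} (P : Fin R → ℚ[X]) (Q : ℕ → ℚ[X]) (j : ℕ) :
    rho P Q (j + 1) (Sum.inl 1) = taylor 1 (rho P Q j (Sum.inl 1)) + taylor ((j + 1 : ℕ) : ℚ) (Q j) := by
  have h10 : ((1 : Fin 2) = 0) = False := by simp
  simp only [rho, Sum.elim_inl, h10, if_false]
  rw [Finset.sum_range_succ, map_sum]
  congr 1
  refine Finset.sum_congr rfl fun b _ => ?_
  have := zv_tt 1 j (Q b)
  rw [Nat.cast_one] at this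
  rw [this, add_comm 1 j]

private theorem zv_rho0 {R : ℕ} (P : Fin R → ℚ[X]) (Q : ℕ → ℚ[X]) (j : ℕ) :
    rho P Q (j + 1) (Sum.inl 0) = taylor 1 (rho P Q j (Sum.inl 0)) + taylor 1 (rho P Q j (Sum.inl 1)) +
      taylor ((j + 1 : ℕ) : ℚ) (Q j) := by
  have h10 : ((1 : Fin 2) = 0) = False := by simp
  simp only [rho, Sum.elim_inl, h10, if_false, if_true]
  rw [Finset.sum_range_succ, map_sum, map_sum]
  have ht : ∀ b, taylor 1 (taylor (j : ℚ) (Q b)) = taylor ((j + 1 : ℕ) : ℚ) (Q b) := by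
    intro b
    have := zv_tt 1 j (Q b)
    rw [Nat.cast_one] at this
    rw [this, add_comm 1 j]
  simp only [taylor_mul, taylor_C, ht]
  have h1 : ∀ b ∈ Finset.range j, C (((j + 1 : ℕ) : ℚ) - (b : ℚ)) * taylor ((j + 1 : ℕ) : ℚ) (Q b) =
      C ((j : ℚ) - (b : ℚ)) * taylor ((j + 1 : ℕ) : ℚ) (Q b) + taylor ((j + 1 : ℕ) : ℚ) (Q b) := by
    intro b _
    have : ((j + 1 : ℕ) : ℚ) - (b : ℚ) = ((j : ℚ) - (b : ℚ)) + 1 := by push_cast; ring
    rw [this, C_add, C_1]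
    ring
  rw [Finset.sum_congr rfl h1, Finset.sum_add_distrib]
  have h2 : ((j + 1 : ℕ) : ℚ) - (j : ℚ) = 1 := by push_cast; ring
  rw [h2, C_1, one_mul]

private theorem zv_ne (a : ℚ) (M : ℕ) : (PowerSeries.X + PowerSeries.C a : PowerSeries ℚ) ^ M ≠ 0 := by
  refine pow_ne_zero _ ?_
  intro h
  have h1 := congrArg (PowerSeries.coeff 1) h
  rw [map_add, PowerSeries.coeff_one_X, PowerSeries.coeff_C, map_zero] at h1
  simp at h1

private theorem zv_shift {R : ℕ} (M : ℕ) (P G : Fin R → ℚ[X]) (q : ℚ[X]) (b w : ℕ)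
    (hQ : (X - C (b : ℚ)) ^ M * q = ∑ d, P d * taylor (-(b : ℚ)) (G d)) :
    (X + C ((w : ℚ))) ^ M * taylor ((w + b : ℕ) : ℚ) q =
      ∑ d, taylor ((w + b : ℕ) : ℚ) (P d) * taylor (w : ℚ) (G d) := by
  have h1 := congrArg (taylor ((w + b : ℕ) : ℚ)) hQ
  rw [taylor_mul, taylor_pow, map_sub, taylor_X, taylor_C, map_sum] at h1
  have h2 : (X + C ((w + b : ℕ) : ℚ) - C (b : ℚ) : ℚ[X]) = X + C (w : ℚ) := by
    have : ((w + b : ℕ) : ℚ) = (w : ℚ) + (b : ℚ) := by push_cast; ring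
    rw [this, C_add]
    ring
  rw [h2] at h1
  rw [h1]
  refine Finset.sum_congr rfl fun d _ => ?_
  have h3 : ((w + b : ℕ) : ℚ) + -(b : ℚ) = (w : ℚ) := by push_cast; ring
  rw [taylor_mul, taylor_taylor, h3]

theorem row_eq {R N : ℕ} (M : ℕ) (P G : Fin R → ℚ[X]) (Q : ℕ → ℚ[X]) (h : Fin R → ℕ → PowerSeries ℚ)
    (hQ : ∀ b < N, (X - C (b : ℚ)) ^ M * Q b = ∑ d, P d * taylor (-(b : ℚ)) (G d))
    (hh : ∀ d, ∀ n : ℕ, (PowerSeries.X + PowerSeries.C ((n : ℚ) + 1)) ^ M * (h d (n + 1) - h d n) =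
      ((C ((n : ℚ) + 1) * taylor ((n : ℚ) + 1) (G d) : ℚ[X]) : PowerSeries ℚ))
    (j : ℕ) (hj : j ≤ N) (n : ℕ) :
    ∑ d, ((taylor ((n + j : ℕ) : ℚ) (P d) : ℚ[X]) : PowerSeries ℚ) * h d (n + j) =
      ((taylor (n : ℚ) (rho P Q j (Sum.inl 0)) : ℚ[X]) : PowerSeries ℚ) +
      ((C (n : ℚ) * taylor (n : ℚ) (rho P Q j (Sum.inl 1)) : ℚ[X]) : PowerSeries ℚ) +
      ∑ d, ((taylor (n : ℚ) (rho P Q j (Sum.inr d)) : ℚ[X]) : PowerSeries ℚ) * h d n := by
  induction j generalizing n with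
  | zero =>
    simp [rho]
  | succ j ih =>
    have h1 := ih (by omega) (n + 1)
    have h2 : (X + C ((n : ℚ) + 1)) ^ M * taylor ((n + (j + 1) : ℕ) : ℚ) (Q j) =
        ∑ d, taylor ((n + (j + 1) : ℕ) : ℚ) (P d) * taylor ((n : ℚ) + 1) (G d) := by
      have := zv_shift M P G (Q j) j (n + 1) (hQ j (by omega))
      rw [show n + 1 + j = n + (j + 1) by ring] at this
      rw [Nat.cast_add n 1, Nat.cast_one] at this
      exact this
    have h3 : ∑ d, ((taylor ((n + (j + 1) : ℕ) : ℚ) (P d) : ℚ[X]) : PowerSeries ℚ) * (h d (n + 1) - h d n) =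
        ((C ((n : ℚ) + 1) : ℚ[X]) : PowerSeries ℚ) *
          ((taylor ((n + (j + 1) : ℕ) : ℚ) (Q j) : ℚ[X]) : PowerSeries ℚ) := by
      refine mul_left_cancel₀ (zv_ne ((n : ℚ) + 1) M) ?_
      have h4 := congrArg (fun p : ℚ[X] => (p : PowerSeries ℚ)) h2
      simp only [Polynomial.coe_mul, Polynomial.coe_pow, Polynomial.coe_add, Polynomial.coe_X, zv_C,
        zv_sum] at h4
      rw [mul_left_comm, zv_C, h4, Finset.mul_sum, Finset.mul_sum]
      refine Finset.sum_congr rfl fun d _ => ?_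
      have h5 := hh d n
      rw [Polynomial.coe_mul, zv_C] at h5
      linear_combination ((taylor ((n + (j + 1) : ℕ) : ℚ) (P d) : ℚ[X]) : PowerSeries ℚ) * h5
    have ht : ∀ p : ℚ[X], taylor (n : ℚ) (taylor 1 p) = taylor ((n + 1 : ℕ) : ℚ) p := by
      intro p
      have := zv_tt n 1 p
      rw [Nat.cast_one] at this
      exact this
    rw [show n + (j + 1) = n + 1 + j by ring] at h3 ⊢
    rw [h1, zv_rho0, zv_rho1]
    have h6 : ∀ d, ((taylor ((n + 1 : ℕ) : ℚ) (rho P Q j (Sum.inr d)) : ℚ[X]) : PowerSeries ℚ) * h d (n + 1) =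
        ((taylor (n : ℚ) (rho P Q (j + 1) (Sum.inr d)) : ℚ[X]) : PowerSeries ℚ) * h d n +
        ((taylor ((n + 1 + j : ℕ) : ℚ) (P d) : ℚ[X]) : PowerSeries ℚ) * (h d (n + 1) - h d n) := by
      intro d
      have e1 : taylor ((n + 1 : ℕ) : ℚ) (rho P Q j (Sum.inr d)) = taylor ((n + 1 + j : ℕ) : ℚ) (P d) := by
        show taylor ((n + 1 : ℕ) : ℚ) (taylor (j : ℚ) (P d)) = _
        rw [zv_tt]
      have e2 : taylor (n : ℚ) (rho P Q (j + 1) (Sum.inr d)) = taylor ((n + 1 + j : ℕ) : ℚ) (P d) := by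
        show taylor (n : ℚ) (taylor ((j + 1 : ℕ) : ℚ) (P d)) = _
        rw [zv_tt, show n + (j + 1) = n + 1 + j by ring]
      rw [e1, e2]
      ring
    rw [Finset.sum_congr rfl fun d _ => h6 d, Finset.sum_add_distrib, h3]
    have hq' : taylor (n : ℚ) (taylor ((j + 1 : ℕ) : ℚ) (Q j)) = taylor ((n + 1 + j : ℕ) : ℚ) (Q j) := by
      rw [zv_tt, show n + (j + 1) = n + 1 + j by ring]
    have hc1 : PowerSeries.C (1 : ℚ) = 1 := map_one _
    have hc2 : PowerSeries.C ((n + 1 : ℕ) : ℚ) = PowerSeries.C (n : ℚ) + 1 := by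
      rw [Nat.cast_add, Nat.cast_one, map_add, map_one]
    simp only [map_add, ht, hq', Polynomial.coe_add, Polynomial.coe_mul, zv_C, hc1, hc2]
    ring

theorem delta_dvd {R N T : ℕ} (M : ℕ) (P G : Fin R → ℚ[X]) (Q : ℕ → ℚ[X]) (h : Fin R → ℕ → PowerSeries ℚ)
    (hG0 : ∃ d, (G d).coeff 0 ≠ 0)
    (hQ : ∀ b < N, (X - C (b : ℚ)) ^ M * Q b = ∑ d, P d * taylor (-(b : ℚ)) (G d))
    (hh : ∀ d, ∀ n : ℕ, (PowerSeries.X + PowerSeries.C ((n : ℚ) + 1)) ^ M * (h d (n + 1) - h d n) =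
      ((C ((n : ℚ) + 1) * taylor ((n : ℚ) + 1) (G d) : ℚ[X]) : PowerSeries ℚ))
    (hz : ∀ n < N, (PowerSeries.X : PowerSeries ℚ) ^ T ∣
      ∑ d, ((taylor (n : ℚ) (P d) : ℚ[X]) : PowerSeries ℚ) * h d n)
    (n : ℕ) (hn : n + R + 1 < N) :
    (PowerSeries.X : PowerSeries ℚ) ^ (T + M) ∣ ((taylor (n : ℚ) (mat P Q).det : ℚ[X]) : PowerSeries ℚ) := by
  classical
  obtain ⟨d0, hd0⟩ := hG0
  obtain ⟨φ, hφ⟩ : ∃ φ : ℚ[X] →+* PowerSeries ℚ, ∀ p, φ p = ((taylor (n : ℚ) p : ℚ[X]) : PowerSeries ℚ) :=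
    ⟨(Polynomial.coeToPowerSeries.ringHom (R := ℚ)).comp (taylorAlgHom (n : ℚ)).toRingHom, fun p => rfl⟩
  rw [← hφ, RingHom.map_det]
  obtain ⟨A, hA⟩ : ∃ A, A = φ.mapMatrix (mat P Q) := ⟨_, rfl⟩
  rw [← hA]
  have hAe : ∀ i c, A i c = ((taylor (n : ℚ) (rho P Q (idx i) c) : ℚ[X]) : PowerSeries ℚ) := by
    intro i c
    rw [hA]
    exact hφ _
  -- the two combinations of the columns
  obtain ⟨u, hu⟩ : ∃ u : BBZ.Ix R → PowerSeries ℚ,
      u = Sum.elim (fun i => if i = 0 then 1 else ((C (n : ℚ) : ℚ[X]) : PowerSeries ℚ)) (fun d => h d n) := ⟨_, rfl⟩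
  obtain ⟨g, hg⟩ : ∃ g : BBZ.Ix R → PowerSeries ℚ,
      g = Sum.elim (fun _ => 0) (fun d => ((G d : ℚ[X]) : PowerSeries ℚ)) := ⟨_, rfl⟩
  obtain ⟨A1, hA1⟩ : ∃ A1, A1 = A.updateCol (Sum.inl 0) (fun k => ∑ i, u i • A k i) := ⟨_, rfl⟩
  obtain ⟨A2, hA2⟩ : ∃ A2, A2 = A1.updateCol (Sum.inr d0) (fun k => ∑ i, g i • A1 k i) := ⟨_, rfl⟩
  have hd1 : A1.det = A.det := by
    rw [hA1, Matrix.det_updateCol_sum, hu]
    simp
  have hd2 : A2.det = ((G d0 : ℚ[X]) : PowerSeries ℚ) * A.det := by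
    rw [hA2, Matrix.det_updateCol_sum, hd1, hg, smul_eq_mul, Sum.elim_inr]
  have hcol0 : ∀ i, (PowerSeries.X : PowerSeries ℚ) ^ T ∣ A2 i (Sum.inl 0) := by
    intro i
    have hj := idx_lt i
    have e1 : A2 i (Sum.inl 0) = ∑ c, u c • A i c := by
      rw [hA2, Matrix.updateCol_ne (by simp), hA1, Matrix.updateCol_self]
    have e2 : A2 i (Sum.inl 0) =
        ∑ d, ((taylor ((n + idx i : ℕ) : ℚ) (P d) : ℚ[X]) : PowerSeries ℚ) * h d (n + idx i) := by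
      rw [e1, row_eq M P G Q h hQ hh (idx i) (by omega) n, Fintype.sum_sum_type, Fin.sum_univ_two, hu]
      have h10 : ((1 : Fin 2) = 0) = False := by simp
      simp only [Sum.elim_inl, Sum.elim_inr, if_true, h10, if_false, one_mul, hAe, smul_eq_mul,
        Polynomial.coe_mul]
      congr 1
      refine Finset.sum_congr rfl fun d _ => ?_
      ring
    rw [e2]
    exact hz (n + idx i) (by omega)
  have hcolr : ∀ i, (PowerSeries.X : PowerSeries ℚ) ^ M ∣ A2 i (Sum.inr d0) := by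
    intro i
    have hj := idx_lt i
    have e1 : A2 i (Sum.inr d0) = ∑ c, g c • A1 i c := by
      rw [hA2, Matrix.updateCol_self]
    have e2 : A2 i (Sum.inr d0) =
        ∑ d, ((taylor ((0 + (n + idx i) : ℕ) : ℚ) (P d) : ℚ[X]) : PowerSeries ℚ) * ((G d : ℚ[X]) : PowerSeries ℚ) := by
      rw [e1, Fintype.sum_sum_type, Fin.sum_univ_two, hg]
      simp only [Sum.elim_inl, Sum.elim_inr, zero_mul, add_zero, zero_add, smul_eq_mul]
      refine Finset.sum_congr rfl fun d _ => ?_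
      rw [hA1, Matrix.updateCol_ne (by simp), hAe]
      have : rho P Q (idx i) (Sum.inr d) = taylor ((idx i : ℕ) : ℚ) (P d) := rfl
      rw [this, zv_tt, mul_comm]
    have h2 := zv_shift M P G (Q (n + idx i)) (n + idx i) 0 (hQ (n + idx i) (by omega))
    have h4 := congrArg (fun p : ℚ[X] => (p : PowerSeries ℚ)) h2
    simp only [Polynomial.coe_mul, Polynomial.coe_pow, Polynomial.coe_X,
      zv_sum, Nat.cast_zero, map_zero, add_zero, taylor_zero] at h4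
    rw [e2, ← h4]
    exact Dvd.intro _ rfl
  have hdet : (PowerSeries.X : PowerSeries ℚ) ^ (T + M) ∣ A2.det := by
    rw [Matrix.det_apply]
    refine Finset.dvd_sum fun s _ => ?_
    have hmem : (Sum.inr d0 : BBZ.Ix R) ∈ Finset.univ.erase (Sum.inl 0) := by simp
    have h5 : (PowerSeries.X : PowerSeries ℚ) ^ (T + M) ∣ ∏ i, A2 (s i) i := by
      rw [← Finset.mul_prod_erase _ _ (Finset.mem_univ (Sum.inl 0 : BBZ.Ix R)),
        ← Finset.mul_prod_erase _ _ hmem, pow_add]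
      exact mul_dvd_mul (hcol0 _) (Dvd.dvd.mul_right (hcolr _) _)
    rcases Int.units_eq_one_or (Equiv.Perm.sign s) with h6 | h6
    · rw [h6, one_smul]
      exact h5
    · rw [h6, Units.neg_smul, one_smul]
      exact (dvd_neg).2 h5
  rw [hd2] at hdet
  have hunit : IsUnit ((G d0 : ℚ[X]) : PowerSeries ℚ) := by
    rw [PowerSeries.isUnit_iff_constantCoeff, isUnit_iff_ne_zero]
    rw [← PowerSeries.coeff_zero_eq_constantCoeff_apply, Polynomial.coeff_coe]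
    exact hd0
  exact (IsUnit.dvd_mul_left hunit).1 hdet

end MP_a3a416_nt.TW
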