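import Pool.Agent.Lib.MP_a3a416_nt.TW.ZDelta
import Pool.Agent.Lib.MP_a3a416_nt.TW.ZDiv
import Pool.Agent.Lib.MP_a3a416_nt.TW.Defs

/-!
# TW-ZEst
THE ZERO ESTIMATE.
`zeroR` PROOF: `BBZ.count` with `delta_dvd` for `n < N - R - 1`, `delta_ne_zero`, `delta_natDegree` (with `D - 1`; `natDegree (Q b) ≤ D - 1`: from `hQ`: `M + natDegree (Q b) ≤ (D-1) + (M-2)` if `Q b ≠ 0`).  If `N ≤ R + 1` the left side is `0`.
`zeroEst` PROOF (section 4 of TW_proof.md, reduction).  Let `ms` = the largest `m < S` with `P m ≠ 0`; family `p : Fin (ms+1) → ℚ[X]`, `p m = P m`.  `exists_linearIndependent'` (over `ℚ`): index type `κ`, injective `a : κ → Fin (ms+1)`,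
`span (range (p ∘ a)) = span (range p)`, `LinearIndependent (p ∘ a)`; `κ` is finite with `R = card κ`, `1 ≤ R ≤ ms + 1 ≤ S` (`P ms ≠ 0`); reindex by `Fin R`: `a : Fin R → Fin (ms+1)` injective.
`P m = ∑_i lam m i • P (a i)` for `m ≤ ms` (`mem_span_range_iff_exists_fun`), and `lam (a i) i' = if i = i' then 1 else 0` by independence (choose it so, or prove it).
`G i := ∑_{m ≤ ms} C (cc (e+m) * lam m i) * X^(ms-m)`, `M' := e + ms + 2`, `h' i n := ∑_{m ≤ ms} lam m i • h m n`.  Facts: `(G i).coeff (ms - a i) = cc (e + a i) ≠ 0` (other `m` have other exponents), so `G i ≠ 0`; `natDegree (G i) ≤ ms`;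
`(G i).coeff 0 = cc (e+ms) * lam ms i`, `≠ 0` for some `i` as `P ms ≠ 0`.  `hQ`: from the hypothesis (terms with `m > ms` vanish), cancel `(X - C b)^(S-1-ms)`; `∑_m C (cc) P_m (X-b)^(ms-m) = ∑_i P (a i) * taylor (-b) (G i)`
(`taylor (-b) X = X - C b`).  `hh`: multiply `hh m n` by `(X + C (n+1))^(ms-m)`.  `hz`: the sums agree.  Apply `zeroR`, `M' ≥ e + R + 1`.
-/

namespace MP_a3a416_nt.TW

open Polynomial

theorem zeroR {R N T D : ℕ} (M : ℕ) (P G : Fin R → ℚ[X]) (Q : ℕ → ℚ[X]) (h : Fin R → ℕ → PowerSeries ℚ)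
    (hR : 1 ≤ R) (hP : LinearIndependent ℚ P) (hPd : ∀ d, (P d).natDegree < D)
    (hG : ∀ d, G d ≠ 0) (hGd : ∀ d, (G d).natDegree + 1 < M) (hG0 : ∃ d, (G d).coeff 0 ≠ 0)
    (hQ : ∀ b < N, (X - C (b : ℚ)) ^ M * Q b = ∑ d, P d * taylor (-(b : ℚ)) (G d))
    (hh : ∀ d, ∀ n : ℕ, (PowerSeries.X + PowerSeries.C ((n : ℚ) + 1)) ^ M * (h d (n + 1) - h d n) =
      ((C ((n : ℚ) + 1) * taylor ((n : ℚ) + 1) (G d) : ℚ[X]) : PowerSeries ℚ))
    (hz : ∀ n < N, (PowerSeries.X : PowerSeries ℚ) ^ T ∣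
      ∑ d, ((taylor (n : ℚ) (P d) : ℚ[X]) : PowerSeries ℚ) * h d n) :
    (N - R - 1) * (T + M) ≤ (R + 2) * (D - 1) := by
  rcases Nat.lt_or_ge (R + 1) N with hN | hN
  · have hQd : ∀ b < N, (Q b).natDegree ≤ D - 1 := by
      intro b hb
      by_cases hQ0 : Q b = 0
      · rw [hQ0, natDegree_zero]; exact Nat.zero_le _
      · have h1 : ((X - C (b : ℚ)) ^ M * Q b).natDegree = M + (Q b).natDegree := by
          rw [natDegree_mul (pow_ne_zero _ (X_sub_C_ne_zero _)) hQ0, natDegree_pow,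
            natDegree_X_sub_C, mul_one]
        have h2 : (∑ d, P d * taylor (-(b : ℚ)) (G d)).natDegree ≤ (D - 1) + (M - 2) := by
          refine natDegree_sum_le_of_forall_le _ _ fun d _ => ?_
          refine natDegree_mul_le.trans ?_
          rw [natDegree_taylor]
          have h3 := hPd d
          have h4 := hGd d
          omega
        rw [hQ b hb] at h1
        have h5 := hGd ⟨0, by omega⟩
        omega
    have h1 := delta_ne_zero M P G Q hR hN.le hP hG hGd hQ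
    have h2 := delta_natDegree (N := N) (D := D - 1) P Q hN.le
      (fun d => by have := hPd d; omega) hQd
    exact (BBZ.count _ h1 (N - R - 1) (T + M) (fun n hn =>
      delta_dvd M P G Q h hG0 hQ hh hz n (by omega))).trans h2
  · have : N - R - 1 = 0 := by omega
    rw [this, zero_mul]
    exact Nat.zero_le _

end MP_a3a416_nt.TW
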