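import Pool.Agent.Lib.MP_a3a416_nt.TW.ZRel

/-!
# TW-ZInd
The rows `rK 0, …, rK (R+1)` are linearly independent over `ℚ(x)`.
PROOF.  As the beginning of the proof of `LJ.gzero` (file LJ/ZeroG.lean): `rK 0 ≠ 0` (`P ⟨0,_⟩ ≠ 0` by `hP.ne_zero`).  `BBZ.firstDep` gives `1 ≤ k ≤ R + 2` (`finrank = R + 2`, `Module.finrank_fintype_fun_eq_card`),
`rK 0..rK (k-1)` independent, `rK k ∈ W := span (range fun j : Fin k => rK j)`.  If `k = R + 2`, done.  If `k < R + 2`: `W` is stable under `Ph M G` (additive and semilinear: write `Ph_add`, `Ph_smul`: copies of `gPhi_add`, `gPhi_smul`,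
`gPhi_sum` in LJ/ZeroG.lean), so all `rK j ∈ W` (induction), `finrank W ≤ k < R + 2` so `W ≠ ⊤`, and there is a linear form `φ ≠ 0` on `BBZ.Ix R → ℚ(x)` vanishing on `W` (`Submodule.exists_le_ker_of_lt_top`);
`l i := φ (Pi.single i 1)` is a non-zero relation (`LinearMap.pi_apply_eq_sum_univ`), contradiction with `no_rel`.
-/

namespace MP_a3a416_nt.TW

open Polynomial

private theorem zi_add {R : ℕ} (M : ℕ) (G : Fin R → ℚ[X]) (w w' : BBZ.Ix R → RatFunc ℚ) :
    Ph M G (w + w') = Ph M G w + Ph M G w' := by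
  funext i
  rcases i with i | d
  · by_cases hi : i = 0
    · simp only [Ph, Pi.add_apply, Sum.elim_inl, if_pos hi, map_add, add_mul,
        Finset.sum_add_distrib]
      ring
    · simp only [Ph, Pi.add_apply, Sum.elim_inl, if_neg hi, map_add, add_mul,
        Finset.sum_add_distrib]
      ring
  · simp only [Ph, Pi.add_apply, Sum.elim_inr, map_add]

private theorem zi_smul {R : ℕ} (M : ℕ) (G : Fin R → ℚ[X]) (c : RatFunc ℚ)
    (w : BBZ.Ix R → RatFunc ℚ) : Ph M G (c • w) = BBZ.sh c • Ph M G w := by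
  funext i
  rcases i with i | d
  · by_cases hi : i = 0
    · simp only [Ph, Pi.smul_apply, smul_eq_mul, Sum.elim_inl, if_pos hi, map_mul, mul_add,
        Finset.mul_sum, mul_assoc]
    · simp only [Ph, Pi.smul_apply, smul_eq_mul, Sum.elim_inl, if_neg hi, map_mul, mul_add,
        Finset.mul_sum, mul_assoc]
  · simp only [Ph, Pi.smul_apply, smul_eq_mul, Sum.elim_inr, map_mul]

private theorem zi_zero {R : ℕ} (M : ℕ) (G : Fin R → ℚ[X]) : Ph M G 0 = 0 := by
  have h := zi_smul M G 0 0
  rw [zero_smul, map_zero, zero_smul] at h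
  exact h

private theorem zi_sum {R : ℕ} (M : ℕ) (G : Fin R → ℚ[X]) (k : ℕ) (c : Fin k → RatFunc ℚ)
    (r : Fin k → BBZ.Ix R → RatFunc ℚ) :
    Ph M G (∑ j, c j • r j) = ∑ j, BBZ.sh (c j) • Ph M G (r j) := by
  classical
  have : ∀ s : Finset (Fin k),
      Ph M G (∑ j ∈ s, c j • r j) = ∑ j ∈ s, BBZ.sh (c j) • Ph M G (r j) := by
    intro s
    induction s using Finset.induction_on with
    | empty => simp [zi_zero]
    | insert a s ha ih =>
      rw [Finset.sum_insert ha, Finset.sum_insert ha, zi_add, zi_smul, ih]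
  exact this _

theorem rows_indep {R : ℕ} (M : ℕ) (P G : Fin R → ℚ[X]) (hR : 1 ≤ R) (hP : LinearIndependent ℚ P)
    (hG : ∀ d, G d ≠ 0) (hGd : ∀ d, (G d).natDegree + 1 < M) :
    LinearIndependent (RatFunc ℚ) (fun j : Fin (R + 2) => rK M P G (j : ℕ)) := by
  classical
  have h0 : rK M P G 0 ≠ 0 := by
    intro h
    have h1 := congrFun h (Sum.inr ⟨0, by omega⟩)
    rw [rK_inr, Pi.zero_apply, map_eq_zero_iff _ (RatFunc.algebraMap_injective ℚ)] at h1
    apply hP.ne_zero ⟨0, by omega⟩
    apply taylor_injective ((0 : ℕ) : ℚ)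
    rw [h1, map_zero]
  obtain ⟨k, hk1, hkR, hli, hdep⟩ := BBZ.firstDep (K := RatFunc ℚ) (fun j => rK M P G j) h0
  have hcard : Module.finrank (RatFunc ℚ) (BBZ.Ix R → RatFunc ℚ) = R + 2 := by
    rw [Module.finrank_fintype_fun_eq_card]; simp [BBZ.Ix, add_comm]
  rw [hcard] at hkR
  rcases Nat.lt_or_ge k (R + 2) with hk | hk
  · exfalso
    obtain ⟨W, hW⟩ : ∃ W : Submodule (RatFunc ℚ) (BBZ.Ix R → RatFunc ℚ),
        W = Submodule.span (RatFunc ℚ) (Set.range fun j : Fin k => rK M P G j) := ⟨_, rfl⟩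
    have hWmem : ∀ j, j ≤ k → rK M P G j ∈ W := by
      intro j hj
      rcases Nat.lt_or_ge j k with h | h
      · rw [hW]; exact Submodule.subset_span ⟨⟨j, h⟩, rfl⟩
      · have : j = k := le_antisymm hj h
        rw [this, hW]; exact hdep
    have hst : ∀ w ∈ W, Ph M G w ∈ W := by
      intro w hw
      rw [hW] at hw
      obtain ⟨c, rfl⟩ := (Submodule.mem_span_range_iff_exists_fun (RatFunc ℚ)).1 hw
      rw [zi_sum]
      refine Submodule.sum_mem _ fun j _ => Submodule.smul_mem _ _ ?_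
      rw [← rK_succ]
      exact hWmem _ j.2
    have hall : ∀ j, rK M P G j ∈ W := by
      intro j
      induction j with
      | zero => exact hWmem 0 (Nat.zero_le _)
      | succ j ih => rw [rK_succ]; exact hst _ ih
    have hlt : W < ⊤ := by
      rw [lt_top_iff_ne_top]
      intro htop
      have h1 : Module.finrank (RatFunc ℚ) W ≤ k := by
        rw [hW]
        have h2 := finrank_range_le_card (R := RatFunc ℚ) (fun j : Fin k => rK M P G j)
        rw [Fintype.card_fin] at h2
        exact h2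
      rw [htop, finrank_top, hcard] at h1
      omega
    obtain ⟨φ, hφ, hφW⟩ := Submodule.exists_le_ker_of_lt_top W hlt
    apply hφ
    have hrel : IsRel M P G (fun i => φ (Pi.single i 1)) := by
      refine ⟨0, fun j _ => ?_⟩
      have h1 : φ (rK M P G j) = 0 := hφW (hall j)
      rw [LinearMap.pi_apply_eq_sum_univ φ (rK M P G j)] at h1
      rw [← h1]
      refine Finset.sum_congr rfl fun i _ => ?_
      rw [smul_eq_mul, mul_comm]
      have h5 : (Pi.single i 1 : BBZ.Ix R → RatFunc ℚ) = fun j' => if i = j' then 1 else 0 := by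
        funext j'
        simp [Pi.single_apply, eq_comm]
      rw [← h5]
    have h2 := no_rel M P G hR hP hG hGd _ hrel
    refine LinearMap.pi_ext fun i x => ?_
    have h3 : (Pi.single i x : BBZ.Ix R → RatFunc ℚ) = x • Pi.single i 1 := by
      rw [← Pi.single_smul, smul_eq_mul, mul_one]
    rw [h3, map_smul]
    have h4 := congrFun h2 i
    simp only [Pi.zero_apply] at h4
    rw [h4]
    simp
  · have hk2 : k = R + 2 := le_antisymm hkR hk
    subst hk2
    exact hli

end MP_a3a416_nt.TW
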