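import Pool.Agent.Lib.MP_a3a416_nt.TW.ZPole

/-!
# TW-ZRel
No non-zero relation between the columns (`IsRel`), section 4 (b) of TW_proof.md.
PROOF.  `rK (j+1) = Ph M G (rK j)` (`Function.iterate_succ_apply'`), `rK j (inr d) = algebraMap (taylor j (P d))` (`BBZ.sh_algebraMap`, `taylor_taylor`).  Relations form a `ℚ(x)`-space.
If `l` is a relation, so is `Psi l := (σ(l inl0), σ(l inl1) - σ(l inl0), σ(l inr d) - σ(l inl1) * aG M (G d))`, because
`∑ i, Psi l i * rK (j+1) i = σ (∑ i, l i * rK j i)` (insert the definition of `Ph`; `Fintype.sum_sum_type`, `Fin.sum_univ_two`).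
Step 3: a relation `l` with `l (inl 0) = l (inl 1) = 0` is `0`: otherwise take one with the smallest number of `d` with `l (inr d) ≠ 0` (as in `zst_case2` of LJ/ZeroG.lean, `Nat.find`), normalise `l (inr d1) = 1`;
`Psi l - l` has smaller support, so it is `0`, so all `l (inr d)` are constants `C (c d)` (`BBZ.sh_const`), and `∑_d C (c d) * taylor j (P d) = 0` for one `j`, so `∑_d c d • P d = 0` (`taylor_injective`), contradiction with `hP`
(`Fintype.linearIndependent_iff`) and `c d1 = 1`.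
Step 2: a relation with `l (inl 0) = 0` has `l (inl 1) = 0`: otherwise normalise to `1`; `Psi l - l = (0, 0, σ(l inr d) - aG M (G d) - l inr d)` is `0` by step 3; `d = ⟨0, _⟩`: `σ f - f = aG M (G d)`; `pole_lemma` gives
`(X + C 1)^M ∣ taylor 1 (G d)`, but `taylor 1 (G d) ≠ 0` has degree `< M` (`natDegree_le_of_dvd`, `natDegree_taylor`).
Step 1: a relation has `l (inl 0) = 0`: otherwise normalise to `1`; `Psi l - l = (0, σ a - 1 - a, σ(l inr d) - σ a * aG M (G d) - l inr d)`, `a = l (inl 1)`; by steps 2, 3 it is `0`: `σ(-a) + 1 = -a`, so `-a = C c - X`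
(`BBZ.sh_add_one`), `σ a = algebraMap (X + 1 - C c)`; `pole_lemma` with `p = (X + 1 - C c) * taylor 1 (G d)`, non-zero of degree `≤ natDegree (G d) + 1 < M`: contradiction.
-/

namespace MP_a3a416_nt.TW

open Polynomial

theorem rK_succ {R : ℕ} (M : ℕ) (P G : Fin R → ℚ[X]) (j : ℕ) :
    rK M P G (j + 1) = Ph M G (rK M P G j) := by
  unfold rK
  rw [Function.iterate_succ_apply']

theorem rK_inr {R : ℕ} (M : ℕ) (P G : Fin R → ℚ[X]) (j : ℕ) (d : Fin R) :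
    rK M P G j (Sum.inr d) = algebraMap ℚ[X] (RatFunc ℚ) (taylor (j : ℚ) (P d)) := by
  induction j with
  | zero => simp [rK]
  | succ j ih =>
    rw [rK_succ]
    show BBZ.sh (rK M P G j (Sum.inr d)) = _
    rw [ih, BBZ.sh_algebraMap, taylor_taylor]
    push_cast
    rw [add_comm]

private theorem zr_sum {R : ℕ} (f : BBZ.Ix R → RatFunc ℚ) :
    ∑ i, f i = f (Sum.inl 0) + f (Sum.inl 1) + ∑ d : Fin R, f (Sum.inr d) := by
  rw [Fintype.sum_sum_type, Fin.sum_univ_two]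

private theorem zr_add {R : ℕ} {M : ℕ} {P G : Fin R → ℚ[X]} {l l' : BBZ.Ix R → RatFunc ℚ}
    (h : IsRel M P G l) (h' : IsRel M P G l') : IsRel M P G (l - l') := by
  obtain ⟨a, ha⟩ := h
  obtain ⟨b, hb⟩ := h'
  refine ⟨max a b, fun j hj => ?_⟩
  have h1 := ha j (le_trans (le_max_left _ _) hj)
  have h2 := hb j (le_trans (le_max_right _ _) hj)
  simp only [Pi.sub_apply, sub_mul, Finset.sum_sub_distrib]
  rw [h1, h2, sub_zero]

private theorem zr_smul {R : ℕ} {M : ℕ} {P G : Fin R → ℚ[X]} {l : BBZ.Ix R → RatFunc ℚ}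
    (c : RatFunc ℚ) (h : IsRel M P G l) : IsRel M P G (c • l) := by
  obtain ⟨a, ha⟩ := h
  refine ⟨a, fun j hj => ?_⟩
  simp only [Pi.smul_apply, smul_eq_mul, mul_assoc]
  rw [← Finset.mul_sum, ha j hj, mul_zero]

/-- the dual operator on relations -/
private noncomputable def zrPsi {R : ℕ} (M : ℕ) (G : Fin R → ℚ[X]) (l : BBZ.Ix R → RatFunc ℚ) :
    BBZ.Ix R → RatFunc ℚ :=
  Sum.elim
    (fun i => if i = 0 then BBZ.sh (l (Sum.inl 0)) else BBZ.sh (l (Sum.inl 1)) - BBZ.sh (l (Sum.inl 0)))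
    (fun d => BBZ.sh (l (Sum.inr d)) - BBZ.sh (l (Sum.inl 1)) * aG M (G d))

private theorem zrPsi_0 {R : ℕ} (M : ℕ) (G : Fin R → ℚ[X]) (l : BBZ.Ix R → RatFunc ℚ) :
    zrPsi M G l (Sum.inl 0) = BBZ.sh (l (Sum.inl 0)) := by
  simp [zrPsi]

private theorem zrPsi_1 {R : ℕ} (M : ℕ) (G : Fin R → ℚ[X]) (l : BBZ.Ix R → RatFunc ℚ) :
    zrPsi M G l (Sum.inl 1) = BBZ.sh (l (Sum.inl 1)) - BBZ.sh (l (Sum.inl 0)) := by
  simp [zrPsi]

private theorem zrPsi_r {R : ℕ} (M : ℕ) (G : Fin R → ℚ[X]) (l : BBZ.Ix R → RatFunc ℚ) (d : Fin R) :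
    zrPsi M G l (Sum.inr d) = BBZ.sh (l (Sum.inr d)) - BBZ.sh (l (Sum.inl 1)) * aG M (G d) := rfl

private theorem zrPh_0 {R : ℕ} (M : ℕ) (G : Fin R → ℚ[X]) (w : BBZ.Ix R → RatFunc ℚ) :
    Ph M G w (Sum.inl 0) = BBZ.sh (w (Sum.inl 0)) + BBZ.sh (w (Sum.inl 1)) +
      ∑ d : Fin R, BBZ.sh (w (Sum.inr d)) * aG M (G d) := by
  simp [Ph]

private theorem zrPh_1 {R : ℕ} (M : ℕ) (G : Fin R → ℚ[X]) (w : BBZ.Ix R → RatFunc ℚ) :
    Ph M G w (Sum.inl 1) = BBZ.sh (w (Sum.inl 1)) +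
      ∑ d : Fin R, BBZ.sh (w (Sum.inr d)) * aG M (G d) := by
  simp [Ph]

private theorem zrPh_r {R : ℕ} (M : ℕ) (G : Fin R → ℚ[X]) (w : BBZ.Ix R → RatFunc ℚ) (d : Fin R) :
    Ph M G w (Sum.inr d) = BBZ.sh (w (Sum.inr d)) := rfl

private theorem zr_pair {R : ℕ} (M : ℕ) (G : Fin R → ℚ[X]) (l w : BBZ.Ix R → RatFunc ℚ) :
    ∑ i, zrPsi M G l i * Ph M G w i = BBZ.sh (∑ i, l i * w i) := by
  rw [zr_sum, zr_sum, zrPsi_0, zrPsi_1, zrPh_0, zrPh_1]
  simp only [zrPsi_r, zrPh_r, map_add, map_mul, map_sum]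
  have h1 : ∑ d : Fin R, (BBZ.sh (l (Sum.inr d)) - BBZ.sh (l (Sum.inl 1)) * aG M (G d)) *
      BBZ.sh (w (Sum.inr d)) = ∑ d : Fin R, BBZ.sh (l (Sum.inr d)) * BBZ.sh (w (Sum.inr d)) -
      BBZ.sh (l (Sum.inl 1)) * ∑ d : Fin R, BBZ.sh (w (Sum.inr d)) * aG M (G d) := by
    rw [Finset.mul_sum, ← Finset.sum_sub_distrib]
    refine Finset.sum_congr rfl fun d _ => ?_
    ring
  rw [h1]
  ring

private theorem zr_psi {R : ℕ} {M : ℕ} {P G : Fin R → ℚ[X]} {l : BBZ.Ix R → RatFunc ℚ}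
    (h : IsRel M P G l) : IsRel M P G (zrPsi M G l) := by
  obtain ⟨a, ha⟩ := h
  refine ⟨a + 1, fun j hj => ?_⟩
  obtain ⟨i, rfl⟩ : ∃ i, j = i + 1 := ⟨j - 1, by omega⟩
  rw [rK_succ, zr_pair, ha i (by omega), map_zero]

/-- step 3: no relation between the last columns -/
private theorem zr_step3 {R : ℕ} (M : ℕ) (P G : Fin R → ℚ[X]) (hP : LinearIndependent ℚ P)
    (l : BBZ.Ix R → RatFunc ℚ) (h : IsRel M P G l) (h0 : l (Sum.inl 0) = 0)
    (h1 : l (Sum.inl 1) = 0) : l = 0 := by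
  classical
  by_contra hl
  have hne : ∃ k : ℕ, ∃ w, IsRel M P G w ∧ w (Sum.inl 0) = 0 ∧ w (Sum.inl 1) = 0 ∧ w ≠ 0 ∧
      (Finset.univ.filter (fun d : Fin R => w (Sum.inr d) ≠ 0)).card = k :=
    ⟨_, l, h, h0, h1, hl, rfl⟩
  obtain ⟨w, hw, hwa, hwb, hw0, hk⟩ := Nat.find_spec hne
  have hmin : ∀ u, IsRel M P G u → u (Sum.inl 0) = 0 → u (Sum.inl 1) = 0 → u ≠ 0 →
      (Finset.univ.filter (fun d : Fin R => w (Sum.inr d) ≠ 0)).card ≤
      (Finset.univ.filter (fun d : Fin R => u (Sum.inr d) ≠ 0)).card := by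
    intro u hu hua hub hu0
    rw [hk]
    exact Nat.find_min' hne ⟨u, hu, hua, hub, hu0, rfl⟩
  obtain ⟨d0, hd0⟩ : ∃ d : Fin R, w (Sum.inr d) ≠ 0 := by
    by_contra hcon
    push Not at hcon
    apply hw0
    funext i
    rcases i with i | d
    · have hi : i = 0 ∨ i = 1 := by omega
      rcases hi with rfl | rfl
      · exact hwa
      · exact hwb
    · exact hcon d
  obtain ⟨v, hv⟩ : ∃ v, v = (w (Sum.inr d0))⁻¹ • w := ⟨_, rfl⟩
  have hvW : IsRel M P G v := by rw [hv]; exact zr_smul _ hw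
  have hva : v (Sum.inl 0) = 0 := by rw [hv, Pi.smul_apply, hwa, smul_zero]
  have hvb : v (Sum.inl 1) = 0 := by rw [hv, Pi.smul_apply, hwb, smul_zero]
  have hv1 : v (Sum.inr d0) = 1 := by
    rw [hv, Pi.smul_apply, smul_eq_mul, inv_mul_cancel₀ hd0]
  have hvz : ∀ d, w (Sum.inr d) = 0 → v (Sum.inr d) = 0 := by
    intro d hd
    rw [hv, Pi.smul_apply, smul_eq_mul, hd, mul_zero]
  have huW : IsRel M P G (zrPsi M G v - v) := zr_add (zr_psi hvW) hvW
  have hur : ∀ d, (zrPsi M G v - v) (Sum.inr d) = BBZ.sh (v (Sum.inr d)) - v (Sum.inr d) := by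
    intro d
    rw [Pi.sub_apply, zrPsi_r, hvb, map_zero, zero_mul, sub_zero]
  have hu0 : zrPsi M G v - v = 0 := by
    by_contra hne0
    have h3 := hmin _ huW (by rw [Pi.sub_apply, zrPsi_0, hva, map_zero, sub_zero])
      (by rw [Pi.sub_apply, zrPsi_1, hva, hvb, map_zero, sub_zero, sub_zero]) hne0
    have h4 : (Finset.univ.filter (fun d : Fin R => (zrPsi M G v - v) (Sum.inr d) ≠ 0)).card <
        (Finset.univ.filter (fun d : Fin R => w (Sum.inr d) ≠ 0)).card := by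
      refine Finset.card_lt_card (Finset.ssubset_iff_subset_ne.2 ⟨fun d hd => ?_, fun he => ?_⟩)
      · rw [Finset.mem_filter] at hd ⊢
        refine ⟨Finset.mem_univ _, fun h5 => hd.2 ?_⟩
        rw [hur, hvz d h5, map_zero, sub_zero]
      · have h5 : d0 ∈ Finset.univ.filter (fun d : Fin R => w (Sum.inr d) ≠ 0) :=
          Finset.mem_filter.2 ⟨Finset.mem_univ _, hd0⟩
        rw [← he, Finset.mem_filter] at h5
        apply h5.2
        rw [hur, hv1, map_one, sub_self]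
    omega
  have hconst : ∀ d : Fin R, ∃ c : ℚ, v (Sum.inr d) = algebraMap ℚ[X] (RatFunc ℚ) (C c) := by
    intro d
    apply BBZ.sh_const
    have h3 := congrFun hu0 (Sum.inr d)
    rw [hur, Pi.zero_apply] at h3
    exact sub_eq_zero.1 h3
  choose c hc using hconst
  obtain ⟨j, hj⟩ := hvW
  have h5 := hj j le_rfl
  rw [zr_sum, hva, hvb, zero_mul, zero_mul, zero_add, zero_add] at h5
  have h6 : taylor (j : ℚ) (∑ d, c d • P d) = 0 := by
    apply RatFunc.algebraMap_injective ℚ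
    rw [map_zero, ← h5, map_sum, map_sum]
    refine Finset.sum_congr rfl fun d _ => ?_
    rw [hc d, rK_inr, ← map_mul, smul_eq_C_mul, taylor_mul, taylor_C]
  have h7 : ∑ d, c d • P d = 0 := taylor_injective (j : ℚ) (by rw [h6, map_zero])
  have h8 := Fintype.linearIndependent_iff.1 hP c h7 d0
  have h9 := hc d0
  rw [hv1, h8, map_zero, map_zero] at h9
  exact one_ne_zero h9

private theorem zr_dvd {M : ℕ} {p : ℚ[X]} (h : (X + C 1) ^ M ∣ p) (hp : p ≠ 0) (hd : p.natDegree < M) :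
    False := by
  have h1 := natDegree_le_of_dvd h hp
  rw [natDegree_pow, natDegree_X_add_C, mul_one] at h1
  omega

private theorem zr_taylor_ne {p : ℚ[X]} (hp : p ≠ 0) : taylor 1 p ≠ 0 := fun h =>
  hp (taylor_injective (1 : ℚ) (by rw [h, map_zero]))

/-- step 2 -/
private theorem zr_step2 {R : ℕ} (M : ℕ) (P G : Fin R → ℚ[X]) (hR : 1 ≤ R) (hP : LinearIndependent ℚ P)
    (hG : ∀ d, G d ≠ 0) (hGd : ∀ d, (G d).natDegree + 1 < M)
    (l : BBZ.Ix R → RatFunc ℚ) (h : IsRel M P G l) (h0 : l (Sum.inl 0) = 0) : l = 0 := by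
  refine zr_step3 M P G hP l h h0 ?_
  by_contra h1
  obtain ⟨v, hv⟩ : ∃ v, v = (l (Sum.inl 1))⁻¹ • l := ⟨_, rfl⟩
  have hvW : IsRel M P G v := by rw [hv]; exact zr_smul _ h
  have hva : v (Sum.inl 0) = 0 := by rw [hv, Pi.smul_apply, h0, smul_zero]
  have hvb : v (Sum.inl 1) = 1 := by rw [hv, Pi.smul_apply, smul_eq_mul, inv_mul_cancel₀ h1]
  have hu := zr_step3 M P G hP (zrPsi M G v - v) (zr_add (zr_psi hvW) hvW)
    (by rw [Pi.sub_apply, zrPsi_0, hva, map_zero, sub_zero])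
    (by rw [Pi.sub_apply, zrPsi_1, hva, hvb, map_zero, map_one, sub_zero, sub_self])
  have h2 := congrFun hu (Sum.inr ⟨0, by omega⟩)
  rw [Pi.sub_apply, zrPsi_r, hvb, map_one, one_mul, Pi.zero_apply] at h2
  have h3 := pole_lemma M (taylor 1 (G ⟨0, by omega⟩)) (v (Sum.inr ⟨0, by omega⟩)) (by
    unfold aG at h2
    linear_combination h2)
  refine zr_dvd h3 (zr_taylor_ne (hG _)) ?_
  rw [natDegree_taylor]
  have := hGd ⟨0, by omega⟩
  omega

theorem no_rel {R : ℕ} (M : ℕ) (P G : Fin R → ℚ[X]) (hR : 1 ≤ R) (hP : LinearIndependent ℚ P)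
    (hG : ∀ d, G d ≠ 0) (hGd : ∀ d, (G d).natDegree + 1 < M) (l : BBZ.Ix R → RatFunc ℚ)
    (h : IsRel M P G l) : l = 0 := by
  refine zr_step2 M P G hR hP hG hGd l h ?_
  by_contra h0
  obtain ⟨v, hv⟩ : ∃ v, v = (l (Sum.inl 0))⁻¹ • l := ⟨_, rfl⟩
  have hvW : IsRel M P G v := by rw [hv]; exact zr_smul _ h
  have hva : v (Sum.inl 0) = 1 := by rw [hv, Pi.smul_apply, smul_eq_mul, inv_mul_cancel₀ h0]
  have hu := zr_step2 M P G hR hP hG hGd (zrPsi M G v - v) (zr_add (zr_psi hvW) hvW)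
    (by rw [Pi.sub_apply, zrPsi_0, hva, map_one, sub_self])
  have h1 := congrFun hu (Sum.inl 1)
  rw [Pi.sub_apply, zrPsi_1, hva, map_one, Pi.zero_apply] at h1
  obtain ⟨c, hc⟩ := BBZ.sh_add_one (-v (Sum.inl 1)) (by
    rw [map_neg]
    linear_combination -h1)
  have hs : BBZ.sh (v (Sum.inl 1)) = algebraMap ℚ[X] (RatFunc ℚ) (X + C (1 - c)) := by
    have h4 : BBZ.sh (-v (Sum.inl 1)) = algebraMap ℚ[X] (RatFunc ℚ) (taylor 1 (C c - X)) := by
      rw [hc, BBZ.sh_algebraMap]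
    rw [map_neg] at h4
    rw [← neg_neg (BBZ.sh (v (Sum.inl 1))), h4, ← map_neg]
    congr 1
    rw [map_sub, taylor_C, taylor_X, C_sub]
    ring
  have h2 := congrFun hu (Sum.inr ⟨0, by omega⟩)
  rw [Pi.sub_apply, zrPsi_r, hs, Pi.zero_apply] at h2
  have h3 := pole_lemma M ((X + C (1 - c)) * taylor 1 (G ⟨0, by omega⟩)) (v (Sum.inr ⟨0, by omega⟩)) (by
    unfold aG at h2
    rw [map_mul, mul_div_assoc]
    linear_combination h2)
  refine zr_dvd h3 (mul_ne_zero (X_add_C_ne_zero _) (zr_taylor_ne (hG _))) ?_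
  refine lt_of_le_of_lt natDegree_mul_le ?_
  rw [natDegree_taylor, natDegree_X_add_C]
  have := hGd ⟨0, by omega⟩
  omega

end MP_a3a416_nt.TW
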